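import Pool.Agent.MP_f56020_al.Main

namespace Pool.Agent.SQC

open Pool.Agent.SQ Multiset

/-- A sequencing whose walk leads from `1` to `z`. -/
def SC (G : Type*) [Group G] [Finite G] (z : G) : Prop :=
  ∃ V : Multiset G, Pth ld 1 z V (st (· ≠ 1)) ∧ {1} + V = al G

section seq
variable {G : Type*} [Group G] [Finite G]

theorem exists_seq {α : Type*} {op : α → α → α} {x y : α} {V M : Multiset α}
    (h : Pth op x y V M) : ∃ (n : ℕ) (g : ℕ → α), g 0 = x ∧ g n = y ∧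
      V = ∑ j ∈ Finset.range n, {g (j + 1)} ∧ M = ∑ j ∈ Finset.range n, {op (g j) (g (j + 1))} := by
  induction h with
  | nil x => exact ⟨0, fun _ => x, rfl, rfl, by simp, by simp⟩
  | @cons x y z V M h ih =>
    obtain ⟨n, g, rfl, rfl, rfl, rfl⟩ := ih
    refine ⟨n + 1, fun j => Nat.casesOn j x g, rfl, rfl, ?_, ?_⟩
    · rw [Finset.sum_range_succ', add_comm]
    · rw [Finset.sum_range_succ', add_comm]
      rfl

theorem inj_of_sum {α : Type*} {f : ℕ → α} {n : ℕ}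
    (h : (∑ j ∈ Finset.range n, {f j} : Multiset α).Nodup) :
    ∀ i < n, ∀ j < n, f i = f j → i = j := by
  rw [sum_single] at h
  intro i hi j hj e
  exact inj_on_of_nodup_map h i (by simpa using hi) j (by simpa using hj) e

/-- The sequence form of a sequencing. -/
structure SeqC (q : ℕ → G) (L : ℕ) : Prop where
  card : Nat.card G = L + 1
  inj : ∀ i ≤ L, ∀ j ≤ L, q i = q j → i = j
  lab : ∀ i < L, ∀ j < L, ld (q i) (q (i + 1)) = ld (q j) (q (j + 1)) → i = j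

theorem seq_of_sc {z : G} (h : SC G z) : ∃ q L, SeqC q L ∧ q 0 = 1 ∧ q L = z := by
  obtain ⟨V, p, hV⟩ := h
  obtain ⟨n, g, h0, hn, rfl, hM⟩ := exists_seq p
  have e : (∑ j ∈ Finset.range (n + 1), {g j} : Multiset G) = al G := by
    rw [Finset.sum_range_succ', h0, add_comm, hV]
  refine ⟨g, n, ⟨?_, fun i hi j hj => ?_, ?_⟩, h0, hn⟩
  · rw [← card_al, ← e, sum_single]; simp
  · exact inj_of_sum (n := n + 1) (by rw [e]; exact nodup_st _) i (by omega) j (by omega)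
  · exact inj_of_sum (hM ▸ nodup_st _)

theorem sc_of_seq {q : ℕ → G} {L : ℕ} (h : SeqC q L) {z : G} (hz : q L = z * q 0) : SC G z := by
  let g : ℕ → G := fun i => q i * (q 0)⁻¹
  have p := Pth.seq ld g 0 L
  have h1 := card_ne (1 : G)
  refine ⟨∑ j ∈ Finset.range L, {g (j + 1)}, ?_, ?_⟩
  · have e0 : g 0 = 1 := by simp [g]
    have eL : g L = z := by simp [g, hz]
    simp only [zero_add, e0, eL] at p
    refine p.cast rfl (seq_eq_st _ _ (fun i hi j hj e => h.lab i hi j hj ?_) (fun i hi e => ?_)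
      (by have := h.card; omega))
    · have : q 0 * ld (q i) (q (i + 1)) * (q 0)⁻¹ = q 0 * ld (q j) (q (j + 1)) * (q 0)⁻¹ := by
        simpa [ld, g, mul_assoc] using e
      simpa using this
    · have : q i = q (i + 1) := by simpa [ld, g, inv_mul_eq_one, -mul_inv_rev] using e
      have := h.inj i hi.le (i + 1) hi this
      omega
  · have e0 : (1 : G) = g 0 := by simp [g]
    rw [e0, add_comm, ← Finset.sum_range_succ' (fun j => ({g j} : Multiset G))]
    exact seq_eq_st _ _ (fun i hi j hj e => h.inj i (by omega) j (by omega) (by simpa [g] using e))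
      (fun _ _ => trivial) (by rw [card_al, h.card])

theorem SC.sg {z : G} (h : SC G z) : SG G := by
  obtain ⟨V, p, hV⟩ := h
  exact ⟨1, z, V, p, hV⟩

theorem SC.equiv {H : Type*} [Group H] [Finite H] (e : G ≃* H) {z : G} (h : SC G z) :
    SC H (e z) := by
  obtain ⟨q, L, h, h0, hL⟩ := seq_of_sc h
  refine sc_of_seq (q := fun i => e (q i)) (L := L)
    ⟨by rw [← h.card, Nat.card_congr e.toEquiv], fun i hi j hj k => h.inj i hi j hj (e.injective k),
      fun i hi j hj k => h.lab i hi j hj (e.injective (by simpa [ld] using k))⟩ (by simp [h0, hL])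

end seq

section step
variable {G K A : Type*} [Group G] [Group K] [Group A]

/-- An involution `z` outside the subgroup `ι K`, acting on it through `φ`. -/
structure Ctx (ι : K →* G) (z : G) (φ : K →* K) : Prop where
  inj : Function.Injective ι
  sq : z * z = 1
  act : ∀ u, ι (φ u) = z * ι u * z
  out : ∀ u, ι u ≠ z

/-- A closed walk through the right cosets of `ι K`. -/
structure RP (ι : K →* G) (z : G) (τ : ℕ → G) (L : ℕ) : Prop where
  card : Nat.card G = Nat.card K * (L + 1)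
  inj : ∀ i ≤ L, ∀ j ≤ L, ∀ u, τ j = ι u * τ i → i = j
  last : ∃ u, τ L = ι u * (z * τ 0)
  lab : ∀ i < L, ∀ j < L, ∀ u v, (τ i)⁻¹ * ι u * τ (i + 1) = (τ j)⁻¹ * ι v * τ (j + 1) → i = j
  lab0 : ∀ i < L, ∀ u v, (τ i)⁻¹ * ι u * τ (i + 1) ≠ (τ 0)⁻¹ * ι v * τ 0

/-- Columns for a block `A` along a walk of length `L` with special places `S`. -/
def Asg (ψ : A → A) (L : ℕ) (S : ℕ → Prop) : Prop :=
  ∃ (n : ℕ) (y : ℕ → ℕ → A), Nat.card A = 2 * n + 1 ∧
    (∀ i ≤ L, ∀ l ≤ 2 * n, ∀ l' ≤ 2 * n, y i l = y i l' → l = l') ∧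
    (∀ i < L, ∀ l ≤ 2 * n, ∀ l' ≤ 2 * n,
      (y i l)⁻¹ * y (i + 1) l = (y i l')⁻¹ * y (i + 1) l' → l = l') ∧
    (∀ i ≤ L, ∀ j ≤ L, (S i ↔ S j) → ∀ l ≤ 2 * n, ∀ l' ≤ 2 * n,
      ψ (y j l') = y i l → l % 2 = l' % 2) ∧
    (∀ l < 2 * n, ∀ l' < 2 * n,
      (ψ (y L l))⁻¹ * y 0 (l + 1) = (ψ (y L l'))⁻¹ * y 0 (l' + 1) → l = l') ∧
    (∀ l < 2 * n, ψ (y L l) ≠ y 0 (l + 1)) ∧ ψ (y L (2 * n)) = y 0 0

variable {ι : K →* G} {z : G} {φ : K →* K} {τ : ℕ → G} {L : ℕ}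

theorem Ctx.inv (c : Ctx ι z φ) : z⁻¹ = z := inv_eq_of_mul_eq_one_right c.sq

theorem Ctx.comm (c : Ctx ι z φ) (u : K) : z * ι u = ι (φ u) * z := by
  rw [c.act, mul_assoc, c.sq, mul_one]

theorem Ctx.cancel (c : Ctx ι z φ) (g : G) : z * (z * g) = g := by
  rw [← mul_assoc, c.sq, one_mul]

theorem Ctx.invol (c : Ctx ι z φ) (u : K) : φ (φ u) = u := c.inj (by
  rw [c.act, c.act]; simp [mul_assoc, c.cancel, c.sq])

theorem RP.change (h : RP ι z τ L) (c : Ctx ι z φ) (w : ℕ → K) :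
    RP ι z (fun i => ι (w i) * τ i) L where
  card := h.card
  inj i hi j hj u e := h.inj i hi j hj ((w j)⁻¹ * u * w i) (by
    rw [map_mul, map_mul, map_inv, mul_assoc, mul_assoc, ← e, inv_mul_cancel_left])
  last := by
    obtain ⟨u, hu⟩ := h.last
    refine ⟨w L * u * (φ (w 0))⁻¹, ?_⟩
    rw [hu, ← mul_assoc z, c.comm]
    simp [mul_assoc]
  lab i hi j hj u v e := h.lab i hi j hj ((w i)⁻¹ * u * w (i + 1)) ((w j)⁻¹ * v * w (j + 1))
    (by simpa [mul_assoc] using e)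
  lab0 i hi u v e := h.lab0 i hi ((w i)⁻¹ * u * w (i + 1)) ((w 0)⁻¹ * v * w 0)
    (by simpa [mul_assoc] using e)

theorem exists_rep [Finite G] (c : Ctx ι z φ) : ∃ r : G → K,
    (∀ u g, ι (r (ι u * g)) * (ι u * g) = ι (r g) * g) ∧
      ∀ g, ι (r (z * g)) * (z * g) = z * (ι (r g) * g) := by
  classical
  obtain ⟨f, hf⟩ := Countable.exists_injective_nat G
  let b : G → G := fun g => Classical.epsilon fun h => ∃ u, h = ι u * g
  have b1 : ∀ g, ∃ u, b g = ι u * g := fun g =>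
    Classical.epsilon_spec (p := fun h => ∃ u, h = ι u * g) ⟨g, 1, by simp⟩
  have b2 : ∀ u g, b (ι u * g) = b g := fun u g => by
    simp only [b]
    congr 1
    funext h
    exact propext ⟨fun ⟨v, e⟩ => ⟨v * u, by simp [e, mul_assoc]⟩,
      fun ⟨v, e⟩ => ⟨v * u⁻¹, by simp [e, mul_assoc]⟩⟩
  have b3 : ∀ g, b g ≠ b (z * g) := fun g e => by
    obtain ⟨u, hu⟩ := b1 g
    obtain ⟨v, hv⟩ := b1 (z * g)
    rw [hu, hv, ← mul_assoc] at e
    exact c.out (v⁻¹ * u) (by rw [map_mul, mul_right_cancel e]; simp)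
  let R : G → G := fun g => if f (b g) < f (b (z * g)) then b g else z * b (z * g)
  have R1 : ∀ g, ∃ u, R g = ι u * g := fun g => by
    simp only [R]
    split_ifs
    · exact b1 g
    · obtain ⟨v, hv⟩ := b1 (z * g)
      exact ⟨φ v, by rw [hv, ← mul_assoc, c.comm, mul_assoc, c.cancel]⟩
  choose r hr using R1
  refine ⟨r, fun u g => ?_, fun g => ?_⟩
  · rw [← hr, ← hr]
    simp only [R]
    rw [← mul_assoc z, c.comm, mul_assoc, b2, b2]
  · rw [← hr, ← hr]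
    simp only [R]
    have : f (b g) ≠ f (b (z * g)) := fun e => b3 g (hf e)
    rw [c.cancel]
    split_ifs with h1 h2 h2
    · omega
    · rw [c.cancel]
    · rfl
    · omega

theorem RP.exact [Finite G] (h : RP ι z τ L) (c : Ctx ι z φ) : ∃ τ', RP ι z τ' L ∧
    ∀ i j u, τ' j = ι u * (z * τ' i) → τ' j = z * τ' i := by
  obtain ⟨r, r1, r2⟩ := exists_rep c
  refine ⟨_, h.change c fun i => r (τ i), fun i j u e => ?_⟩
  have e' : τ j = ι ((r (τ j))⁻¹ * u * φ (r (τ i))) * (z * τ i) := by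
    rw [map_mul, map_mul, map_inv, mul_assoc, mul_assoc, ← mul_assoc (ι (φ _)), ← c.comm,
      mul_assoc, ← e, inv_mul_cancel_left]
  rw [← r2, e', r1]

theorem RP.cover [Finite G] (h : RP ι z τ L) (c : Ctx ι z φ) (g : G) :
    ∃ j ≤ L, ∃ u, τ j = ι u * g := by
  have hi : Function.Injective fun x : K × Fin (L + 1) => ι x.1 * τ x.2 := by
    rintro ⟨u, i⟩ ⟨v, j⟩ e
    have e' : τ j = ι (v⁻¹ * u) * τ i := by
      simp only at e
      rw [map_mul, mul_assoc, e]; simp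
    obtain rfl : i = j := Fin.ext (h.inj i (by omega) j (by omega) _ e')
    simp only [mul_left_inj] at e
    rw [c.inj e]
  obtain ⟨⟨u, j⟩, e⟩ := (hi.bijective_of_nat_card_le (by simp [h.card])).2 g
  exact ⟨j, by omega, u⁻¹, by rw [← e]; simp⟩

theorem RP.odd [Finite G] (h : RP ι z τ L) (c : Ctx ι z φ) (ho : Odd (Nat.card K)) : Odd L := by
  have h1 : z ≠ 1 := fun e => c.out 1 (by simp [e])
  have h2 : orderOf z = 2 := orderOf_eq_prime (by rw [sq, c.sq]) h1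
  have h3 : Even (Nat.card G) := even_iff_two_dvd.2 (h2 ▸ orderOf_dvd_natCard z)
  rw [h.card, Nat.even_mul] at h3
  have := h3.resolve_left (Nat.not_even_iff_odd.2 ho)
  exact Nat.not_even_iff_odd.1 (Nat.even_add_one.1 this)

theorem succ_dm (m d : ℕ) : (m % (d + 1) < d ∧ (m + 1) / (d + 1) = m / (d + 1) ∧
    (m + 1) % (d + 1) = m % (d + 1) + 1) ∨
    (m % (d + 1) = d ∧ (m + 1) / (d + 1) = m / (d + 1) + 1 ∧ (m + 1) % (d + 1) = 0) := by
  have h1 := Nat.div_add_mod m (d + 1)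
  have h2 : m % (d + 1) < d + 1 := Nat.mod_lt m (Nat.succ_pos d)
  by_cases h : m % (d + 1) < d
  · left
    have := (Nat.div_mod_unique (a := m + 1) (b := d + 1) (c := m % (d + 1) + 1)
      (d := m / (d + 1)) (Nat.succ_pos d)).2 ⟨by omega, by omega⟩
    exact ⟨h, this⟩
  · right
    have := (Nat.div_mod_unique (a := m + 1) (b := d + 1) (c := 0)
      (d := m / (d + 1) + 1) (Nat.succ_pos d)).2 ⟨by rw [mul_add]; omega, by omega⟩
    exact ⟨by omega, this⟩

theorem Ctx.ker (c : Ctx ι z φ) (ρ : K →* A) {ψ : A → A} (hψ : ∀ u, ρ (φ u) = ψ (ρ u)) :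
    ∃ φ' : ρ.ker →* ρ.ker, (∀ u, (φ' u : K) = φ u) ∧ Ctx (ι.comp ρ.ker.subtype) z φ' := by
  have h1 : ψ 1 = 1 := by simpa using (hψ 1).symm
  refine ⟨(φ.comp ρ.ker.subtype).codRestrict _ fun u => ?_, fun _ => rfl,
    c.inj.comp ρ.ker.subtype_injective, c.sq, fun u => c.act u, fun u => c.out u⟩
  rw [MonoidHom.mem_ker, MonoidHom.comp_apply, hψ, Subgroup.subtype_apply,
    MonoidHom.mem_ker.1 u.2, h1]

theorem step [Finite G] (c : Ctx ι z φ) (h : RP ι z τ L)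
    (hex : ∀ i j u, τ j = ι u * (z * τ i) → τ j = z * τ i) (ρ : K →* A)
    (hρ : Function.Surjective ρ) {ψ : A → A} (hψ : ∀ u, ρ (φ u) = ψ (ρ u)) {S : ℕ → Prop}
    (hS : ∀ i ≤ L, ∀ j ≤ L, τ j = z * τ i → (S i ↔ S j)) (hA : Asg ψ L S) :
    ∃ τ' L', RP (ι.comp ρ.ker.subtype) z τ' L' ∧ L' + 1 = Nat.card A * (L + 1) := by
  obtain ⟨n, y, hn, a1, a2, a3, a4, a5, a6⟩ := hA
  choose s hs using hρ
  have hL : τ L = z * τ 0 := h.last.elim fun u e => hex _ _ u e
  let ζ : ℕ → G := fun l => if l % 2 = 0 then 1 else z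
  let f : ℕ → ℕ → G := fun l i => ζ l * (ι (s (y i l)) * τ i)
  have ζs : ∀ l, ζ (l + 1) = ζ l * z := fun l => by
    simp only [ζ]
    split_ifs with h1 h2 h2
    · omega
    · exact c.sq.symm
    · simp
    · omega
  have ζc : ∀ l (u : ρ.ker), ∃ v : ρ.ker, (ζ l)⁻¹ * ι u * ζ l = ι v := fun l u => by
    obtain ⟨φ', e, -⟩ := c.ker ρ hψ
    simp only [ζ]
    split_ifs
    · exact ⟨u, by simp⟩
    · exact ⟨φ' u, by rw [e, c.act, c.inv]⟩
  have k1 : ∀ u : ρ.ker, ρ u = 1 := fun u => MonoidHom.mem_ker.1 u.2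
  have finj : ∀ l ≤ 2 * n, ∀ l' ≤ 2 * n, ∀ i ≤ L, ∀ j ≤ L, ∀ u : ρ.ker,
      f l' j = ι u * f l i → l = l' ∧ i = j := by
    intro l hl l' hl' i hi j hj u e
    obtain ⟨v, hv⟩ := ζc l u
    have e1 : (ζ l)⁻¹ * ζ l' * (ι (s (y j l')) * τ j) = ι v * (ι (s (y i l)) * τ i) := by
      rw [← hv, mul_assoc, mul_assoc, mul_assoc]
      exact congrArg _ e
    by_cases hp : l % 2 = l' % 2
    · rw [show ζ l' = ζ l by simp only [ζ, hp], inv_mul_cancel, one_mul] at e1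
      obtain rfl := h.inj i hi j hj ((s (y j l'))⁻¹ * v * s (y i l)) (by
        rw [map_mul, map_mul, map_inv, mul_assoc, mul_assoc, ← e1, inv_mul_cancel_left])
      rw [← mul_assoc, ← map_mul] at e1
      have e2 := congrArg ρ (c.inj (mul_right_cancel e1))
      rw [map_mul, k1, one_mul, hs, hs] at e2
      exact ⟨a1 i hi l hl l' hl' e2.symm, rfl⟩
    · exfalso
      have e0 : (ζ l)⁻¹ * ζ l' = z := by
        simp only [ζ]
        split_ifs with h1 h2 h2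
        · omega
        · simp
        · simp [c.inv]
        · omega
      rw [e0, ← mul_assoc, c.comm, mul_assoc] at e1
      have e3 : τ i = z * τ j := hex j i ((s (y i l))⁻¹ * (v : K)⁻¹ * φ (s (y j l'))) (by
        rw [map_mul, map_mul, map_inv, map_inv, mul_assoc, mul_assoc, e1, inv_mul_cancel_left,
          inv_mul_cancel_left])
      rw [← e3, ← mul_assoc, ← map_mul] at e1
      have e2 := congrArg ρ (c.inj (mul_right_cancel e1))
      rw [map_mul, k1, one_mul, hψ, hs, hs] at e2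
      exact hp (a3 i hi j hj (hS j hj i hi e3).symm l hl l' hl' e2)
  have in1 : ∀ l i (u : ρ.ker), ∃ w : K, ρ w = (y i l)⁻¹ * y (i + 1) l ∧
      (f l i)⁻¹ * ι u * f l (i + 1) = (τ i)⁻¹ * ι w * τ (i + 1) := fun l i u => by
    obtain ⟨v, hv⟩ := ζc l u
    refine ⟨(s (y i l))⁻¹ * v * s (y (i + 1) l), by simp [k1, hs], ?_⟩
    rw [map_mul, map_mul, ← hv]
    simp [f, mul_assoc]
  have in2 : ∀ l (u : ρ.ker), ∃ w : K, ρ w = (ψ (y L l))⁻¹ * y 0 (l + 1) ∧
      (f l L)⁻¹ * ι u * f (l + 1) 0 = (τ 0)⁻¹ * ι w * τ 0 := fun l u => by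
    obtain ⟨v, hv⟩ := ζc (l + 1) u
    refine ⟨(φ (s (y L l)))⁻¹ * v * s (y 0 (l + 1)), by simp [k1, hs, hψ], ?_⟩
    rw [map_mul, map_mul, ← hv, map_inv, c.act]
    simp [f, mul_assoc, ζs, hL, c.inv, c.cancel]
  have in3 : ∀ u : ρ.ker, ∃ w : K, ρ w = 1 ∧
      (f 0 0)⁻¹ * ι u * f 0 0 = (τ 0)⁻¹ * ι w * τ 0 := fun u =>
    ⟨(s (y 0 0))⁻¹ * u * s (y 0 0), by simp [k1], by simp [f, ζ, mul_assoc]⟩
  have dv : ∀ m ≤ 2 * n * (L + 1) + L, m / (L + 1) ≤ 2 * n := fun m hm =>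
    Nat.lt_succ_iff.1 ((Nat.div_lt_iff_lt_mul (Nat.succ_pos L)).2 (by
      change m < (2 * n + 1) * (L + 1)
      rw [add_mul (2 * n)]; omega))
  have md : ∀ m, m % (L + 1) ≤ L := fun m => Nat.lt_succ_iff.1 (Nat.mod_lt _ (Nat.succ_pos L))
  have ext : ∀ m m', m / (L + 1) = m' / (L + 1) → m % (L + 1) = m' % (L + 1) → m = m' :=
    fun m m' e1 e2 => by rw [← Nat.div_add_mod m (L + 1), e1, e2, Nat.div_add_mod]
  have cj : ∀ {a b : G} {w w' : K}, a * ι w * b = a * ι w' * b → ρ w = ρ w' := fun e =>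
    congrArg ρ (c.inj (mul_left_cancel (mul_right_cancel e)))
  refine ⟨fun m => f (m / (L + 1)) (m % (L + 1)), 2 * n * (L + 1) + L, ⟨?_, ?_, ?_, ?_, ?_⟩, ?_⟩
  · rw [h.card, ← Subgroup.card_mul_index ρ.ker, Subgroup.index_ker,
      MonoidHom.range_eq_top.2 (fun a => ⟨s a, hs a⟩), Subgroup.card_top, hn]
    ring
  · intro m hm m' hm' u e
    obtain ⟨e1, e2⟩ := finj _ (dv m hm) _ (dv m' hm') _ (md m) _ (md m') u e
    exact ext _ _ e1 e2
  · have e := (Nat.div_mod_unique (a := 2 * n * (L + 1) + L) (b := L + 1) (c := L)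
      (d := 2 * n) (Nat.succ_pos L)).2 ⟨by ring, by omega⟩
    refine ⟨⟨s (y L (2 * n)) * (φ (s (y 0 0)))⁻¹, ?_⟩, ?_⟩
    · have := hψ (φ (s (y L (2 * n))))
      rw [c.invol, hs, hψ, hs, a6] at this
      rw [MonoidHom.mem_ker, map_mul, map_inv, hs, hψ, hs, ← this, mul_inv_cancel]
    · simp only [e.1, e.2, Nat.zero_div, Nat.zero_mod]
      simp [f, ζ, hL, c.act, mul_assoc, c.inv, c.cancel]
  · intro m hm m' hm' u v e
    have d1 := dv (m + 1) hm
    have d2 := dv (m' + 1) hm'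
    simp only [MonoidHom.comp_apply, Subgroup.subtype_apply] at e
    rcases succ_dm m L with ⟨p1, p2, p3⟩ | ⟨p1, p2, p3⟩ <;>
      rcases succ_dm m' L with ⟨q1, q2, q3⟩ | ⟨q1, q2, q3⟩ <;> rw [p2, p3, q2, q3] at e
    · obtain ⟨w, hw, ew⟩ := in1 (m / (L + 1)) (m % (L + 1)) u
      obtain ⟨w', hw', ew'⟩ := in1 (m' / (L + 1)) (m' % (L + 1)) v
      rw [ew, ew'] at e
      have e2 := h.lab _ p1 _ q1 _ _ e
      rw [← e2] at e hw'
      exact ext _ _ (a2 _ p1 _ (by omega) _ (by omega) (by rw [← hw, ← hw', cj e])) e2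
    · obtain ⟨w, hw, ew⟩ := in1 (m / (L + 1)) (m % (L + 1)) u
      obtain ⟨w', hw', ew'⟩ := in2 (m' / (L + 1)) v
      rw [q1, ew, ew'] at e
      exact absurd e (h.lab0 _ p1 _ _)
    · obtain ⟨w, hw, ew⟩ := in2 (m / (L + 1)) u
      obtain ⟨w', hw', ew'⟩ := in1 (m' / (L + 1)) (m' % (L + 1)) v
      rw [p1, ew, ew'] at e
      exact absurd e.symm (h.lab0 _ q1 _ _)
    · obtain ⟨w, hw, ew⟩ := in2 (m / (L + 1)) u
      obtain ⟨w', hw', ew'⟩ := in2 (m' / (L + 1)) v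
      rw [p1, q1, ew, ew'] at e
      exact ext _ _ (a4 _ (by omega) _ (by omega) (by rw [← hw, ← hw', cj e])) (p1.trans q1.symm)
  · intro m hm u v e
    have d1 := dv (m + 1) hm
    simp only [MonoidHom.comp_apply, Subgroup.subtype_apply, Nat.zero_div, Nat.zero_mod] at e
    obtain ⟨w', hw', ew'⟩ := in3 v
    rcases succ_dm m L with ⟨p1, p2, p3⟩ | ⟨p1, p2, p3⟩ <;> rw [p2, p3, ew'] at e
    · obtain ⟨w, hw, ew⟩ := in1 (m / (L + 1)) (m % (L + 1)) u
      rw [ew] at e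
      exact h.lab0 _ p1 _ _ e
    · obtain ⟨w, hw, ew⟩ := in2 (m / (L + 1)) u
      rw [p1, ew] at e
      exact a5 (m / (L + 1)) (by omega) (inv_mul_eq_one.1 (by rw [← hw, cj e, hw']))
  · rw [hn]; ring

theorem RP.sc [Finite G] [Subsingleton K] (h : RP ι z τ L) : SC G z := by
  have h1 : Nat.card K = 1 := Nat.card_of_subsingleton 1
  refine sc_of_seq (q := τ) (L := L) ⟨by rw [h.card, h1, one_mul], fun i hi j hj e =>
    h.inj i hi j hj 1 (by simp [e]), fun i hi j hj e => h.lab i hi j hj 1 1 (by simpa [ld] using e)⟩ ?_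
  obtain ⟨u, hu⟩ := h.last
  rw [hu, Subsingleton.elim u 1]; simp

theorem rp_of_sc {Q : Type*} [Group Q] [Finite Q] (π : G →* Q) (hπ : Function.Surjective π)
    (h : SC Q (π z)) : ∃ τ L, RP π.ker.subtype z τ L ∧ Nat.card Q = L + 1 := by
  obtain ⟨q, L, h, h0, hL⟩ := seq_of_sc h
  choose σ hσ using hπ
  have k1 : ∀ u : π.ker, π u = 1 := fun u => MonoidHom.mem_ker.1 u.2
  refine ⟨fun i => σ (q i), L, ⟨?_, fun i hi j hj u e => ?_, ?_, fun i hi j hj u v e => ?_,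
    fun i hi u v e => ?_⟩, h.card⟩
  · rw [← Subgroup.card_mul_index π.ker, Subgroup.index_ker,
      MonoidHom.range_eq_top.2 (fun a => ⟨σ a, hσ a⟩), Subgroup.card_top, h.card]
  · exact h.inj i hi j hj (by simpa [k1, hσ] using (congrArg π e).symm)
  · exact ⟨⟨σ (q L) * (z * σ (q 0))⁻¹, by simp [MonoidHom.mem_ker, hσ, h0, hL]⟩,
      (inv_mul_cancel_right _ _).symm⟩
  · exact h.lab i hi j hj (by simpa [k1, hσ, ld] using congrArg π e)
  · have e1 : q i = q (i + 1) := by simpa [k1, hσ, inv_mul_eq_one] using congrArg π e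
    have := h.inj i hi.le (i + 1) hi e1
    omega

theorem ctx_ker {Q : Type*} [Group Q] (π : G →* Q) (hz : z * z = 1) (h1 : π z ≠ 1) :
    Ctx π.ker.subtype z (MulAut.conjNormal z : MulAut π.ker).toMonoidHom :=
  ⟨π.ker.subtype_injective, hz, fun u => by simp [inv_eq_of_mul_eq_one_right hz],
    fun u e => h1 (e ▸ MonoidHom.mem_ker.1 u.2)⟩

/-- A block that can be used along every walk of odd length. -/
def Blk (ψ : A → A) : Prop := ∀ L, Odd L → Asg ψ L fun _ => False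

/-- A block that can be used along walks of odd length at least three. -/
def Blk' (ψ : A → A) : Prop := ∀ L j, Odd L → 1 < j → j < L → Asg ψ L fun i => i = 1 ∨ i = j

theorem step' [Finite G] (c : Ctx ι z φ) (h : RP ι z τ L) (ho : Odd (Nat.card K)) (ρ : K →* A)
    (hρ : Function.Surjective ρ) {ψ : A → A} (hψ : ∀ u, ρ (φ u) = ψ (ρ u))
    (hA : Blk ψ ∨ (Blk' ψ ∧ 2 ≤ L)) :
    ∃ τ' L', RP (ι.comp ρ.ker.subtype) z τ' L' ∧ L' + 1 = Nat.card A * (L + 1) := by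
  obtain ⟨τ, h, hex⟩ := h.exact c
  have hL := h.odd c ho
  rcases hA with hA | ⟨hA, h2⟩
  · exact step c h hex ρ hρ hψ (fun _ _ _ _ _ => Iff.rfl) (hA L hL)
  obtain ⟨j, hj, u, e⟩ := h.cover c (z * τ 1)
  replace e := hex _ _ _ e
  have eL : τ L = z * τ 0 := h.last.elim fun u e => hex _ _ u e
  have inj : ∀ i ≤ L, ∀ j ≤ L, τ j = τ i → i = j := fun i hi j hj e => h.inj i hi j hj 1 (by simp [e])
  have j0 : j ≠ 0 := by
    rintro rfl
    have := inj 1 (by omega) L le_rfl (by rw [eL, e, c.cancel])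
    omega
  have j1 : j ≠ 1 := by
    rintro rfl
    exact c.out 1 (by rw [map_one]; exact mul_right_cancel ((one_mul _).trans e))
  have jL : j ≠ L := by
    rintro rfl
    have := inj 1 (by omega) 0 (by omega) (mul_left_cancel (eL.symm.trans e))
    omega
  have key : ∀ a ≤ L, ∀ b ≤ L, τ b = z * τ a → a = 1 ∨ a = j → b = 1 ∨ b = j := by
    rintro a ha b hb k (rfl | rfl)
    · exact Or.inr (inj _ hb _ hj (e.trans k.symm))
    · exact Or.inl (inj _ hb _ (by omega) (by rw [k, e, c.cancel]))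
  exact step c h hex ρ hρ hψ (fun a ha b hb k => ⟨key a ha b hb k, key b hb a ha
    (by rw [k, c.cancel])⟩) (hA L j hL (by omega) (by omega))

end step

end Pool.Agent.SQC
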