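import Mathlib.Data.Int.ConditionallyCompleteOrder
import Mathlib.Data.Int.Star
import Mathlib.GroupTheory.FixedPointFree
import Mathlib.GroupTheory.Nilpotent
import Pool.Agent.MP_f56020_al.cy.Step

namespace Pool.Agent.SQC

open Pool.Agent.SQ Multiplicative

universe u

section two
variable {A : Type} [AddCommGroup A] [DecidableEq A]

/-- The finite conditions on two columns. -/
def Two (ψ : A → A) (n : ℕ) (a b : ℕ → A) : Prop :=
  (∀ l ≤ 2 * n, ∀ l' ≤ 2 * n, (a l = a l' → l = l') ∧ (b l = b l' → l = l') ∧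
    (b l - a l = b l' - a l' → l = l') ∧
    (ψ (a l') = a l ∨ ψ (a l') = b l ∨ ψ (b l') = a l ∨ ψ (b l') = b l → l % 2 = l' % 2)) ∧
  (∀ l < 2 * n, ∀ l' < 2 * n, a (l + 1) - ψ (b l) = a (l' + 1) - ψ (b l') → l = l') ∧
  (∀ l < 2 * n, ψ (b l) ≠ a (l + 1)) ∧ ψ (b (2 * n)) = a 0

instance (ψ : A → A) (n : ℕ) (a b : ℕ → A) : Decidable (Two ψ n a b) := by
  unfold Two; infer_instance

omit [DecidableEq A] in
theorem blk_two {ψ : A → A} {n : ℕ} {a b : ℕ → A} (hc : Nat.card A = 2 * n + 1)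
    (h : Two ψ n a b) : Blk fun x : Multiplicative A => ofAdd (ψ x.toAdd) := by
  obtain ⟨h1, h2, h3, h4⟩ := h
  intro L hL
  have hL' : ¬ L % 2 = 0 := by rw [Nat.odd_iff.1 hL]; decide
  refine ⟨n, fun i l => ofAdd (if i % 2 = 0 then a l else b l), hc, ?_, ?_, ?_, ?_, ?_, ?_⟩
  · intro i _ l hl l' hl' e
    have e := ofAdd.injective e
    split_ifs at e
    · exact (h1 l hl l' hl').1 e
    · exact (h1 l hl l' hl').2.1 e
  · intro i _ l hl l' hl' e
    have e := congrArg toAdd e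
    simp only [toAdd_mul, toAdd_inv, toAdd_ofAdd] at e
    refine (h1 l hl l' hl').2.2.1 ?_
    split_ifs at e with p q q
    · omega
    · rwa [neg_add_eq_sub, neg_add_eq_sub] at e
    · rw [neg_add_eq_sub, neg_add_eq_sub] at e
      rw [← neg_sub, e, neg_sub]
    · omega
  · intro i _ j _ _ l hl l' hl' e
    have e := ofAdd.injective e
    refine (h1 l hl l' hl').2.2.2 ?_
    simp only [toAdd_ofAdd] at e
    split_ifs at e <;> simp [e]
  · intro l hl l' hl' e
    have e := congrArg toAdd e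
    simp only [toAdd_mul, toAdd_inv, toAdd_ofAdd, if_neg hL', Nat.zero_mod, if_true,
      neg_add_eq_sub] at e
    exact h2 l hl l' hl' e
  · intro l hl e
    have e := ofAdd.injective e
    simp only [toAdd_ofAdd, if_neg hL', Nat.zero_mod, if_true] at e
    exact h3 l hl e
  · simp only [toAdd_ofAdd, if_neg hL', Nat.zero_mod, if_true, h4]

end two

theorem blk9 : Blk fun x : Multiplicative (ZMod 9) => x⁻¹ :=
  blk_two (ψ := fun x => -x) (n := 4) (a := fun l => [0, 1, 7, 5, 6, 8, 2, 4, 3].getD l 0)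
    (b := fun l => [3, 8, 2, 4, 6, 1, 7, 5, 0].getD l 0) (by simp) (by decide +kernel)

theorem blk33 : Blk fun x : Multiplicative (ZMod 3 × ZMod 3) => x⁻¹ :=
  blk_two (ψ := fun x => -x) (n := 4)
    (a := fun l => [(1, 0), (0, 1), (2, 0), (1, 2), (2, 2), (2, 1), (1, 1), (0, 2), (0, 0)].getD l 0)
    (b := fun l => [(1, 0), (0, 2), (0, 0), (2, 1), (1, 1), (1, 2), (2, 2), (0, 1), (2, 0)].getD l 0)
    (by simp) (by decide +kernel)

theorem blkd : Blk fun x : Multiplicative (ZMod 3 × ZMod 3) => ofAdd (x.toAdd.1, -x.toAdd.2) :=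
  blk_two (ψ := fun x => (x.1, -x.2)) (n := 4)
    (a := fun l => [(1, 0), (2, 0), (2, 1), (0, 0), (0, 1), (1, 1), (2, 2), (1, 2), (0, 2)].getD l 0)
    (b := fun l => [(2, 2), (1, 1), (0, 1), (2, 0), (0, 2), (0, 0), (2, 1), (1, 2), (1, 0)].getD l 0)
    (by simp) (by decide +kernel)

theorem blk27 : Blk fun x : Multiplicative (ZMod 27) => x⁻¹ :=
  blk_two (ψ := fun x => -x) (n := 13)
    (a := fun l => [23, 18, 14, 9, 11, 10, 19, 15, 24, 2, 16, 21, 7, 1, 5, 17, 20, 26, 8, 25, 22, 0,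
      13, 6, 4, 12, 3].getD l 0)
    (b := fun l => [19, 18, 11, 2, 5, 0, 8, 21, 7, 15, 14, 9, 16, 6, 13, 1, 23, 25, 3, 17, 24, 12,
      20, 10, 22, 26, 4].getD l 0) (by simp) (by decide +kernel)

theorem blk93 : Blk fun x : Multiplicative (ZMod 9 × ZMod 3) => x⁻¹ :=
  blk_two (ψ := fun x => -x) (n := 13)
    (a := fun l => [(8, 2), (7, 1), (1, 2), (0, 0), (6, 1), (7, 0), (2, 1), (6, 0), (8, 1), (2, 2),
      (4, 0), (1, 0), (5, 1), (8, 0), (4, 2), (4, 1), (0, 2), (3, 0), (1, 1), (2, 0), (3, 2), (6, 2),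
      (7, 2), (3, 1), (0, 1), (5, 2), (5, 0)].getD l 0)
    (b := fun l => [(1, 2), (2, 2), (8, 2), (3, 1), (6, 1), (5, 2), (0, 2), (0, 0), (7, 2), (2, 0),
      (3, 2), (6, 2), (5, 0), (3, 0), (8, 1), (1, 0), (2, 1), (4, 1), (0, 1), (8, 0), (4, 2), (7, 1),
      (4, 0), (6, 0), (5, 1), (7, 0), (1, 1)].getD l 0) (by simp) (by decide +kernel)

theorem blk333 : Blk fun x : Multiplicative (ZMod 3 × ZMod 3 × ZMod 3) => x⁻¹ :=
  blk_two (ψ := fun x => -x) (n := 13)
    (a := fun l => [(1, 2, 2), (2, 1, 2), (1, 1, 2), (0, 0, 1), (2, 0, 0), (2, 1, 0), (2, 2, 1),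
      (0, 0, 0), (0, 1, 1), (0, 2, 1), (2, 1, 1), (0, 1, 0), (0, 2, 2), (0, 0, 2), (1, 0, 0),
      (1, 1, 1), (2, 0, 2), (2, 2, 2), (2, 2, 0), (0, 2, 0), (2, 0, 1), (1, 2, 1), (1, 0, 1),
      (1, 2, 0), (1, 1, 0), (0, 1, 2), (1, 0, 2)].getD l 0)
    (b := fun l => [(2, 2, 1), (1, 2, 0), (2, 0, 2), (0, 1, 0), (1, 2, 2), (0, 2, 1), (2, 0, 1),
      (0, 0, 1), (2, 2, 0), (0, 1, 2), (1, 1, 0), (0, 0, 2), (1, 0, 2), (1, 2, 1), (2, 0, 0),
      (1, 1, 1), (1, 0, 0), (2, 1, 2), (0, 1, 1), (2, 1, 0), (1, 0, 1), (2, 2, 2), (0, 2, 2),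
      (0, 0, 0), (1, 1, 2), (0, 2, 0), (2, 1, 1)].getD l 0) (by simp) (by decide +kernel)

theorem asg_lin {p n : ℕ} [Fact p.Prime] (hp : p = 2 * n + 1) {ε : ZMod p} (hε : ε = 1 ∨ ε = -1)
    {L : ℕ} {S : ℕ → Prop} (c : ℕ → ZMod p) (c1 : ∀ i ≤ L, c i ≠ 0) (c2 : ∀ i < L, c (i + 1) ≠ c i)
    (c3 : ∀ i ≤ L, ∀ j ≤ L, (S i ↔ S j) → c i = c j ∨ c i = -c j) (c0 : c 0 = 1)
    (cL : ε * c L = -1) : Asg (fun x : Multiplicative (ZMod p) => ofAdd (ε * x.toAdd)) L S := by
  have hn : (2 : ZMod p) * n + 1 = 0 := by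
    have : ((2 * n + 1 : ℕ) : ZMod p) = 0 := hp ▸ ZMod.natCast_self p
    exact_mod_cast this
  have h2 : (2 : ZMod p) ≠ 0 := fun h => by simp [h] at hn
  have ci : ∀ l ≤ 2 * n, ∀ l' ≤ 2 * n, (l : ZMod p) = l' → l = l' := fun l hl l' hl' e =>
    cast_inj (by omega) (by omega) e
  refine ⟨n, fun i l => ofAdd (c i * (l - n)), by simp [hp], ?_, ?_, ?_, ?_, ?_, ?_⟩
  · intro i hi l hl l' hl' e
    exact ci l hl l' hl' (sub_left_injective (mul_left_cancel₀ (c1 i hi) (ofAdd.injective e)))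
  · intro i hi l hl l' hl' e
    have e := congrArg toAdd e
    simp only [toAdd_mul, toAdd_inv, toAdd_ofAdd] at e
    exact ci l hl l' hl' (mul_left_cancel₀ (sub_ne_zero.2 (c2 i hi)) (by linear_combination e))
  · intro i hi j hj hS l hl l' hl' e
    have e := ofAdd.injective e
    simp only [toAdd_ofAdd] at e
    have k : (l : ZMod p) = l' ∨ (l : ZMod p) + l' = 2 * n := by
      rcases hε with rfl | rfl <;> rcases c3 i hi j hj hS with k | k <;> rw [k] at e
      · exact Or.inl (mul_left_cancel₀ (c1 j hj) (by linear_combination -e))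
      · exact Or.inr (mul_left_cancel₀ (c1 j hj) (by linear_combination e))
      · exact Or.inr (mul_left_cancel₀ (c1 j hj) (by linear_combination -e))
      · exact Or.inl (mul_left_cancel₀ (c1 j hj) (by linear_combination e))
    rcases k with k | k
    · rw [ci l hl l' hl' k]
    · have := ci l hl (2 * n - l') (by omega) (by
        rw [Nat.cast_sub hl']; push_cast; linear_combination k)
      omega
  · intro l hl l' hl' e
    have e := congrArg toAdd e
    simp only [toAdd_mul, toAdd_inv, toAdd_ofAdd, c0, ← mul_assoc, cL] at e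
    push_cast at e
    exact ci l hl.le l' hl'.le (mul_left_cancel₀ h2 (by linear_combination e))
  · intro l hl e
    have e := ofAdd.injective e
    simp only [toAdd_ofAdd, c0, ← mul_assoc, cL] at e
    push_cast at e
    have := ci l hl.le (2 * n) le_rfl (mul_left_cancel₀ h2 (by
      push_cast; linear_combination -e - hn))
    omega
  · simp only [toAdd_ofAdd, c0, ← mul_assoc, cL]
    congr 1
    push_cast; ring

theorem two_ne {p : ℕ} [Fact p.Prime] {k : ℕ} (h0 : 0 < k) (h : k < p) : ((k : ℕ) : ZMod p) ≠ 0 :=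
  fun e => absurd (Nat.le_of_dvd h0 ((ZMod.natCast_eq_zero_iff k p).1 e)) (by omega)

theorem blk_plus {p : ℕ} [Fact p.Prime] (h2 : p ≠ 2) :
    Blk fun x : Multiplicative (ZMod p) => x := by
  obtain ⟨n, hn⟩ := (Fact.out : p.Prime).odd_of_ne_two h2
  have h3 := (Fact.out : p.Prime).two_le
  have t2 : (2 : ZMod p) ≠ 0 := by exact_mod_cast two_ne (p := p) (k := 2) (by omega) (by omega)
  intro L hL
  have := asg_lin hn (ε := 1) (Or.inl rfl) (L := L) (S := fun _ => False) (fun i => (-1) ^ i)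
    (fun i _ => by simp) (fun i _ e => ?_) (fun i _ j _ _ => ?_) (by simp) (by simp [hL.neg_one_pow])
  · simpa using this
  · rw [pow_succ] at e
    rcases neg_one_pow_eq_or (ZMod p) i with k | k <;> rw [k] at e
    · exact t2 (by linear_combination -e)
    · exact t2 (by linear_combination e)
  · rcases neg_one_pow_eq_or (ZMod p) i with k | k <;>
      rcases neg_one_pow_eq_or (ZMod p) j with k' | k' <;> simp [k, k']

theorem blk_minus {p : ℕ} [Fact p.Prime] (h5 : 5 ≤ p) :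
    Blk' fun x : Multiplicative (ZMod p) => x⁻¹ := by
  obtain ⟨n, hn⟩ := (Fact.out : p.Prime).odd_of_ne_two (by omega)
  have t2 : (2 : ZMod p) ≠ 0 := by exact_mod_cast two_ne (p := p) (k := 2) (by omega) (by omega)
  have t3 : (3 : ZMod p) ≠ 0 := by exact_mod_cast two_ne (p := p) (k := 3) (by omega) (by omega)
  have t4 : (4 : ZMod p) ≠ 0 := by exact_mod_cast two_ne (p := p) (k := 4) (by omega) (by omega)
  intro L j hL h1 hj
  let d : ℕ → ZMod p := fun i => if i = 1 ∨ i = j then 2 else if i = 0 then 1 else -1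
  have d0 : ∀ i, d i ≠ 0 := fun i => by
    simp only [d]; split_ifs <;> simp [t2]
  have d1 : ∀ i, d (i + 1) + d i ≠ 0 := fun i e => by
    simp only [d] at e
    split_ifs at e
    · exact t4 (by linear_combination e)
    · exact t3 (by linear_combination e)
    · exact one_ne_zero (by linear_combination e)
    · omega
    · omega
    · omega
    · exact one_ne_zero (by linear_combination e)
    · omega
    · exact t2 (by linear_combination -e)
  have d2 : ∀ a b, (a = 1 ∨ a = j ↔ b = 1 ∨ b = j) → d a = d b ∨ d a = -d b := fun a b h => by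
    simp only [d, h]
    split_ifs <;> simp
  have := asg_lin hn (ε := -1) (Or.inr rfl) (L := L) (S := fun i => i = 1 ∨ i = j)
    (fun i => (-1) ^ i * d i) (fun i _ => by simp [d0]) (fun i _ e => d1 i ?_)
    (fun a _ b _ h => ?_) (by simp only [d]; rw [if_neg (by omega)]; simp)
    (by simp only [d]; rw [if_neg (by omega), if_neg (by omega), hL.neg_one_pow]; simp)
  · simpa using this
  · rw [pow_succ] at e
    rcases neg_one_pow_eq_or (ZMod p) i with k | k <;> rw [k] at e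
    · linear_combination -e
    · linear_combination e
  · rcases neg_one_pow_eq_or (ZMod p) a with k | k <;>
      rcases neg_one_pow_eq_or (ZMod p) b with k' | k' <;> rcases d2 a b h with e | e <;>
      simp [k, k', e]

theorem surj_of_ne {K : Type*} [Group K] {p : ℕ} [Fact p.Prime] (f : K →* Multiplicative (ZMod p))
    {u : K} (h : f u ≠ 1) : Function.Surjective f := by
  have : Fact (Nat.card (Multiplicative (ZMod p))).Prime :=
    ⟨by rw [Nat.card_congr toAdd, Nat.card_zmod]; exact Fact.out⟩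
  refine MonoidHom.range_eq_top.1 (f.range.eq_bot_or_eq_top_of_prime_card.resolve_left fun e => ?_)
  exact h (Subgroup.mem_bot.1 (e ▸ ⟨u, rfl⟩))

theorem solv_p {K : Type*} [Group K] [Finite K] {p : ℕ} [Fact p.Prime] (h : IsPGroup p K) :
    Group.IsSolvable K :=
  have := h.isNilpotent
  inferInstance

theorem zmod_p {K : Type*} [Group K] [Finite K] [Nontrivial K] {p : ℕ} [Fact p.Prime]
    (h : IsPGroup p K) : ∃ f : K →* Multiplicative (ZMod p), Function.Surjective f := by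
  have := solv_p h
  obtain ⟨q, hq, f, hf⟩ := exists_zmod K
  obtain ⟨k, hk⟩ := h.exists_card_eq
  have h1 := Subgroup.card_dvd_of_surjective f hf
  rw [Nat.card_congr toAdd, Nat.card_zmod, hk] at h1
  obtain rfl := (Nat.prime_dvd_prime_iff_eq hq Fact.out).1 (hq.dvd_of_dvd_pow h1)
  exact ⟨f, hf⟩

theorem plus_minus {K : Type*} [Group K] {p : ℕ} [Fact p.Prime]
    (φ : K →* K) (hφ : ∀ u, φ (φ u) = u) (f : K →* Multiplicative (ZMod p))
    (hf : Function.Surjective f) : ∃ ρ : K →* Multiplicative (ZMod p),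
      Function.Surjective ρ ∧ ((∀ u, ρ (φ u) = ρ u) ∨ ∀ u, ρ (φ u) = (ρ u)⁻¹) := by
  by_cases k : ∀ u, f (φ u) = (f u)⁻¹
  · exact ⟨f, hf, Or.inr k⟩
  · obtain ⟨u, hu⟩ := not_forall.1 k
    exact ⟨f * f.comp φ, surj_of_ne _ (u := u) fun e => hu (eq_inv_of_mul_eq_one_right e),
      Or.inl fun u => by simp [hφ, mul_comm]⟩

theorem nine_p (n : ℕ) : ∀ (K : Type u) [Group K] [Finite K], Nat.card K ≤ n → IsPGroup 3 K →
    9 ∣ Nat.card K → (∃ φ : K →* Multiplicative (ZMod 9), Function.Surjective φ) ∨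
      ∃ φ : K →* Multiplicative (ZMod 3 × ZMod 3), Function.Surjective φ := by
  induction n with
  | zero => intro K _ _ h; exact absurd (Nat.card_pos (α := K)) (by omega)
  | succ n ih =>
    intro K _ _ h hp h9
    by_cases e : Nat.card K = 9
    · have := IsPGroup.isMulCommutative_of_card_eq_prime_sq (p := 3) (G := K) e
      let _ : CommGroup K := { (inferInstance : Group K) with mul_comm := this.is_comm.comm }
      exact nine K h9
    have h0 := Nat.le_of_dvd Nat.card_pos h9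
    have : Nontrivial K := Finite.one_lt_card_iff_nontrivial.1 (by omega)
    have := hp.center_nontrivial
    obtain ⟨k, k0, hk⟩ := (hp.to_subgroup (Subgroup.center K)).nontrivial_iff_card.1 this
    obtain ⟨x, hx⟩ := exists_prime_orderOf_dvd_card' (G := Subgroup.center K) 3
      (hk ▸ dvd_pow_self 3 k0.ne')
    have hN : (Subgroup.zpowers (x : K)).Normal := ⟨fun a ha g => by
      have := Subgroup.mem_center_iff.1 ((Subgroup.zpowers_le_of_mem x.2) ha) g
      rwa [this, mul_inv_cancel_right]⟩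
    have hc := Subgroup.card_eq_card_quotient_mul_card_subgroup (Subgroup.zpowers (x : K))
    rw [Nat.card_zpowers, Subgroup.orderOf_coe, hx] at hc
    obtain ⟨m, hm⟩ := hp.exists_card_eq
    have h27 : 27 ∣ Nat.card K := by
      rw [hm] at h0 e ⊢
      refine pow_dvd_pow 3 (show 3 ≤ m from ?_)
      by_contra k
      have : m ≤ 2 := by omega
      interval_cases m <;> omega
    rcases ih (K ⧸ Subgroup.zpowers (x : K)) (by omega) (hp.to_quotient _) (by omega) with
      ⟨f, hf⟩ | ⟨f, hf⟩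
    · exact Or.inl ⟨f.comp (QuotientGroup.mk' _), hf.comp (QuotientGroup.mk'_surjective _)⟩
    · exact Or.inr ⟨f.comp (QuotientGroup.mk' _), hf.comp (QuotientGroup.mk'_surjective _)⟩

theorem t27 (A : Type*) [CommGroup A] [Finite A] (h : Nat.card A = 27) :
    (∃ φ : A →* Multiplicative (ZMod 27), Function.Surjective φ) ∨
      (∃ φ : A →* Multiplicative (ZMod 9 × ZMod 3), Function.Surjective φ) ∨
      ∃ φ : A →* Multiplicative (ZMod 3 × ZMod 3 × ZMod 3), Function.Surjective φ := by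
  classical
  obtain ⟨ι, _, n, hn, ⟨e⟩⟩ := CommGroup.equiv_prod_multiplicative_zmod_of_finite A
  rw [Nat.card_congr e.toEquiv, Nat.card_pi] at h
  simp only [Nat.card_congr toAdd, Nat.card_zmod] at h
  let c : ∀ (i : ι) (m : ℕ), m ∣ n i → A → ZMod m := fun i m hi a =>
    ZMod.castHom hi (ZMod m) (e a i).toAdd
  have cm : ∀ i m hi a b, c i m hi (a * b) = c i m hi a + c i m hi b := fun i m hi a b => by
    simp only [c, map_mul, Pi.mul_apply, toAdd_mul, map_add]
  have cs : ∀ i m hi (x : ZMod m), ∃ a, c i m hi a = x ∧ ∀ j m' hj, j ≠ i → c j m' hj a = 0 := by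
    intro i m hi x
    obtain ⟨y, hy⟩ := ZMod.castHom_surjective hi x
    exact ⟨e.symm (Pi.mulSingle i (ofAdd y)), by simpa [c] using hy,
      fun j m' hj k => by simp [c, Pi.mulSingle_eq_of_ne k]⟩
  have hd : ∀ i, n i = 3 ∨ n i = 9 ∨ n i = 27 := fun i => by
    have h1 : n i ∣ 3 ^ 3 := (Finset.dvd_prod_of_mem n (Finset.mem_univ i)).trans (by rw [h]; rfl)
    obtain ⟨k, hk, e⟩ := (Nat.dvd_prime_pow Nat.prime_three).1 h1
    have := hn i
    interval_cases k <;> omega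
  have d3 : ∀ i, 3 ∣ n i := fun i => by have := hd i; omega
  have nx : ∀ s : Finset ι, ∏ i ∈ s, n i ≠ 27 → ∃ j, j ∉ s := fun s hs => by
    by_contra k
    push Not at k
    exact hs (by rw [Finset.eq_univ_of_forall k, h])
  by_cases h27 : ∃ i, n i = 27
  · obtain ⟨i, hi⟩ := h27
    refine Or.inl ⟨MonoidHom.mk' (fun a => ofAdd (c i 27 (hi ▸ dvd_rfl) a)) fun a b => by
      rw [cm, ofAdd_add], fun x => ?_⟩
    obtain ⟨a, ha, -⟩ := cs i 27 (hi ▸ dvd_rfl) x.toAdd
    exact ⟨a, congrArg ofAdd ha⟩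
  by_cases h9 : ∃ i, n i = 9
  · obtain ⟨i, hi⟩ := h9
    obtain ⟨j, hj⟩ := nx {i} (by simp [hi])
    have hj : j ≠ i := by simpa using hj
    refine Or.inr (Or.inl ⟨MonoidHom.mk' (fun a => ofAdd (c i 9 (hi ▸ dvd_rfl) a, c j 3 (d3 j) a))
      fun a b => by rw [cm, cm]; rfl, fun x => ?_⟩)
    obtain ⟨a, ha, ha'⟩ := cs i 9 (hi ▸ dvd_rfl) x.toAdd.1
    obtain ⟨b, hb, hb'⟩ := cs j 3 (d3 j) x.toAdd.2
    exact ⟨a * b, by simp [cm, ha, hb, ha' j _ _ hj, hb' i _ _ hj.symm]⟩
  have h3 : ∀ i, n i = 3 := fun i =>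
    (hd i).resolve_right fun k => k.elim (fun k => h9 ⟨i, k⟩) fun k => h27 ⟨i, k⟩
  obtain ⟨i, -⟩ := nx ∅ (by simp)
  obtain ⟨j, hj⟩ := nx {i} (by simp [h3])
  have hj : j ≠ i := by simpa using hj
  obtain ⟨k, hk⟩ := nx {i, j} (by simp [h3, Finset.card_pair hj.symm])
  obtain ⟨hki, hkj⟩ : k ≠ i ∧ k ≠ j := by simpa using hk
  refine Or.inr (Or.inr ⟨MonoidHom.mk'
    (fun a => ofAdd (c i 3 (d3 i) a, c j 3 (d3 j) a, c k 3 (d3 k) a))
    fun a b => by rw [cm, cm, cm]; rfl, fun x => ?_⟩)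
  obtain ⟨a, ha, ha'⟩ := cs i 3 (d3 i) x.toAdd.1
  obtain ⟨b, hb, hb'⟩ := cs j 3 (d3 j) x.toAdd.2.1
  obtain ⟨d, hd, hd'⟩ := cs k 3 (d3 k) x.toAdd.2.2
  exact ⟨a * b * d, by simp [cm, ha, hb, hd, ha' j _ _ hj, ha' k _ _ hki, hb' i _ _ hj.symm,
    hb' k _ _ hkj, hd' i _ _ hki.symm, hd' j _ _ hkj.symm]⟩

/-- A group of order three that is inverted. -/
def Bad {K : Type*} [Group K] (φ : K → K) : Prop := Nat.card K = 3 ∧ ∀ u, φ u = u⁻¹

theorem card_ker {K A : Type*} [Group K] [Group A] (ρ : K →* A) (h : Function.Surjective ρ) :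
    Nat.card K = Nat.card ρ.ker * Nat.card A := by
  rw [← Subgroup.card_mul_index ρ.ker, Subgroup.index_ker, MonoidHom.range_eq_top.2 h,
    Subgroup.card_top]

theorem odd_p {K : Type*} [Group K] [Finite K] {p : ℕ} [Fact p.Prime] (h2 : p ≠ 2)
    (h : IsPGroup p K) : Odd (Nat.card K) := by
  obtain ⟨k, hk⟩ := h.exists_card_eq
  exact hk ▸ ((Fact.out : p.Prime).odd_of_ne_two h2).pow

theorem eq_one_of_sq {K : Type*} [Group K] (ho : Odd (Nat.card K)) {u : K} (h : u = u⁻¹) : u = 1 :=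
  sq_inj ho (by simpa using mul_eq_one_iff_eq_inv.2 h)

/-- A three-group that is not `Bad` has a block on top with a kernel that is not `Bad`. -/
theorem top_three {K : Type u} [Group K] [Finite K] [Nontrivial K] (hp : IsPGroup 3 K)
    (φ : K →* K) (hφ : ∀ u, φ (φ u) = u) (hb : ¬ Bad φ) :
    ∃ (A : Type) (_ : Group A) (ρ : K →* A) (ψ : A → A), 1 < Nat.card A ∧ Function.Surjective ρ ∧
      (∀ u, ρ (φ u) = ψ (ρ u)) ∧ Blk ψ ∧
      ¬ (Nat.card ρ.ker = 3 ∧ ∀ u ∈ ρ.ker, φ u = u⁻¹) := by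
  have ho := odd_p (by norm_num) hp
  by_cases h1 : ∃ ρ : K →* Multiplicative (ZMod 3), Function.Surjective ρ ∧ ∀ u, ρ (φ u) = ρ u
  · obtain ⟨ρ, r1, r2⟩ := h1
    by_cases k : Nat.card ρ.ker = 3 ∧ ∀ u ∈ ρ.ker, φ u = u⁻¹
    swap
    · exact ⟨_, _, ρ, fun x => x, by simp, r1, r2, blk_plus (by norm_num), k⟩
    have c9 : Nat.card K = 9 := by rw [card_ker ρ r1, k.1]; simp
    have cm := (IsPGroup.isMulCommutative_of_card_eq_prime_sq (p := 3) (G := K) c9).is_comm.comm
    have : Nontrivial ρ.ker := Finite.one_lt_card_iff_nontrivial.1 (by omega)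
    obtain ⟨e, he⟩ := zmod_p (hp.to_subgroup ρ.ker)
    have he' := ((Nat.bijective_iff_surjective_and_card e).2 ⟨he, by rw [k.1]; simp⟩).1
    let δ : K → ρ.ker := fun u => ⟨u * (φ u)⁻¹, by simp [MonoidHom.mem_ker, r2]⟩
    have δm : ∀ a b, δ (a * b) = δ a * δ b := fun a b => Subtype.ext (by
      simp only [δ, map_mul, mul_inv_rev, Subgroup.coe_mul, mul_assoc]
      rw [cm (φ a)⁻¹, mul_assoc])
    let f : K →* Multiplicative (ZMod 3 × ZMod 3) :=
      MonoidHom.mk' (fun u => ofAdd ((ρ u).toAdd, (e (δ u)).toAdd)) fun a b => by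
        rw [δm, map_mul ρ, map_mul e]; rfl
    have fi : Function.Injective f := (injective_iff_map_eq_one f).2 fun u hu => by
      have a1 : ρ u = 1 := congrArg (fun x => ofAdd x.toAdd.1) hu
      have a2 : e (δ u) = 1 := congrArg (fun x => ofAdd x.toAdd.2) hu
      have a3 : u * (φ u)⁻¹ = 1 := congrArg Subtype.val (he' (a2.trans (map_one e).symm))
      exact eq_one_of_sq ho ((mul_inv_eq_one.1 a3).trans (k.2 u a1))
    refine ⟨_, _, f, _, by simp, (fi.bijective_of_nat_card_le (by simp [c9])).2, fun u => ?_, blkd,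
      fun k' => ?_⟩
    · have : δ (φ u) = (δ u)⁻¹ := Subtype.ext (by simp [δ, hφ])
      simp [f, r2, this]
    · rw [(MonoidHom.ker_eq_bot_iff f).2 fi] at k'
      simp at k'
  have inv : ∀ {A : Type} [CommGroup A] [Finite A] (f : K →* A) u, f (φ u) = (f u)⁻¹ := by
    intro A _ _ f u
    by_contra k
    let g : K →* A := f * f.comp φ
    have : Nontrivial g.range := ⟨⟨⟨g u, u, rfl⟩, 1, fun e =>
      k (eq_inv_of_mul_eq_one_right (congrArg Subtype.val e))⟩⟩
    obtain ⟨e, he⟩ := zmod_p (hp.of_surjective g.rangeRestrict g.rangeRestrict_surjective)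
    refine h1 ⟨e.comp g.rangeRestrict, he.comp g.rangeRestrict_surjective, fun v => ?_⟩
    exact congrArg e (Subtype.ext (by simp [g, hφ, mul_comm]))
  obtain ⟨m, hm⟩ := hp.exists_card_eq
  have h9 : 9 ∣ Nat.card K := by
    rw [hm]
    refine pow_dvd_pow 3 (show 2 ≤ m from ?_)
    by_contra k
    have h0 := Finite.one_lt_card (α := K)
    have : m ≤ 1 := by omega
    interval_cases m
    · omega
    · obtain ⟨e, he⟩ := zmod_p hp
      have he' := ((Nat.bijective_iff_surjective_and_card e).2 ⟨he, by rw [hm]; simp⟩).1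
      exact hb ⟨hm, fun u => he' (by rw [inv, map_inv])⟩
  have fin : ∀ {A : Type} [CommGroup A] [Finite A] (f : K →* A), Function.Surjective f →
      Nat.card A = 9 → Nat.card f.ker = 3 ∧ (∀ u ∈ f.ker, φ u = u⁻¹) →
      ∃ (A : Type) (_ : Group A) (ρ : K →* A) (ψ : A → A), 1 < Nat.card A ∧
      Function.Surjective ρ ∧ (∀ u, ρ (φ u) = ψ (ρ u)) ∧ Blk ψ ∧
      ¬ (Nat.card ρ.ker = 3 ∧ ∀ u ∈ ρ.ker, φ u = u⁻¹) := by
    intro A _ _ f hf hA k
    have c27 : Nat.card K = 27 := by rw [card_ker f hf, k.1, hA]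
    have fp : MonoidHom.FixedPointFree φ := fun u hu => by
      have a1 : f u = 1 := eq_one_of_sq (by rw [hA]; decide) (by rw [← inv f u, hu])
      exact eq_one_of_sq ho (hu.symm.trans (k.2 u a1))
    let _ : CommGroup K := { (inferInstance : Group K) with
      mul_comm := fun a b => fp.commute_all_of_involutive hφ a b }
    rcases t27 K c27 with ⟨g, hg⟩ | ⟨g, hg⟩ | ⟨g, hg⟩
    · have := card_ker g hg
      exact ⟨_, _, g, _, by simp, hg, inv g, blk27, fun k => by rw [c27, k.1] at this; simp at this⟩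
    · have := card_ker g hg
      exact ⟨_, _, g, _, by simp, hg, inv g, blk93, fun k => by rw [c27, k.1] at this; simp at this⟩
    · have := card_ker g hg
      exact ⟨_, _, g, _, by simp, hg, inv g, blk333, fun k => by rw [c27, k.1] at this; simp at this⟩
  have : Fact (1 < 9) := ⟨by norm_num⟩
  rcases nine_p _ K le_rfl hp h9 with ⟨f, hf⟩ | ⟨f, hf⟩
  · by_cases k : Nat.card f.ker = 3 ∧ ∀ u ∈ f.ker, φ u = u⁻¹
    · exact fin f hf (by simp) k
    · exact ⟨_, _, f, _, by simp, hf, inv f, blk9, k⟩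
  · by_cases k : Nat.card f.ker = 3 ∧ ∀ u ∈ f.ker, φ u = u⁻¹
    · exact fin f hf (by simp) k
    · exact ⟨_, _, f, _, by simp, hf, inv f, blk33, k⟩

theorem down {G : Type*} [Group G] [Finite G] {z : G} {p : ℕ} [Fact p.Prime] (h2 : p ≠ 2) (n : ℕ) :
    ∀ (K : Type u) [Group K] [Finite K], Nat.card K ≤ n → IsPGroup p K →
      ∀ (ι : K →* G) (φ : K →* K) (τ : ℕ → G) (L : ℕ), Ctx ι z φ → RP ι z τ L → ¬ Bad φ →
      (p = 3 ∨ 2 ≤ L) → SC G z := by
  induction n with
  | zero => intro K _ _ h; exact absurd (Nat.card_pos (α := K)) (by omega)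
  | succ n ih =>
    intro K _ _ h hp ι φ τ L c r hb hL
    rcases subsingleton_or_nontrivial K with hK | hK
    · exact r.sc
    have ho := odd_p h2 hp
    have key : ∀ {A : Type} [Group A] (ρ : K →* A) (ψ : A → A), 1 < Nat.card A →
        Function.Surjective ρ → (∀ u, ρ (φ u) = ψ (ρ u)) → (Blk ψ ∨ (Blk' ψ ∧ 2 ≤ L)) →
        ¬ (Nat.card ρ.ker = 3 ∧ ∀ u ∈ ρ.ker, φ u = u⁻¹) → SC G z := by
      intro A _ ρ ψ hA hρ hψ hB hk
      obtain ⟨τ', L', r', e⟩ := step' c r ho ρ hρ hψ hB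
      obtain ⟨φ', e', c'⟩ := c.ker ρ hψ
      have h1 := card_ker ρ hρ
      have h0 := Nat.card_pos (α := ρ.ker)
      have hL1 := (r.odd c ho).pos
      refine ih ρ.ker (by nlinarith) (hp.to_subgroup _) _ φ' τ' L' c' r'
        (fun k => hk ⟨k.1, fun u hu => ?_⟩) (Or.inr (by nlinarith))
      exact (e' ⟨u, hu⟩).symm.trans (congrArg Subtype.val (k.2 ⟨u, hu⟩))
    by_cases h3 : p = 3
    · subst h3
      obtain ⟨A, _, ρ, ψ, a1, a2, a3, a4, a5⟩ := top_three hp φ c.invol hb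
      exact key ρ ψ a1 a2 a3 (Or.inl a4) a5
    have hp2 := (Fact.out : p.Prime).two_le
    have h4 : p ≠ 4 := fun e => absurd (e ▸ (Fact.out : p.Prime)) (by norm_num)
    obtain ⟨f, hf⟩ := zmod_p hp
    obtain ⟨ρ, r1, r2⟩ := plus_minus φ c.invol f hf
    have nb : ¬ (Nat.card ρ.ker = 3 ∧ ∀ u ∈ ρ.ker, φ u = u⁻¹) := fun k => by
      obtain ⟨m, hm⟩ := (hp.to_subgroup ρ.ker).exists_card_eq
      exact h3 ((Nat.prime_dvd_prime_iff_eq Nat.prime_three Fact.out).1
        (Nat.prime_three.dvd_of_dvd_pow (n := m) (by rw [← hm, k.1]))).symm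
    rcases r2 with r2 | r2
    · exact key ρ _ (by simp; omega) r1 r2 (Or.inl (blk_plus h2)) nb
    · exact key ρ _ (by simp; omega) r1 r2
        (Or.inr ⟨blk_minus (by omega), hL.resolve_left h3⟩) nb

end Pool.Agent.SQC
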