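import Mathlib.GroupTheory.SpecificGroups.Dihedral
import Pool.Agent.MP_f56020_al.cy.Step

namespace Pool.Agent.SQC

open Pool.Agent.SQ DihedralGroup

/-- The label of a step in signed coordinates. -/
def Lab (n e x f y a v : ℕ) : Prop :=
  v < n ∧ ((e = f ∧ a = 0 ∧ (x + v = y ∨ x + v = y + n)) ∨
    (e ≠ f ∧ a = 1 ∧ (x + y = v ∨ x + y = v + n)))

/-- An element of the dihedral group in signed coordinates. -/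
def dv (n e x : ℕ) : DihedralGroup n := if e = 0 then r x else sr x

theorem dv_inj {n e x f y : ℕ} (b1 : e < 2 ∧ x < n) (b2 : f < 2 ∧ y < n)
    (h : dv n e x = dv n f y) : e = f ∧ x = y := by
  unfold dv at h
  split_ifs at h with h1 h2 h2
  · exact ⟨by omega, cast_inj b1.2 b2.2 (r.inj h)⟩
  · exact ⟨by omega, cast_inj b1.2 b2.2 (sr.inj h)⟩

theorem dv_lab {n e x f y a v : ℕ} (he : e < 2) (hf : f < 2) (h : Lab n e x f y a v) :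
    (a < 2 ∧ v < n) ∧ ld (dv n e x) (dv n f y) = dv n a v := by
  obtain ⟨h0, ⟨rfl, rfl, h⟩ | ⟨h1, rfl, h⟩⟩ := h
  · refine ⟨⟨by omega, h0⟩, ?_⟩
    unfold dv
    rw [cast_add_eq h]
    rw [if_pos rfl]
    split_ifs <;> simp [ld]
  · refine ⟨⟨by omega, h0⟩, ?_⟩
    unfold dv
    rw [cast_add_eq h]
    rw [if_neg one_ne_zero]
    split_ifs <;> first | omega | simp [ld, add_comm]

theorem dih_of {n m : ℕ} [NeZero n] (R T : ℕ → ℕ → ℕ → Prop) (hm : 2 * n = m + 1)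
    (ex : ∀ i ≤ m, ∃ e x, R i e x) (bd : ∀ {i e x}, R i e x → e < 2 ∧ x < n)
    (inj : ∀ {i j e x}, R i e x → R j e x → i = j)
    (tinj : ∀ {i j e x}, T i e x → T j e x → i = j)
    (ed : ∀ {i e x f y}, R i e x → R (i + 1) f y → ∃ a v, T i a v ∧ Lab n e x f y a v)
    (en : ∀ {e x f y}, R 0 e x → R m f y → e ≠ f) : ∃ c, SC (DihedralGroup n) (sr c) := by
  choose! e x hR using ex
  have hq : SeqC (fun i => dv n (e i) (x i)) m := by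
    refine ⟨by rw [nat_card, hm], fun i hi j hj h => ?_, fun i hi j hj h => ?_⟩
    · have k := dv_inj (bd (hR i hi)) (bd (hR j hj)) h
      exact inj (hR i hi) (k.1 ▸ k.2 ▸ hR j hj)
    · obtain ⟨a, v, p, q⟩ := ed (hR i hi.le) (hR (i + 1) hi)
      obtain ⟨a', v', p', q'⟩ := ed (hR j hj.le) (hR (j + 1) hj)
      obtain ⟨b1, l1⟩ := dv_lab (bd (hR i hi.le)).1 (bd (hR (i + 1) hi)).1 q
      obtain ⟨b2, l2⟩ := dv_lab (bd (hR j hj.le)).1 (bd (hR (j + 1) hj)).1 q'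
      obtain ⟨rfl, rfl⟩ := dv_inj b1 b2 (l1.symm.trans (h.trans l2))
      exact tinj p p'
  have b1 := bd (hR 0 (Nat.zero_le _))
  have b2 := bd (hR m le_rfl)
  have b3 := en (hR 0 (Nat.zero_le _)) (hR m le_rfl)
  by_cases k : e 0 = 0
  · refine ⟨x m - x 0, sc_of_seq hq ?_⟩
    simp only [dv]
    rw [if_neg (by omega), if_pos k, sr_mul_r, sub_add_cancel]
  · refine ⟨x 0 - x m, sc_of_seq hq ?_⟩
    simp only [dv]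
    rw [if_pos (by omega), if_neg k, sr_mul_sr, sub_sub_cancel]

set_option linter.unusedVariables false

/-- The places of the vertices, family A. -/
def RA (k t i e x : ℕ) : Prop :=
  (i = 2 * t + 0 ∧ e = 0 ∧ 0 ≤ t ∧ t ≤ k ∧ x = t) ∨
  (i = 2 * t + 1 ∧ e = 0 ∧ 0 ≤ t ∧ t + 1 ≤ k ∧ x + t = 2 * k) ∨
  (i = 2 * t + 0 ∧ e = 0 ∧ k + 1 ≤ t ∧ t ≤ 2 * k ∧ x = t + 2 * k) ∨
  (i = 2 * t + 1 ∧ e = 1 ∧ k ≤ t ∧ t + 1 ≤ 2 * k ∧ x = t + 2 * k + 1) ∨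
  (i = 2 * t + 0 ∧ e = 0 ∧ 2 * k + 1 ≤ t ∧ t ≤ 3 * k ∧ x = t) ∨
  (i = 2 * t + 1 ∧ e = 1 ∧ 2 * k ≤ t ∧ t + 1 ≤ 3 * k ∧ x = t + 1) ∨
  (i = 2 * t + 0 ∧ e = 1 ∧ 3 * k + 1 ≤ t ∧ t ≤ 4 * k ∧ x + 2 * k = t) ∨
  (i = 2 * t + 1 ∧ e = 1 ∧ 3 * k ≤ t ∧ t ≤ 4 * k ∧ x + t = 4 * k)

/-- The places of the labels, family A. -/
def TA (k t i e x : ℕ) : Prop :=
  (i = 2 * t + 0 ∧ e = 0 ∧ 0 ≤ t ∧ t + 1 ≤ k ∧ x + 2 * t = 2 * k) ∨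
  (i = 2 * t + 0 ∧ e = 1 ∧ k ≤ t ∧ t ≤ k ∧ x = 0) ∨
  (i = 2 * t + 1 ∧ e = 0 ∧ 0 ≤ t ∧ t + 1 ≤ k ∧ x = 2 * t + 2 * k + 2) ∨
  (i = 2 * t + 0 ∧ e = 1 ∧ k + 1 ≤ t ∧ t + 1 ≤ 2 * k ∧ x = 2 * t) ∨
  (i = 2 * t + 0 ∧ e = 1 ∧ 2 * k ≤ t ∧ t ≤ 2 * k ∧ x = 2 * k) ∨
  (i = 2 * t + 1 ∧ e = 1 ∧ k ≤ t ∧ t + 1 ≤ 2 * k ∧ x = 2 * t + 1) ∨
  (i = 2 * t + 0 ∧ e = 1 ∧ 2 * k + 1 ≤ t ∧ t + 1 ≤ 3 * k ∧ x + 4 * k = 2 * t) ∨
  (i = 2 * t + 0 ∧ e = 1 ∧ 3 * k ≤ t ∧ t ≤ 3 * k ∧ x = 4 * k) ∨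
  (i = 2 * t + 1 ∧ e = 1 ∧ 2 * k ≤ t ∧ t + 1 ≤ 3 * k ∧ x + 4 * k = 2 * t + 1) ∨
  (i = 2 * t + 0 ∧ e = 0 ∧ 3 * k + 1 ≤ t ∧ t ≤ 4 * k ∧ x + 2 * t = 10 * k + 1) ∨
  (i = 2 * t + 1 ∧ e = 0 ∧ 3 * k ≤ t ∧ t + 1 ≤ 4 * k ∧ x + 6 * k = 2 * t + 1)

theorem exA {k : ℕ} (hk : 1 ≤ k) (i : ℕ) (hi : i ≤ 8 * k + 1) : ∃ e x t, RA k t i e x := by
  obtain ⟨t, ht⟩ : ∃ t, t = i / 2 := ⟨_, rfl⟩
  have : (i = 2 * t + 0 ∧ 0 ≤ t ∧ t ≤ k) ∨ (i = 2 * t + 1 ∧ 0 ≤ t ∧ t + 1 ≤ k) ∨ (i = 2 * t + 0 ∧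
        k + 1 ≤ t ∧ t ≤ 2 * k) ∨ (i = 2 * t + 1 ∧ k ≤ t ∧ t + 1 ≤ 2 * k) ∨ (i = 2 * t + 0 ∧ 2 * k
        + 1 ≤ t ∧ t ≤ 3 * k) ∨ (i = 2 * t + 1 ∧ 2 * k ≤ t ∧ t + 1 ≤ 3 * k) ∨ (i = 2 * t + 0 ∧ 3 *
        k + 1 ≤ t ∧ t ≤ 4 * k) ∨ (i = 2 * t + 1 ∧ 3 * k ≤ t ∧ t ≤ 4 * k) := by omega
  rcases this with h | h | h | h | h | h | h | h
  · exact ⟨0, t, t, by unfold RA; left; omega⟩
  · exact ⟨0, 2 * k - (t), t, by unfold RA; (iterate 1 right); left; omega⟩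
  · exact ⟨0, t + 2 * k, t, by unfold RA; (iterate 2 right); left; omega⟩
  · exact ⟨1, t + 2 * k + 1, t, by unfold RA; (iterate 3 right); left; omega⟩
  · exact ⟨0, t, t, by unfold RA; (iterate 4 right); left; omega⟩
  · exact ⟨1, t + 1, t, by unfold RA; (iterate 5 right); left; omega⟩
  · exact ⟨1, t - (2 * k), t, by unfold RA; (iterate 6 right); left; omega⟩
  · exact ⟨1, 4 * k - (t), t, by unfold RA; (iterate 7 right); omega⟩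

theorem bdA {k t i e x : ℕ} (hk : 1 ≤ k) (h : RA k t i e x) : e < 2 ∧ x < 4 * k + 1 := by
  rcases h with h | h | h | h | h | h | h | h <;> omega

theorem injA {k t s i j e x : ℕ} (hk : 1 ≤ k) (h : RA k t i e x) (h' : RA k s j e x) : i = j := by
  rcases h with ⟨rfl, rfl, h⟩ | ⟨rfl, rfl, h⟩ | ⟨rfl, rfl, h⟩ | ⟨rfl, rfl, h⟩ | ⟨rfl, rfl, h⟩ |
        ⟨rfl, rfl, h⟩ | ⟨rfl, rfl, h⟩ | ⟨rfl, rfl, h⟩ <;>
  rcases h' with h' | h' | h' | h' | h' | h' | h' | h' <;> omega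

theorem tinjA {k t s i j e x : ℕ} (hk : 1 ≤ k) (h : TA k t i e x) (h' : TA k s j e x) : i = j := by
  rcases h with ⟨rfl, rfl, h⟩ | ⟨rfl, rfl, h⟩ | ⟨rfl, rfl, h⟩ | ⟨rfl, rfl, h⟩ | ⟨rfl, rfl, h⟩ |
        ⟨rfl, rfl, h⟩ | ⟨rfl, rfl, h⟩ | ⟨rfl, rfl, h⟩ | ⟨rfl, rfl, h⟩ | ⟨rfl, rfl, h⟩ | ⟨rfl, rfl,
        h⟩ <;>
  rcases h' with h' | h' | h' | h' | h' | h' | h' | h' | h' | h' | h' <;> omega

theorem edA {k t s i e x f y : ℕ} (hk : 1 ≤ k) (h : RA k t i e x) (h' : RA k s (i + 1) f y) :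
    ∃ a v, TA k t i a v ∧ Lab (4 * k + 1) e x f y a v := by
  unfold Lab
  rcases h with ⟨rfl, rfl, h⟩ | ⟨rfl, rfl, h⟩ | ⟨rfl, rfl, h⟩ | ⟨rfl, rfl, h⟩ | ⟨rfl, rfl, h⟩ |
        ⟨rfl, rfl, h⟩ | ⟨rfl, rfl, h⟩ | ⟨rfl, rfl, h⟩
  · rcases h' with h' | h' | h' | h' | h' | h' | h' | h' <;>
    first
    | omega
    | exact ⟨0, 2 * k - (2 * (t)), by unfold TA; left; omega, by omega⟩
    | exact ⟨1, 0, by unfold TA; (iterate 1 right); left; omega, by omega⟩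
  · rcases h' with h' | h' | h' | h' | h' | h' | h' | h' <;>
    first
    | omega
    | exact ⟨0, 2 * (t) + 2 * k + 2, by unfold TA; (iterate 2 right); left; omega, by omega⟩
  · rcases h' with h' | h' | h' | h' | h' | h' | h' | h' <;>
    first
    | omega
    | exact ⟨1, 2 * (t), by unfold TA; (iterate 3 right); left; omega, by omega⟩
    | exact ⟨1, 2 * k, by unfold TA; (iterate 4 right); left; omega, by omega⟩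
  · rcases h' with h' | h' | h' | h' | h' | h' | h' | h' <;>
    first
    | omega
    | exact ⟨1, 2 * (t) + 1, by unfold TA; (iterate 5 right); left; omega, by omega⟩
  · rcases h' with h' | h' | h' | h' | h' | h' | h' | h' <;>
    first
    | omega
    | exact ⟨1, 2 * (t) - (4 * k), by unfold TA; (iterate 6 right); left; omega, by omega⟩
    | exact ⟨1, 4 * k, by unfold TA; (iterate 7 right); left; omega, by omega⟩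
  · rcases h' with h' | h' | h' | h' | h' | h' | h' | h' <;>
    first
    | omega
    | exact ⟨1, 2 * (t) + 1 - (4 * k), by unfold TA; (iterate 8 right); left; omega, by omega⟩
  · rcases h' with h' | h' | h' | h' | h' | h' | h' | h' <;>
    first
    | omega
    | exact ⟨0, 10 * k + 1 - (2 * (t)), by unfold TA; (iterate 9 right); left; omega, by omega⟩
  · rcases h' with h' | h' | h' | h' | h' | h' | h' | h' <;>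
    first
    | omega
    | exact ⟨0, 2 * (t) + 1 - (6 * k), by unfold TA; (iterate 10 right); omega, by omega⟩

theorem endA {k t s e x f y : ℕ} (hk : 1 ≤ k) (h : RA k t 0 e x)
    (h' : RA k s (8 * k + 1) f y) : e ≠ f := by
  have a : e = 0 := by
    rcases h with h | h | h | h | h | h | h | h <;> omega
  have b : f = 1 := by
    rcases h' with h | h | h | h | h | h | h | h <;> omega
  omega

theorem dihA {k : ℕ} (hk : 1 ≤ k) : ∃ c, SC (DihedralGroup (4 * k + 1)) (sr c) :=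
  dih_of (m := 8 * k + 1) (fun i e x => ∃ t, RA k t i e x) (fun i e x => ∃ t, TA k t i e x) (by
        omega)
    (exA hk) (fun ⟨_, h⟩ => bdA hk h) (fun ⟨_, h⟩ ⟨_, h'⟩ => injA hk h h')
    (fun ⟨_, h⟩ ⟨_, h'⟩ => tinjA hk h h')
    (fun ⟨t, h⟩ ⟨_, h'⟩ => let ⟨a, v, p, q⟩ := edA hk h h'; ⟨a, v, ⟨t, p⟩, q⟩)
    (fun ⟨_, h⟩ ⟨_, h'⟩ => endA hk h h')

/-- The places of the vertices, family B. -/
def RB (k t i e x : ℕ) : Prop :=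
  (i = 2 * t + 0 ∧ e = 0 ∧ 0 ≤ t ∧ t + 1 ≤ k ∧ x + t = 7 * k + 6) ∨
  (i = 2 * t + 1 ∧ e = 1 ∧ 0 ≤ t ∧ t + 1 ≤ k ∧ x + t = 7 * k + 6) ∨
  (i = 2 * t + 0 ∧ e = 0 ∧ k ≤ t ∧ t ≤ k ∧ x = 6 * k + 6) ∨
  (i = 2 * t + 0 ∧ e = 1 ∧ k + 1 ≤ t ∧ t ≤ 3 * k + 2 ∧ x + k + 1 = t) ∨
  (i = 2 * t + 1 ∧ e = 1 ∧ k ≤ t ∧ t ≤ 3 * k + 1 ∧ x + t = 5 * k + 3) ∨
  (i = 2 * t + 1 ∧ e = 0 ∧ 3 * k + 2 ≤ t ∧ t ≤ 3 * k + 2 ∧ x = 6 * k + 5) ∨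
  (i = 2 * t + 0 ∧ e = 1 ∧ 3 * k + 3 ≤ t ∧ t ≤ 3 * k + 3 ∧ x = 6 * k + 6) ∨
  (i = 2 * t + 0 ∧ e = 0 ∧ 3 * k + 4 ≤ t ∧ t ≤ 5 * k + 5 ∧ x + t = 7 * k + 7) ∨
  (i = 2 * t + 1 ∧ e = 0 ∧ 3 * k + 3 ≤ t ∧ t ≤ 5 * k + 4 ∧ x + 3 * k + 3 = t) ∨
  (i = 2 * t + 1 ∧ e = 1 ∧ 5 * k + 5 ≤ t ∧ t ≤ 5 * k + 5 ∧ x = 6 * k + 5) ∨
  (i = 2 * t + 0 ∧ e = 0 ∧ 5 * k + 6 ≤ t ∧ t ≤ 6 * k + 5 ∧ x + t = 11 * k + 10) ∨
  (i = 2 * t + 1 ∧ e = 1 ∧ 5 * k + 6 ≤ t ∧ t ≤ 6 * k + 5 ∧ x + t = 11 * k + 10) ∨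
  (i = 2 * t + 0 ∧ e = 0 ∧ 6 * k + 6 ≤ t ∧ t ≤ 7 * k + 5 ∧ x = t + k + 1) ∨
  (i = 2 * t + 1 ∧ e = 1 ∧ 6 * k + 6 ≤ t ∧ t ≤ 7 * k + 5 ∧ x = t + k + 1) ∨
  (i = 2 * t + 0 ∧ e = 0 ∧ 7 * k + 6 ≤ t ∧ t ≤ 8 * k + 6 ∧ x + 3 * k + 2 = t) ∨
  (i = 2 * t + 1 ∧ e = 1 ∧ 7 * k + 6 ≤ t ∧ t ≤ 8 * k + 6 ∧ x + 3 * k + 2 = t)

/-- The places of the labels, family B. -/
def TB (k t i e x : ℕ) : Prop :=
  (i = 2 * t + 0 ∧ e = 1 ∧ 0 ≤ t ∧ t + 1 ≤ k ∧ x + 2 * t = 6 * k + 5) ∨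
  (i = 2 * t + 1 ∧ e = 1 ∧ 0 ≤ t ∧ t + 2 ≤ k ∧ x + 2 * t = 6 * k + 4) ∨
  (i = 2 * t + 1 ∧ e = 1 ∧ k ≤ t + 1 ∧ t + 1 ≤ k ∧ x = 4 * k + 6) ∨
  (i = 2 * t + 0 ∧ e = 1 ∧ k ≤ t ∧ t ≤ k ∧ x = 2 * k + 2) ∨
  (i = 2 * t + 0 ∧ e = 0 ∧ k + 1 ≤ t ∧ t ≤ 3 * k + 1 ∧ x + 2 * t = 6 * k + 4) ∨
  (i = 2 * t + 0 ∧ e = 1 ∧ 3 * k + 2 ≤ t ∧ t ≤ 3 * k + 2 ∧ x = 8 * k + 6) ∨
  (i = 2 * t + 1 ∧ e = 0 ∧ k ≤ t ∧ t ≤ 3 * k + 1 ∧ x = 2 * t + 2 * k + 4) ∨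
  (i = 2 * t + 1 ∧ e = 1 ∧ 3 * k + 2 ≤ t ∧ t ≤ 3 * k + 2 ∧ x = 4 * k + 4) ∨
  (i = 2 * t + 0 ∧ e = 1 ∧ 3 * k + 3 ≤ t ∧ t ≤ 3 * k + 3 ∧ x = 6 * k + 6) ∨
  (i = 2 * t + 0 ∧ e = 0 ∧ 3 * k + 4 ≤ t ∧ t ≤ 5 * k + 4 ∧ x + 2 * k + 3 = 2 * t) ∨
  (i = 2 * t + 0 ∧ e = 1 ∧ 5 * k + 5 ≤ t ∧ t ≤ 5 * k + 5 ∧ x = 0) ∨
  (i = 2 * t + 1 ∧ e = 0 ∧ 3 * k + 3 ≤ t ∧ t ≤ 5 * k + 4 ∧ x + 2 * t = 10 * k + 9) ∨
  (i = 2 * t + 1 ∧ e = 1 ∧ 5 * k + 5 ≤ t ∧ t ≤ 5 * k + 5 ∧ x = 4 * k + 2) ∨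
  (i = 2 * t + 0 ∧ e = 1 ∧ 5 * k + 6 ≤ t ∧ t ≤ 6 * k + 5 ∧ x + 2 * t = 14 * k + 13) ∨
  (i = 2 * t + 1 ∧ e = 1 ∧ 5 * k + 6 ≤ t ∧ t ≤ 6 * k + 4 ∧ x + 2 * t = 14 * k + 12) ∨
  (i = 2 * t + 1 ∧ e = 1 ∧ 6 * k + 5 ≤ t ∧ t ≤ 6 * k + 5 ∧ x = 4 * k + 5) ∨
  (i = 2 * t + 0 ∧ e = 1 ∧ 6 * k + 6 ≤ t ∧ t ≤ 7 * k + 5 ∧ x + 6 * k + 5 = 2 * t) ∨
  (i = 2 * t + 1 ∧ e = 1 ∧ 6 * k + 6 ≤ t ∧ t ≤ 7 * k + 4 ∧ x + 6 * k + 4 = 2 * t) ∨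
  (i = 2 * t + 1 ∧ e = 1 ∧ 7 * k + 5 ≤ t ∧ t ≤ 7 * k + 5 ∧ x = 4 * k + 3) ∨
  (i = 2 * t + 0 ∧ e = 1 ∧ 7 * k + 6 ≤ t ∧ t ≤ 8 * k + 6 ∧ x + 14 * k + 11 = 2 * t) ∨
  (i = 2 * t + 1 ∧ e = 1 ∧ 7 * k + 6 ≤ t ∧ t ≤ 8 * k + 5 ∧ x + 14 * k + 10 = 2 * t)

theorem exB {k : ℕ} (hk : 1 ≤ k) (i : ℕ) (hi : i ≤ 16 * k + 13) : ∃ e x t, RB k t i e x := by
  obtain ⟨t, ht⟩ : ∃ t, t = i / 2 := ⟨_, rfl⟩
  have : (i = 2 * t + 0 ∧ 0 ≤ t ∧ t + 1 ≤ k) ∨ (i = 2 * t + 1 ∧ 0 ≤ t ∧ t + 1 ≤ k) ∨ (i = 2 * t +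
        0 ∧ k ≤ t ∧ t ≤ k) ∨ (i = 2 * t + 0 ∧ k + 1 ≤ t ∧ t ≤ 3 * k + 2) ∨ (i = 2 * t + 1 ∧ k ≤ t
        ∧ t ≤ 3 * k + 1) ∨ (i = 2 * t + 1 ∧ 3 * k + 2 ≤ t ∧ t ≤ 3 * k + 2) ∨ (i = 2 * t + 0 ∧ 3 *
        k + 3 ≤ t ∧ t ≤ 3 * k + 3) ∨ (i = 2 * t + 0 ∧ 3 * k + 4 ≤ t ∧ t ≤ 5 * k + 5) ∨ (i = 2 * t
        + 1 ∧ 3 * k + 3 ≤ t ∧ t ≤ 5 * k + 4) ∨ (i = 2 * t + 1 ∧ 5 * k + 5 ≤ t ∧ t ≤ 5 * k + 5) ∨
        (i = 2 * t + 0 ∧ 5 * k + 6 ≤ t ∧ t ≤ 6 * k + 5) ∨ (i = 2 * t + 1 ∧ 5 * k + 6 ≤ t ∧ t ≤ 6 *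
        k + 5) ∨ (i = 2 * t + 0 ∧ 6 * k + 6 ≤ t ∧ t ≤ 7 * k + 5) ∨ (i = 2 * t + 1 ∧ 6 * k + 6 ≤ t
        ∧ t ≤ 7 * k + 5) ∨ (i = 2 * t + 0 ∧ 7 * k + 6 ≤ t ∧ t ≤ 8 * k + 6) ∨ (i = 2 * t + 1 ∧ 7 *
        k + 6 ≤ t ∧ t ≤ 8 * k + 6) := by omega
  rcases this with h | h | h | h | h | h | h | h | h | h | h | h | h | h | h | h
  · exact ⟨0, 7 * k + 6 - (t), t, by unfold RB; left; omega⟩
  · exact ⟨1, 7 * k + 6 - (t), t, by unfold RB; (iterate 1 right); left; omega⟩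
  · exact ⟨0, 6 * k + 6, t, by unfold RB; (iterate 2 right); left; omega⟩
  · exact ⟨1, t - (1 * k + 1), t, by unfold RB; (iterate 3 right); left; omega⟩
  · exact ⟨1, 5 * k + 3 - (t), t, by unfold RB; (iterate 4 right); left; omega⟩
  · exact ⟨0, 6 * k + 5, t, by unfold RB; (iterate 5 right); left; omega⟩
  · exact ⟨1, 6 * k + 6, t, by unfold RB; (iterate 6 right); left; omega⟩
  · exact ⟨0, 7 * k + 7 - (t), t, by unfold RB; (iterate 7 right); left; omega⟩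
  · exact ⟨0, t - (3 * k + 3), t, by unfold RB; (iterate 8 right); left; omega⟩
  · exact ⟨1, 6 * k + 5, t, by unfold RB; (iterate 9 right); left; omega⟩
  · exact ⟨0, 11 * k + 10 - (t), t, by unfold RB; (iterate 10 right); left; omega⟩
  · exact ⟨1, 11 * k + 10 - (t), t, by unfold RB; (iterate 11 right); left; omega⟩
  · exact ⟨0, t + 1 * k + 1, t, by unfold RB; (iterate 12 right); left; omega⟩
  · exact ⟨1, t + 1 * k + 1, t, by unfold RB; (iterate 13 right); left; omega⟩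
  · exact ⟨0, t - (3 * k + 2), t, by unfold RB; (iterate 14 right); left; omega⟩
  · exact ⟨1, t - (3 * k + 2), t, by unfold RB; (iterate 15 right); omega⟩

theorem bdB {k t i e x : ℕ} (hk : 1 ≤ k) (h : RB k t i e x) : e < 2 ∧ x < 8 * k + 7 := by
  rcases h with h | h | h | h | h | h | h | h | h | h | h | h | h | h | h | h <;> omega

theorem injB {k t s i j e x : ℕ} (hk : 1 ≤ k) (h : RB k t i e x) (h' : RB k s j e x) : i = j := by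
  rcases h with ⟨rfl, rfl, h⟩ | ⟨rfl, rfl, h⟩ | ⟨rfl, rfl, h⟩ | ⟨rfl, rfl, h⟩ | ⟨rfl, rfl, h⟩ |
        ⟨rfl, rfl, h⟩ | ⟨rfl, rfl, h⟩ | ⟨rfl, rfl, h⟩ | ⟨rfl, rfl, h⟩ | ⟨rfl, rfl, h⟩ | ⟨rfl, rfl,
        h⟩ | ⟨rfl, rfl, h⟩ | ⟨rfl, rfl, h⟩ | ⟨rfl, rfl, h⟩ | ⟨rfl, rfl, h⟩ | ⟨rfl, rfl, h⟩ <;>
  rcases h' with h' | h' | h' | h' | h' | h' | h' | h' | h' | h' | h' | h' | h' | h' | h' | h' <;>
        omega

theorem tinjB {k t s i j e x : ℕ} (hk : 1 ≤ k) (h : TB k t i e x) (h' : TB k s j e x) : i = j := by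
  rcases h with ⟨rfl, rfl, h⟩ | ⟨rfl, rfl, h⟩ | ⟨rfl, rfl, h⟩ | ⟨rfl, rfl, h⟩ | ⟨rfl, rfl, h⟩ |
        ⟨rfl, rfl, h⟩ | ⟨rfl, rfl, h⟩ | ⟨rfl, rfl, h⟩ | ⟨rfl, rfl, h⟩ | ⟨rfl, rfl, h⟩ | ⟨rfl, rfl,
        h⟩ | ⟨rfl, rfl, h⟩ | ⟨rfl, rfl, h⟩ | ⟨rfl, rfl, h⟩ | ⟨rfl, rfl, h⟩ | ⟨rfl, rfl, h⟩ | ⟨rfl,
        rfl, h⟩ | ⟨rfl, rfl, h⟩ | ⟨rfl, rfl, h⟩ | ⟨rfl, rfl, h⟩ | ⟨rfl, rfl, h⟩ <;>
  rcases h' with h' | h' | h' | h' | h' | h' | h' | h' | h' | h' | h' | h' | h' | h' | h' | h' |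
        h' | h' | h' | h' | h' <;> omega

theorem edB {k t s i e x f y : ℕ} (hk : 1 ≤ k) (h : RB k t i e x) (h' : RB k s (i + 1) f y) :
    ∃ a v, TB k t i a v ∧ Lab (8 * k + 7) e x f y a v := by
  unfold Lab
  rcases h with ⟨rfl, rfl, h⟩ | ⟨rfl, rfl, h⟩ | ⟨rfl, rfl, h⟩ | ⟨rfl, rfl, h⟩ | ⟨rfl, rfl, h⟩ |
        ⟨rfl, rfl, h⟩ | ⟨rfl, rfl, h⟩ | ⟨rfl, rfl, h⟩ | ⟨rfl, rfl, h⟩ | ⟨rfl, rfl, h⟩ | ⟨rfl, rfl,
        h⟩ | ⟨rfl, rfl, h⟩ | ⟨rfl, rfl, h⟩ | ⟨rfl, rfl, h⟩ | ⟨rfl, rfl, h⟩ | ⟨rfl, rfl, h⟩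
  · rcases h' with h' | h' | h' | h' | h' | h' | h' | h' | h' | h' | h' | h' | h' | h' | h' | h' <;>
    first
    | omega
    | exact ⟨1, 6 * k + 5 - (2 * (t)), by unfold TB; left; omega, by omega⟩
  · rcases h' with h' | h' | h' | h' | h' | h' | h' | h' | h' | h' | h' | h' | h' | h' | h' | h' <;>
    first
    | omega
    | exact ⟨1, 6 * k + 4 - (2 * (t)), by unfold TB; (iterate 1 right); left; omega, by omega⟩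
    | exact ⟨1, 4 * k + 6, by unfold TB; (iterate 2 right); left; omega, by omega⟩
  · rcases h' with h' | h' | h' | h' | h' | h' | h' | h' | h' | h' | h' | h' | h' | h' | h' | h' <;>
    first
    | omega
    | exact ⟨1, 2 * k + 2, by unfold TB; (iterate 3 right); left; omega, by omega⟩
  · rcases h' with h' | h' | h' | h' | h' | h' | h' | h' | h' | h' | h' | h' | h' | h' | h' | h' <;>
    first
    | omega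
    | exact ⟨0, 6 * k + 4 - (2 * (t)), by unfold TB; (iterate 4 right); left; omega, by omega⟩
    | exact ⟨1, 8 * k + 6, by unfold TB; (iterate 5 right); left; omega, by omega⟩
  · rcases h' with h' | h' | h' | h' | h' | h' | h' | h' | h' | h' | h' | h' | h' | h' | h' | h' <;>
    first
    | omega
    | exact ⟨0, 2 * (t) + 2 * k + 4, by unfold TB; (iterate 6 right); left; omega, by omega⟩
  · rcases h' with h' | h' | h' | h' | h' | h' | h' | h' | h' | h' | h' | h' | h' | h' | h' | h' <;>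
    first
    | omega
    | exact ⟨1, 4 * k + 4, by unfold TB; (iterate 7 right); left; omega, by omega⟩
  · rcases h' with h' | h' | h' | h' | h' | h' | h' | h' | h' | h' | h' | h' | h' | h' | h' | h' <;>
    first
    | omega
    | exact ⟨1, 6 * k + 6, by unfold TB; (iterate 8 right); left; omega, by omega⟩
  · rcases h' with h' | h' | h' | h' | h' | h' | h' | h' | h' | h' | h' | h' | h' | h' | h' | h' <;>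
    first
    | omega
    | exact ⟨0, 2 * (t) - (2 * k + 3), by unfold TB; (iterate 9 right); left; omega, by omega⟩
    | exact ⟨1, 0, by unfold TB; (iterate 10 right); left; omega, by omega⟩
  · rcases h' with h' | h' | h' | h' | h' | h' | h' | h' | h' | h' | h' | h' | h' | h' | h' | h' <;>
    first
    | omega
    | exact ⟨0, 10 * k + 9 - (2 * (t)), by unfold TB; (iterate 11 right); left; omega, by omega⟩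
  · rcases h' with h' | h' | h' | h' | h' | h' | h' | h' | h' | h' | h' | h' | h' | h' | h' | h' <;>
    first
    | omega
    | exact ⟨1, 4 * k + 2, by unfold TB; (iterate 12 right); left; omega, by omega⟩
  · rcases h' with h' | h' | h' | h' | h' | h' | h' | h' | h' | h' | h' | h' | h' | h' | h' | h' <;>
    first
    | omega
    | exact ⟨1, 14 * k + 13 - (2 * (t)), by unfold TB; (iterate 13 right); left; omega, by omega⟩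
  · rcases h' with h' | h' | h' | h' | h' | h' | h' | h' | h' | h' | h' | h' | h' | h' | h' | h' <;>
    first
    | omega
    | exact ⟨1, 14 * k + 12 - (2 * (t)), by unfold TB; (iterate 14 right); left; omega, by omega⟩
    | exact ⟨1, 4 * k + 5, by unfold TB; (iterate 15 right); left; omega, by omega⟩
  · rcases h' with h' | h' | h' | h' | h' | h' | h' | h' | h' | h' | h' | h' | h' | h' | h' | h' <;>
    first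
    | omega
    | exact ⟨1, 2 * (t) - (6 * k + 5), by unfold TB; (iterate 16 right); left; omega, by omega⟩
  · rcases h' with h' | h' | h' | h' | h' | h' | h' | h' | h' | h' | h' | h' | h' | h' | h' | h' <;>
    first
    | omega
    | exact ⟨1, 2 * (t) - (6 * k + 4), by unfold TB; (iterate 17 right); left; omega, by omega⟩
    | exact ⟨1, 4 * k + 3, by unfold TB; (iterate 18 right); left; omega, by omega⟩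
  · rcases h' with h' | h' | h' | h' | h' | h' | h' | h' | h' | h' | h' | h' | h' | h' | h' | h' <;>
    first
    | omega
    | exact ⟨1, 2 * (t) - (14 * k + 11), by unfold TB; (iterate 19 right); left; omega, by omega⟩
  · rcases h' with h' | h' | h' | h' | h' | h' | h' | h' | h' | h' | h' | h' | h' | h' | h' | h' <;>
    first
    | omega
    | exact ⟨1, 2 * (t) - (14 * k + 10), by unfold TB; (iterate 20 right); omega, by omega⟩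

theorem endB {k t s e x f y : ℕ} (hk : 1 ≤ k) (h : RB k t 0 e x)
    (h' : RB k s (16 * k + 13) f y) : e ≠ f := by
  have a : e = 0 := by
    rcases h with h | h | h | h | h | h | h | h | h | h | h | h | h | h | h | h <;> omega
  have b : f = 1 := by
    rcases h' with h | h | h | h | h | h | h | h | h | h | h | h | h | h | h | h <;> omega
  omega

theorem dihB {k : ℕ} (hk : 1 ≤ k) : ∃ c, SC (DihedralGroup (8 * k + 7)) (sr c) :=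
  dih_of (m := 16 * k + 13) (fun i e x => ∃ t, RB k t i e x) (fun i e x => ∃ t, TB k t i e x) (by
        omega)
    (exB hk) (fun ⟨_, h⟩ => bdB hk h) (fun ⟨_, h⟩ ⟨_, h'⟩ => injB hk h h')
    (fun ⟨_, h⟩ ⟨_, h'⟩ => tinjB hk h h')
    (fun ⟨t, h⟩ ⟨_, h'⟩ => let ⟨a, v, p, q⟩ := edB hk h h'; ⟨a, v, ⟨t, p⟩, q⟩)
    (fun ⟨_, h⟩ ⟨_, h'⟩ => endB hk h h')

/-- The places of the vertices, family C. -/
def RC (k t i e x : ℕ) : Prop :=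
  (i = 2 * t + 0 ∧ e = 1 ∧ 0 ≤ t ∧ t + 1 ≤ k ∧ x + t = 7 * k + 2) ∨
  (i = 2 * t + 1 ∧ e = 0 ∧ 0 ≤ t ∧ t + 1 ≤ k ∧ x + t = 7 * k + 3) ∨
  (i = 2 * t + 0 ∧ e = 1 ∧ k ≤ t ∧ t ≤ 3 * k ∧ x + t = 5 * k + 1) ∨
  (i = 2 * t + 1 ∧ e = 1 ∧ k ≤ t ∧ t ≤ 3 * k ∧ x + k = t) ∨
  (i = 2 * t + 0 ∧ e = 0 ∧ 3 * k + 1 ≤ t ∧ t ≤ 3 * k + 1 ∧ x = 6 * k + 3) ∨
  (i = 2 * t + 0 ∧ e = 0 ∧ 3 * k + 2 ≤ t ∧ t ≤ 4 * k + 1 ∧ x + t = 9 * k + 4) ∨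
  (i = 2 * t + 1 ∧ e = 1 ∧ 3 * k + 1 ≤ t ∧ t ≤ 4 * k ∧ x + t = 9 * k + 3) ∨
  (i = 2 * t + 1 ∧ e = 1 ∧ 4 * k + 1 ≤ t ∧ t ≤ 4 * k + 1 ∧ x = 7 * k + 3) ∨
  (i = 2 * t + 0 ∧ e = 0 ∧ 4 * k + 2 ≤ t ∧ t ≤ 5 * k ∧ x = t + 3 * k + 2) ∨
  (i = 2 * t + 1 ∧ e = 1 ∧ 4 * k + 2 ≤ t ∧ t ≤ 5 * k ∧ x = t + 3 * k + 2) ∨
  (i = 2 * t + 0 ∧ e = 0 ∧ 5 * k + 1 ≤ t ∧ t ≤ 7 * k + 1 ∧ x + 5 * k + 1 = t) ∨
  (i = 2 * t + 1 ∧ e = 0 ∧ 5 * k + 1 ≤ t ∧ t ≤ 7 * k + 1 ∧ x + t = 9 * k + 2) ∨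
  (i = 2 * t + 0 ∧ e = 1 ∧ 7 * k + 2 ≤ t ∧ t ≤ 8 * k + 2 ∧ x + 3 * k = t) ∨
  (i = 2 * t + 1 ∧ e = 0 ∧ 7 * k + 2 ≤ t ∧ t ≤ 8 * k + 2 ∧ x + 3 * k = t)

/-- The places of the labels, family C. -/
def TC (k t i e x : ℕ) : Prop :=
  (i = 2 * t + 0 ∧ e = 1 ∧ 0 ≤ t ∧ t + 1 ≤ k ∧ x + 2 * t = 6 * k + 2) ∨
  (i = 2 * t + 1 ∧ e = 1 ∧ 0 ≤ t ∧ t + 2 ≤ k ∧ x + 2 * t = 6 * k + 1) ∨
  (i = 2 * t + 1 ∧ e = 1 ∧ k ≤ t + 1 ∧ t + 1 ≤ k ∧ x = 2 * k + 2) ∨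
  (i = 2 * t + 0 ∧ e = 0 ∧ k ≤ t ∧ t ≤ 3 * k ∧ x = 2 * t + 2 * k + 2) ∨
  (i = 2 * t + 1 ∧ e = 0 ∧ k ≤ t ∧ t + 1 ≤ 3 * k ∧ x + 2 * t = 6 * k) ∨
  (i = 2 * t + 1 ∧ e = 1 ∧ 3 * k ≤ t ∧ t ≤ 3 * k ∧ x = 0) ∨
  (i = 2 * t + 0 ∧ e = 1 ∧ 3 * k + 1 ≤ t ∧ t ≤ 3 * k + 1 ∧ x = 4 * k + 2) ∨
  (i = 2 * t + 0 ∧ e = 1 ∧ 3 * k + 2 ≤ t ∧ t ≤ 4 * k ∧ x + 2 * t = 10 * k + 4) ∨
  (i = 2 * t + 0 ∧ e = 1 ∧ 4 * k + 1 ≤ t ∧ t ≤ 4 * k + 1 ∧ x = 4 * k + 3) ∨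
  (i = 2 * t + 1 ∧ e = 1 ∧ 3 * k + 1 ≤ t ∧ t ≤ 4 * k ∧ x + 2 * t = 10 * k + 3) ∨
  (i = 2 * t + 1 ∧ e = 1 ∧ 4 * k + 1 ≤ t ∧ t ≤ 4 * k + 1 ∧ x = 6 * k + 4) ∨
  (i = 2 * t + 0 ∧ e = 1 ∧ 4 * k + 2 ≤ t ∧ t ≤ 5 * k ∧ x + 2 * k = 2 * t + 1) ∨
  (i = 2 * t + 1 ∧ e = 1 ∧ 4 * k + 2 ≤ t ∧ t + 1 ≤ 5 * k ∧ x + 2 * k = 2 * t + 2) ∨
  (i = 2 * t + 1 ∧ e = 1 ∧ 5 * k ≤ t ∧ t ≤ 5 * k ∧ x = 8 * k + 2) ∨
  (i = 2 * t + 0 ∧ e = 0 ∧ 5 * k + 1 ≤ t ∧ t ≤ 7 * k + 1 ∧ x + 2 * t = 14 * k + 3) ∨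
  (i = 2 * t + 1 ∧ e = 0 ∧ 5 * k + 1 ≤ t ∧ t ≤ 7 * k ∧ x + 6 * k = 2 * t + 1) ∨
  (i = 2 * t + 1 ∧ e = 1 ∧ 7 * k + 1 ≤ t ∧ t ≤ 7 * k + 1 ∧ x = 6 * k + 3) ∨
  (i = 2 * t + 0 ∧ e = 1 ∧ 7 * k + 2 ≤ t ∧ t ≤ 8 * k + 2 ∧ x + 14 * k + 3 = 2 * t) ∨
  (i = 2 * t + 1 ∧ e = 1 ∧ 7 * k + 2 ≤ t ∧ t ≤ 8 * k + 1 ∧ x + 14 * k + 2 = 2 * t)

theorem exC {k : ℕ} (hk : 2 ≤ k) (i : ℕ) (hi : i ≤ 16 * k + 5) : ∃ e x t, RC k t i e x := by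
  obtain ⟨t, ht⟩ : ∃ t, t = i / 2 := ⟨_, rfl⟩
  have : (i = 2 * t + 0 ∧ 0 ≤ t ∧ t + 1 ≤ k) ∨ (i = 2 * t + 1 ∧ 0 ≤ t ∧ t + 1 ≤ k) ∨ (i = 2 * t +
        0 ∧ k ≤ t ∧ t ≤ 3 * k) ∨ (i = 2 * t + 1 ∧ k ≤ t ∧ t ≤ 3 * k) ∨ (i = 2 * t + 0 ∧ 3 * k + 1
        ≤ t ∧ t ≤ 3 * k + 1) ∨ (i = 2 * t + 0 ∧ 3 * k + 2 ≤ t ∧ t ≤ 4 * k + 1) ∨ (i = 2 * t + 1 ∧
        3 * k + 1 ≤ t ∧ t ≤ 4 * k) ∨ (i = 2 * t + 1 ∧ 4 * k + 1 ≤ t ∧ t ≤ 4 * k + 1) ∨ (i = 2 * t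
        + 0 ∧ 4 * k + 2 ≤ t ∧ t ≤ 5 * k) ∨ (i = 2 * t + 1 ∧ 4 * k + 2 ≤ t ∧ t ≤ 5 * k) ∨ (i = 2 *
        t + 0 ∧ 5 * k + 1 ≤ t ∧ t ≤ 7 * k + 1) ∨ (i = 2 * t + 1 ∧ 5 * k + 1 ≤ t ∧ t ≤ 7 * k + 1) ∨
        (i = 2 * t + 0 ∧ 7 * k + 2 ≤ t ∧ t ≤ 8 * k + 2) ∨ (i = 2 * t + 1 ∧ 7 * k + 2 ≤ t ∧ t ≤ 8 *
        k + 2) := by omega
  rcases this with h | h | h | h | h | h | h | h | h | h | h | h | h | h
  · exact ⟨1, 7 * k + 2 - (t), t, by unfold RC; left; omega⟩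
  · exact ⟨0, 7 * k + 3 - (t), t, by unfold RC; (iterate 1 right); left; omega⟩
  · exact ⟨1, 5 * k + 1 - (t), t, by unfold RC; (iterate 2 right); left; omega⟩
  · exact ⟨1, t - (1 * k), t, by unfold RC; (iterate 3 right); left; omega⟩
  · exact ⟨0, 6 * k + 3, t, by unfold RC; (iterate 4 right); left; omega⟩
  · exact ⟨0, 9 * k + 4 - (t), t, by unfold RC; (iterate 5 right); left; omega⟩
  · exact ⟨1, 9 * k + 3 - (t), t, by unfold RC; (iterate 6 right); left; omega⟩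
  · exact ⟨1, 7 * k + 3, t, by unfold RC; (iterate 7 right); left; omega⟩
  · exact ⟨0, t + 3 * k + 2, t, by unfold RC; (iterate 8 right); left; omega⟩
  · exact ⟨1, t + 3 * k + 2, t, by unfold RC; (iterate 9 right); left; omega⟩
  · exact ⟨0, t - (5 * k + 1), t, by unfold RC; (iterate 10 right); left; omega⟩
  · exact ⟨0, 9 * k + 2 - (t), t, by unfold RC; (iterate 11 right); left; omega⟩
  · exact ⟨1, t - (3 * k), t, by unfold RC; (iterate 12 right); left; omega⟩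
  · exact ⟨0, t - (3 * k), t, by unfold RC; (iterate 13 right); omega⟩

theorem bdC {k t i e x : ℕ} (hk : 2 ≤ k) (h : RC k t i e x) : e < 2 ∧ x < 8 * k + 3 := by
  rcases h with h | h | h | h | h | h | h | h | h | h | h | h | h | h <;> omega

theorem injC {k t s i j e x : ℕ} (hk : 2 ≤ k) (h : RC k t i e x) (h' : RC k s j e x) : i = j := by
  rcases h with ⟨rfl, rfl, h⟩ | ⟨rfl, rfl, h⟩ | ⟨rfl, rfl, h⟩ | ⟨rfl, rfl, h⟩ | ⟨rfl, rfl, h⟩ |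
        ⟨rfl, rfl, h⟩ | ⟨rfl, rfl, h⟩ | ⟨rfl, rfl, h⟩ | ⟨rfl, rfl, h⟩ | ⟨rfl, rfl, h⟩ | ⟨rfl, rfl,
        h⟩ | ⟨rfl, rfl, h⟩ | ⟨rfl, rfl, h⟩ | ⟨rfl, rfl, h⟩ <;>
  rcases h' with h' | h' | h' | h' | h' | h' | h' | h' | h' | h' | h' | h' | h' | h' <;> omega

theorem tinjC {k t s i j e x : ℕ} (hk : 2 ≤ k) (h : TC k t i e x) (h' : TC k s j e x) : i = j := by
  rcases h with ⟨rfl, rfl, h⟩ | ⟨rfl, rfl, h⟩ | ⟨rfl, rfl, h⟩ | ⟨rfl, rfl, h⟩ | ⟨rfl, rfl, h⟩ |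
        ⟨rfl, rfl, h⟩ | ⟨rfl, rfl, h⟩ | ⟨rfl, rfl, h⟩ | ⟨rfl, rfl, h⟩ | ⟨rfl, rfl, h⟩ | ⟨rfl, rfl,
        h⟩ | ⟨rfl, rfl, h⟩ | ⟨rfl, rfl, h⟩ | ⟨rfl, rfl, h⟩ | ⟨rfl, rfl, h⟩ | ⟨rfl, rfl, h⟩ | ⟨rfl,
        rfl, h⟩ | ⟨rfl, rfl, h⟩ | ⟨rfl, rfl, h⟩ <;>
  rcases h' with h' | h' | h' | h' | h' | h' | h' | h' | h' | h' | h' | h' | h' | h' | h' | h' |
        h' | h' | h' <;> omega

theorem edC {k t s i e x f y : ℕ} (hk : 2 ≤ k) (h : RC k t i e x) (h' : RC k s (i + 1) f y) :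
    ∃ a v, TC k t i a v ∧ Lab (8 * k + 3) e x f y a v := by
  unfold Lab
  rcases h with ⟨rfl, rfl, h⟩ | ⟨rfl, rfl, h⟩ | ⟨rfl, rfl, h⟩ | ⟨rfl, rfl, h⟩ | ⟨rfl, rfl, h⟩ |
        ⟨rfl, rfl, h⟩ | ⟨rfl, rfl, h⟩ | ⟨rfl, rfl, h⟩ | ⟨rfl, rfl, h⟩ | ⟨rfl, rfl, h⟩ | ⟨rfl, rfl,
        h⟩ | ⟨rfl, rfl, h⟩ | ⟨rfl, rfl, h⟩ | ⟨rfl, rfl, h⟩
  · rcases h' with h' | h' | h' | h' | h' | h' | h' | h' | h' | h' | h' | h' | h' | h' <;>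
    first
    | omega
    | exact ⟨1, 6 * k + 2 - (2 * (t)), by unfold TC; left; omega, by omega⟩
  · rcases h' with h' | h' | h' | h' | h' | h' | h' | h' | h' | h' | h' | h' | h' | h' <;>
    first
    | omega
    | exact ⟨1, 6 * k + 1 - (2 * (t)), by unfold TC; (iterate 1 right); left; omega, by omega⟩
    | exact ⟨1, 2 * k + 2, by unfold TC; (iterate 2 right); left; omega, by omega⟩
  · rcases h' with h' | h' | h' | h' | h' | h' | h' | h' | h' | h' | h' | h' | h' | h' <;>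
    first
    | omega
    | exact ⟨0, 2 * (t) + 2 * k + 2, by unfold TC; (iterate 3 right); left; omega, by omega⟩
  · rcases h' with h' | h' | h' | h' | h' | h' | h' | h' | h' | h' | h' | h' | h' | h' <;>
    first
    | omega
    | exact ⟨0, 6 * k - (2 * (t)), by unfold TC; (iterate 4 right); left; omega, by omega⟩
    | exact ⟨1, 0, by unfold TC; (iterate 5 right); left; omega, by omega⟩
  · rcases h' with h' | h' | h' | h' | h' | h' | h' | h' | h' | h' | h' | h' | h' | h' <;>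
    first
    | omega
    | exact ⟨1, 4 * k + 2, by unfold TC; (iterate 6 right); left; omega, by omega⟩
  · rcases h' with h' | h' | h' | h' | h' | h' | h' | h' | h' | h' | h' | h' | h' | h' <;>
    first
    | omega
    | exact ⟨1, 10 * k + 4 - (2 * (t)), by unfold TC; (iterate 7 right); left; omega, by omega⟩
    | exact ⟨1, 4 * k + 3, by unfold TC; (iterate 8 right); left; omega, by omega⟩
  · rcases h' with h' | h' | h' | h' | h' | h' | h' | h' | h' | h' | h' | h' | h' | h' <;>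
    first
    | omega
    | exact ⟨1, 10 * k + 3 - (2 * (t)), by unfold TC; (iterate 9 right); left; omega, by omega⟩
  · rcases h' with h' | h' | h' | h' | h' | h' | h' | h' | h' | h' | h' | h' | h' | h' <;>
    first
    | omega
    | exact ⟨1, 6 * k + 4, by unfold TC; (iterate 10 right); left; omega, by omega⟩
  · rcases h' with h' | h' | h' | h' | h' | h' | h' | h' | h' | h' | h' | h' | h' | h' <;>
    first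
    | omega
    | exact ⟨1, 2 * (t) + 1 - (2 * k), by unfold TC; (iterate 11 right); left; omega, by omega⟩
  · rcases h' with h' | h' | h' | h' | h' | h' | h' | h' | h' | h' | h' | h' | h' | h' <;>
    first
    | omega
    | exact ⟨1, 2 * (t) + 2 - (2 * k), by unfold TC; (iterate 12 right); left; omega, by omega⟩
    | exact ⟨1, 8 * k + 2, by unfold TC; (iterate 13 right); left; omega, by omega⟩
  · rcases h' with h' | h' | h' | h' | h' | h' | h' | h' | h' | h' | h' | h' | h' | h' <;>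
    first
    | omega
    | exact ⟨0, 14 * k + 3 - (2 * (t)), by unfold TC; (iterate 14 right); left; omega, by omega⟩
  · rcases h' with h' | h' | h' | h' | h' | h' | h' | h' | h' | h' | h' | h' | h' | h' <;>
    first
    | omega
    | exact ⟨0, 2 * (t) + 1 - (6 * k), by unfold TC; (iterate 15 right); left; omega, by omega⟩
    | exact ⟨1, 6 * k + 3, by unfold TC; (iterate 16 right); left; omega, by omega⟩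
  · rcases h' with h' | h' | h' | h' | h' | h' | h' | h' | h' | h' | h' | h' | h' | h' <;>
    first
    | omega
    | exact ⟨1, 2 * (t) - (14 * k + 3), by unfold TC; (iterate 17 right); left; omega, by omega⟩
  · rcases h' with h' | h' | h' | h' | h' | h' | h' | h' | h' | h' | h' | h' | h' | h' <;>
    first
    | omega
    | exact ⟨1, 2 * (t) - (14 * k + 2), by unfold TC; (iterate 18 right); omega, by omega⟩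

theorem endC {k t s e x f y : ℕ} (hk : 2 ≤ k) (h : RC k t 0 e x)
    (h' : RC k s (16 * k + 5) f y) : e ≠ f := by
  have a : e = 1 := by
    rcases h with h | h | h | h | h | h | h | h | h | h | h | h | h | h <;> omega
  have b : f = 0 := by
    rcases h' with h | h | h | h | h | h | h | h | h | h | h | h | h | h <;> omega
  omega

theorem dihC {k : ℕ} (hk : 2 ≤ k) : ∃ c, SC (DihedralGroup (8 * k + 3)) (sr c) :=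
  dih_of (m := 16 * k + 5) (fun i e x => ∃ t, RC k t i e x) (fun i e x => ∃ t, TC k t i e x) (by
        omega)
    (exC hk) (fun ⟨_, h⟩ => bdC hk h) (fun ⟨_, h⟩ ⟨_, h'⟩ => injC hk h h')
    (fun ⟨_, h⟩ ⟨_, h'⟩ => tinjC hk h h')
    (fun ⟨t, h⟩ ⟨_, h'⟩ => let ⟨a, v, p, q⟩ := edC hk h h'; ⟨a, v, ⟨t, p⟩, q⟩)
    (fun ⟨_, h⟩ ⟨_, h'⟩ => endC hk h h')

/-- The walk used for the dihedral group of order fourteen. -/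
def q14 (i : ℕ) : DihedralGroup 7 :=
  [r 0, sr 0, sr 2, r 3, sr 3, r 5, r 2, r 1, sr 1, sr 4, sr 5, r 6, r 4, sr 6].getD i 1

theorem dih7 : SC (DihedralGroup 7) (sr 6) :=
  sc_of_seq (q := q14) (L := 13) ⟨by rw [nat_card], by decide +kernel, by decide +kernel⟩ (by decide)

/-- The walk used for the dihedral group of order twenty-two. -/
def q22 (i : ℕ) : DihedralGroup 11 :=
  [sr 9, r 10, sr 5, sr 0, sr 4, sr 1, sr 3, sr 2, r 9, sr 8, r 8, sr 10,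
    r 0, r 5, r 1, r 4, r 2, r 3, sr 6, r 6, sr 7, r 7].getD i 1

theorem dih11 : SC (DihedralGroup 11) (sr 2) :=
  sc_of_seq (q := q22) (L := 21) ⟨by rw [nat_card], by decide +kernel, by decide +kernel⟩ (by decide)

theorem SC.conj {G : Type*} [Group G] [Finite G] {z : G} (h : SC G z) (g : G) :
    SC G (g * z * g⁻¹) := h.equiv (MulAut.conj g)

theorem sc_dih {n : ℕ} [NeZero n] (hn : Odd n) (h5 : 5 ≤ n) : SC (DihedralGroup n) (sr 0) := by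
  have h : ∃ c, SC (DihedralGroup n) (sr c) := by
    obtain ⟨m, hm⟩ := hn
    obtain ⟨k, hk⟩ : ∃ k, n = 7 ∨ n = 11 ∨ (1 ≤ k ∧ n = 4 * k + 1) ∨ (1 ≤ k ∧ n = 8 * k + 7) ∨
        (2 ≤ k ∧ n = 8 * k + 3) := by
      by_cases h4 : n % 4 = 1
      · exact ⟨n / 4, by omega⟩
      · exact ⟨n / 8, by omega⟩
    clear hm
    rcases hk with rfl | rfl | ⟨hk, rfl⟩ | ⟨hk, rfl⟩ | ⟨hk, rfl⟩
    · exact ⟨_, dih7⟩
    · exact ⟨_, dih11⟩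
    · exact dihA hk
    · exact dihB hk
    · exact dihC hk
  obtain ⟨c, h⟩ := h
  obtain ⟨m, hm⟩ := hn
  have h0 : ((2 * m + 1 : ℕ) : ZMod n) = 0 := hm ▸ ZMod.natCast_self n
  have := h.conj (r ((m + 1) * c))
  rw [r_mul_sr, inv_r, sr_mul_r] at this
  push_cast at h0
  rwa [show c - (m + 1) * c + -((m + 1) * c) = 0 by linear_combination -c * h0] at this

end Pool.Agent.SQC
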