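import Mathlib.Data.List.GetD
import Mathlib.Order.CompletePartialOrder
import Pool.Agent.MP_f56020_al.s2.Merge
import Pool.Agent.MP_f56020_al.cy.Blk
import Pool.Agent.MP_f56020_al.s2.Odd
import Pool.Agent.MP_f56020_al.cy.Dih

-- ======== part 0: formerly Pool.Agent.MP_f56020_al.s2.Model
section MrgPart0

namespace Pool.Agent.SQ2

open Pool.Agent.SQ Multiset

universe u

variable {G : Type*} [Group G] {D D' : Type*} {M H : Subgroup G} {mul : D → D → D} {e : D}
  {φ : G → D} {mul' : D' → D' → D'} {e' : D'} {a b : G}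

theorem Mod.one (h : Mod M mul e φ) : φ 1 = e := (h.ker 1).1 M.one_mem

theorem Mod.mem_iff (h : Mod M mul e φ) : a * b⁻¹ ∈ M ↔ φ a = φ b := by
  rw [h.ker, ← h.one]
  constructor
  · intro k
    have k1 := h.map_mul (a * b⁻¹) b
    rw [k, ← h.map_mul, inv_mul_cancel_right, _root_.one_mul] at k1
    exact k1
  · intro k
    rw [h.map_mul, k, ← h.map_mul, mul_inv_cancel]

theorem Mod.normal (h : Mod M mul e φ) : M.Normal := by
  refine ⟨fun n hn g => h.mem_iff.2 ?_⟩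
  rw [h.map_mul, (h.ker n).1 hn, ← h.one, ← h.map_mul, _root_.mul_one]

theorem model_left (h : Mod M mul e φ) : a⁻¹ * b ∈ M ↔ φ a = φ b := by
  rw [h.normal.mem_comm_iff, h.mem_iff, eq_comm]

theorem model_lift (h : Mod M mul e φ) :
    ∃ φ' : G ⧸ M → D, Function.Bijective φ' ∧ ∀ g : G, φ' (g : G ⧸ M) = φ g := by
  refine ⟨Quotient.lift φ fun a b k => (model_left h).1 (QuotientGroup.leftRel_apply.1 k),
    ⟨fun x y => ?_, fun d => ?_⟩, fun g => rfl⟩
  · induction x using QuotientGroup.induction_on with | H x => ?_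
    induction y using QuotientGroup.induction_on with | H y => ?_
    exact fun k => QuotientGroup.eq.2 ((model_left h).2 k)
  · obtain ⟨g, rfl⟩ := h.surj d
    exact ⟨g, rfl⟩

theorem Mod.index (h : Mod M mul e φ) : M.index = Nat.card D := by
  obtain ⟨φ', h1, -⟩ := model_lift h
  exact Nat.card_eq_of_bijective φ' h1

theorem Mod.cancel (h : Mod M mul e φ) {x y y' : D} (hy : mul x y = mul x y') : y = y' := by
  obtain ⟨a, rfl⟩ := h.surj x
  obtain ⟨b, rfl⟩ := h.surj y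
  obtain ⟨c, rfl⟩ := h.surj y'
  rw [← h.map_mul, ← h.map_mul, ← model_left h] at hy
  exact (model_left h).1 (by simpa [mul_assoc] using hy)

theorem Mod.cancel' (h : Mod M mul e φ) {x x' y : D} (hy : mul x y = mul x' y) : x = x' := by
  obtain ⟨a, rfl⟩ := h.surj x
  obtain ⟨b, rfl⟩ := h.surj x'
  obtain ⟨c, rfl⟩ := h.surj y
  rw [← h.map_mul, ← h.map_mul, ← h.mem_iff] at hy
  exact h.mem_iff.1 (by simpa [mul_assoc] using hy)

theorem Mod.assoc (h : Mod M mul e φ) (x y z : D) : mul (mul x y) z = mul x (mul y z) := by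
  obtain ⟨a, rfl⟩ := h.surj x
  obtain ⟨b, rfl⟩ := h.surj y
  obtain ⟨c, rfl⟩ := h.surj z
  simp only [← h.map_mul, mul_assoc]

theorem Mod.one_mul (h : Mod M mul e φ) (x : D) : mul e x = x := by
  obtain ⟨a, rfl⟩ := h.surj x
  rw [← h.one, ← h.map_mul, _root_.one_mul]

theorem Mod.mul_one (h : Mod M mul e φ) (x : D) : mul x e = x := by
  obtain ⟨a, rfl⟩ := h.surj x
  rw [← h.one, ← h.map_mul, _root_.mul_one]

theorem Mod.inv (h : Mod M mul e φ) {x : D} (hx : mul (φ a) x = e) : φ a⁻¹ = x :=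
  h.cancel (x := φ a) (by rw [hx, ← h.map_mul, mul_inv_cancel, h.one])

theorem Mod.pow (h : Mod M mul e φ) (a : G) (n : ℕ) : φ (a ^ n) = (mul (φ a))^[n] e := by
  induction n with
  | zero => simpa using h.one
  | succ n ih => rw [pow_succ', h.map_mul, ih, Function.iterate_succ_apply']

theorem Mod.sub [Finite G] (h : Mod M mul e φ) (B : D → Bool) (he : B e = true)
    (hB : ∀ x y, B x = true → B y = true → B (mul x y) = true) :
    ∃ H : Subgroup G, M ≤ H ∧ ∀ g, g ∈ H ↔ B (φ g) = true := by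
  let S : Submonoid G :=
    { carrier := {g | B (φ g) = true}
      one_mem' := by simpa [h.one] using he
      mul_mem' := fun {a b} ha hb => by
        have := hB _ _ ha hb
        rwa [← h.map_mul] at this }
  refine ⟨{ S with inv_mem' := fun {a} ha => ?_ }, fun g hg => ?_, fun g => Iff.rfl⟩
  · have k : a⁻¹ = a ^ (orderOf a - 1) := by
      rw [inv_eq_iff_mul_eq_one, ← pow_succ', Nat.sub_add_cancel (orderOf_pos a),
        pow_orderOf_eq_one]
    rw [k]
    exact S.pow_mem ha _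
  · change B (φ g) = true
    rw [(h.ker g).1 hg, he]

theorem model_ker (f : G → D') (hm : ∀ a b, f (a * b) = mul' (f a) (f b)) (h1 : f 1 = e') :
    ∃ M' : Subgroup G, ∀ g, g ∈ M' ↔ f g = e' := by
  have k : ∀ a b, f a = e' → f (a * b) = f b := fun a b ha => by
    rw [hm, ha, ← h1, ← hm, _root_.one_mul]
  refine ⟨{ carrier := {g | f g = e'}
            one_mem' := h1
            mul_mem' := fun {a b} ha hb => (k a b ha).trans hb
            inv_mem' := fun {a} ha => ?_ }, fun g => Iff.rfl⟩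
  have := k a a⁻¹ ha
  rw [mul_inv_cancel, h1] at this
  exact this.symm

theorem Mod.map (h : Mod M mul e φ) (f : D → D') (hf : Function.Surjective f)
    (hm : ∀ x y, f (mul x y) = mul' (f x) (f y)) (he : f e = e') :
    ∃ M' : Subgroup G, M ≤ M' ∧ Mod M' mul' e' (f ∘ φ) := by
  have k : ∀ a b, (f ∘ φ) (a * b) = mul' ((f ∘ φ) a) ((f ∘ φ) b) := fun a b => by
    simp only [Function.comp, h.map_mul, hm]
  obtain ⟨M', hM⟩ := model_ker (e' := e') (f ∘ φ) k (by simp [h.one, he])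
  exact ⟨M', fun g hg => (hM g).2 (by simp [(h.ker g).1 hg, he]), k, hf.comp h.surj, hM⟩

theorem Mod.equiv (h : Mod M mul e φ) (f : D → D') (hf : Function.Bijective f)
    (hm : ∀ x y, f (mul x y) = mul' (f x) (f y)) (he : f e = e') : Mod M mul' e' (f ∘ φ) :=
  ⟨fun a b => by simp only [Function.comp, h.map_mul, hm], hf.2.comp h.surj,
    fun g => by rw [h.ker, ← he, Function.comp, hf.1.eq_iff]⟩

theorem Mod.ofHom {A : Type*} [AddGroup A] (ψ : G →* Multiplicative A)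
    (hψ : Function.Surjective ψ) : Mod ψ.ker (· + ·) 0 fun g => (ψ g).toAdd :=
  ⟨fun a b => by simp, Multiplicative.toAdd.surjective.comp hψ, fun g => by simp⟩

theorem Mod.toHom {A : Type*} [AddGroup A] {φ : G → A} (h : Mod M (· + ·) 0 φ) :
    ∃ ψ : G →* Multiplicative A, Function.Surjective ψ ∧ ψ.ker = M ∧ ∀ g, (ψ g).toAdd = φ g := by
  refine ⟨MonoidHom.mk' (fun g => Multiplicative.ofAdd (φ g)) fun a b => ?_,
    Multiplicative.ofAdd.surjective.comp h.surj, ?_, fun g => rfl⟩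
  · rw [h.map_mul]; rfl
  · ext g
    rw [h.ker, MonoidHom.mem_ker]
    exact ofAdd_eq_one

theorem Mod.ofSec {Q : Type*} [Group Q] (π : G →* Q) (hπ : Function.Surjective π) (σ : D → Q)
    (hσ : Function.Bijective σ) (hm : ∀ x y, σ (mul x y) = σ x * σ y) (he : σ e = 1) :
    ∃ φ, Mod π.ker mul e φ ∧ ∀ g, σ (φ g) = π g := by
  choose φ hφ using fun g => hσ.2 (π g)
  refine ⟨φ, ⟨fun a b => hσ.1 ?_, fun d => ?_, fun g => ?_⟩, hφ⟩
  · rw [hm, hφ, hφ, hφ, _root_.map_mul]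
  · obtain ⟨g, hg⟩ := hπ (σ d)
    exact ⟨g, hσ.1 (by rw [hφ, hg])⟩
  · rw [MonoidHom.mem_ker, ← hσ.1.eq_iff, hφ, he]

theorem Mod.quot (h : Mod M mul e φ) [M.Normal] :
    ∃ φ' : G ⧸ M → D, Mod ⊥ mul e φ' ∧ ∀ g : G, φ' (g : G ⧸ M) = φ g := by
  obtain ⟨φ', h1, h2⟩ := model_lift h
  refine ⟨φ', ⟨fun x y => ?_, h1.2, fun x => ?_⟩, h2⟩
  · induction x using QuotientGroup.induction_on with | H x => ?_
    induction y using QuotientGroup.induction_on with | H y => ?_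
    rw [← QuotientGroup.mk_mul, h2, h2, h2, h.map_mul]
  · rw [Subgroup.mem_bot, ← h.one, ← h2, h1.1.eq_iff, QuotientGroup.mk_one]

theorem Mod.comap {Q : Type*} [Group Q] {N : Subgroup Q} {φ : Q → D} (h : Mod N mul e φ)
    (π : G →* Q) (hπ : Function.Surjective π) : Mod (N.comap π) mul e (φ ∘ π) :=
  ⟨fun a b => by simp only [Function.comp, _root_.map_mul π, h.map_mul], h.surj.comp hπ,
    fun g => h.ker (π g)⟩

theorem Spl.of {O P : Subgroup G} [O.Normal] (hc : O.IsComplement' P) (σ : D → P)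
    (hσ : Function.Bijective σ) (hm : ∀ x y, σ (mul x y) = σ x * σ y) (he : σ e = 1) :
    ∃ φ, Spl O mul e φ fun d => (σ d : G) := by
  have hb : Function.Bijective fun d => ((σ d : G) : G ⧸ O) := by
    refine Function.Bijective.comp (g := fun p : P => ((p : G) : G ⧸ O))
      ⟨fun p q k => ?_, fun x => ?_⟩ hσ
    · have k1 : (p : G)⁻¹ * q ∈ O := QuotientGroup.eq.1 k
      have k2 := Subgroup.disjoint_def.1 hc.disjoint k1 (P.mul_mem (P.inv_mem p.2) q.2)
      exact Subtype.ext (inv_mul_eq_one.1 k2)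
    · induction x using QuotientGroup.induction_on with | H x => ?_
      obtain ⟨⟨o, p⟩, rfl⟩ := hc.2 x
      refine ⟨p, ?_⟩
      have : ((o : G) : G ⧸ O) = 1 := (QuotientGroup.eq_one_iff _).2 o.2
      simp [this]
  obtain ⟨φ, h1, h2⟩ := Mod.ofSec (mul := mul) (e := e) (QuotientGroup.mk' O)
    (QuotientGroup.mk'_surjective O) _ hb (fun x y => by simp [hm]) (by simp [he])
  rw [QuotientGroup.ker_mk'] at h1
  exact ⟨φ, h1, fun a b => by simp [hm], fun d => hb.1 (h2 _)⟩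

theorem Spl.one {σ : D → G} (h : Spl M mul e φ σ) : σ e = 1 := by
  have := h.mul e e
  rw [h.mod.one_mul] at this
  exact left_eq_mul.1 this

theorem model_sum (l : List D) (e : D) :
    (∑ j ∈ Finset.range l.length, {l.getD j e} : Multiset D) = l := by
  induction l with
  | nil => simp
  | cons x l ih =>
    rw [List.length_cons, Finset.sum_range_succ']
    simp only [List.getD_cons_succ, List.getD_cons_zero, ih]
    rw [add_comm, singleton_add, cons_coe]

omit [Group G] in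
theorem model_fib [Finite G] (hφ : Function.Surjective φ) {l : List D} (hl : l.Nodup) (e : D) :
    ∑ j ∈ Finset.range l.length, st (fun g => φ g = l.getD j e) = st fun g => φ g ∈ l := by
  have : Finite D := Finite.of_surjective φ hφ
  exact sum_fib φ _ (fun j => l.getD j e) (· ∈ l)
    ((model_sum l e).trans (eq_st (coe_nodup.2 hl) fun _ => mem_coe))

theorem model_step {l lab : List D} (hc : CyD mul l lab) (e : D) {j : ℕ} (hj : j < l.length) :
    l.getD ((j + 1) % l.length) e = mul (l.getD j e) (lab.getD j e) := by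
  obtain ⟨-, -, h1, h2⟩ := hc
  have k := List.getElem_of_eq h2 (i := j) (by simp [h1, hj])
  rw [List.getElem_zipWith, List.getElem_rotate] at k
  rw [List.getD_eq_getElem _ _ (Nat.mod_lt _ (by omega)), List.getD_eq_getElem _ _ hj,
    List.getD_eq_getElem _ _ (h1 ▸ hj), k]

theorem Mod.cyc [Finite G] (h : Mod M mul e φ) {l lab : List D} (hc : CyD mul l lab)
    (hl : l ≠ []) :
    ∃ τ, Fr M τ l.length (st fun g => φ g ∈ l) (st fun g => φ g ∈ lab) ∧
      ∀ j, φ (τ j) = l.getD (j % l.length) e := by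
  choose s hs using h.surj
  refine ⟨fun j => s (l.getD (j % l.length) e), Fr.of (by simp) ?_ ?_, fun j => hs _⟩
  · rw [← model_fib h.surj hc.1 e]
    refine Finset.sum_congr rfl fun j hj => st_congr fun g => ?_
    rw [h.mem_iff, _root_.one_mul, hs, Nat.mod_eq_of_lt (Finset.mem_range.1 hj)]
  · rw [← model_fib h.surj hc.2.1 e, hc.2.2.1]
    refine Finset.sum_congr rfl fun j hj => st_congr fun g => ?_
    have hj := Finset.mem_range.1 hj
    rw [h.mem_iff, h.map_mul, hs, hs, Nat.mod_eq_of_lt hj, model_step hc e hj]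
    exact ⟨h.cancel, fun k => by rw [k]⟩

theorem Mod.fr [Finite G] (h : Mod M mul e φ) {B : D → Bool} (hH : ∀ g, g ∈ H ↔ B (φ g) = true)
    {l lab : List D} (hc : FrD mul B l lab) (hl : l ≠ []) :
    ∃ τ, Fr M τ l.length (ou H) (ou H) ∧ ∀ j, φ (τ j) = l.getD (j % l.length) e := by
  obtain ⟨τ, h1, h2⟩ := h.cyc hc.1 hl
  have k1 : (st fun g => φ g ∈ l) = ou H := st_congr fun g => by simp [(hc.2 _).1, hH]
  have k2 : (st fun g => φ g ∈ lab) = ou H := st_congr fun g => by simp [(hc.2 _).2, hH]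
  rw [k1, k2] at h1
  exact ⟨τ, h1, h2⟩

theorem model_pth (s : D → G) (hs : ∀ x y, s (mul x y) = s x * s y) {z : D} (l : List D) :
    ∀ (x : D) (lab : List D), List.zipWith mul (x :: l) lab = l → (x :: l).getLast? = some z →
      Pth ld (s x) (s z) (l.map s : List G) (lab.map s : List G) := by
  induction l with
  | nil =>
    intro x lab h1 h2
    cases lab with
    | nil =>
      obtain rfl : x = z := by simpa using h2
      exact Pth.nil _
    | cons b lab => simp at h1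
  | cons y l ih =>
    intro x lab h1 h2
    cases lab with
    | nil => simp at h1
    | cons b lab =>
      rw [List.zipWith_cons_cons, List.cons.injEq] at h1
      rw [List.getLast?_cons_cons] at h2
      refine (Pth.cons (s x) (ih y lab h1.2 h2)).cast (by simp) ?_
      simp [ld, ← h1.1, hs]

/-- A sequencing from data. -/
theorem Mod.sc [Finite G] (h : Mod ⊥ mul e φ) (hd : DS mul e) :
    ∃ z a b : G, SC G z ∧ z * z = 1 ∧ (z = a * a ∨ z = a * b * a⁻¹ * b⁻¹) := by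
  obtain ⟨l, lab, z, a, b, n1, n2, a1, a2, h1, h2, h3, h4⟩ := hd
  choose s hs using h.surj
  have hi : Function.Injective φ := fun x y k => by
    have := h.mem_iff.2 k
    rwa [Subgroup.mem_bot, mul_inv_eq_one] at this
  have hm : ∀ x y, s (mul x y) = s x * s y := fun x y => hi (by rw [h.map_mul, hs, hs, hs])
  have he : s e = 1 := hi (by rw [hs, h.one])
  have hsi : Function.Injective s := fun x y k => by rw [← hs x, k, hs]
  have hb : ∀ g, s (φ g) = g := fun g => hi (hs _)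
  have p := model_pth (z := z) s hm l e lab h1 (by rw [List.getLast?_cons, h2]; rfl)
  rw [he] at p
  refine ⟨s z, s a, s b, ⟨_, p.cast rfl ?_, ?_⟩, by rw [← hm, h3, he], ?_⟩
  · refine eq_st (coe_nodup.2 ((List.nodup_cons.1 n2).2.map hsi)) fun g => ?_
    rw [mem_coe, List.mem_map]
    constructor
    · rintro ⟨d, hd, rfl⟩ k
      exact (List.nodup_cons.1 n2).1 (hsi (k.trans he.symm) ▸ hd)
    · intro k
      refine ⟨φ g, (List.mem_cons.1 (a2 (φ g))).resolve_left fun k' => k ?_, hb g⟩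
      rw [← hb g, k', he]
  · rw [singleton_add, cons_coe, ← he, ← List.map_cons]
    refine eq_st (coe_nodup.2 (n1.map hsi)) fun g => ?_
    rw [mem_coe, List.mem_map]
    exact ⟨fun _ => trivial, fun _ => ⟨φ g, a1 _, hb g⟩⟩
  · refine h4.imp (fun k => by rw [← k, hm]) fun k => ?_
    have := congrArg s k
    rw [hm, hm, hm] at this
    rw [← this]
    group

theorem model_conj (σ : D → G) {α : D → D} (t : G) (hα : ∀ d, t * σ d * t⁻¹ = σ (α d)) (i : ℕ)
    (d : D) : σ (α^[i] d) = t ^ i * σ d * (t ^ i)⁻¹ := by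
  induction i with
  | zero => simp
  | succ i ih =>
    rw [Function.iterate_succ_apply', ← hα, ih]
    group

theorem model_carry {k : ℕ} [NeZero k] (t : G) (x y : ZMod k) :
    (if k ≤ x.val + y.val then t ^ k else 1) * t ^ (x + y).val = t ^ x.val * t ^ y.val := by
  split_ifs with h
  · rw [ZMod.val_add_of_le h, ← pow_add, ← pow_add, Nat.add_sub_cancel' h]
  · rw [ZMod.val_add_of_lt (not_le.1 h), _root_.one_mul, pow_add]

theorem xm_hom (σ : D → G) (hm : ∀ x y, σ (mul x y) = σ x * σ y) (he : σ e = 1) {α : D → D}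
    {c : D} {k : ℕ} [NeZero k] (t : G) (hα : ∀ d, t * σ d * t⁻¹ = σ (α d)) (hk : t ^ k = σ c)
    (x y : D × ZMod k) :
    σ (xm mul e α c k x y).1 * t ^ (xm mul e α c k x y).2.val =
      σ x.1 * t ^ x.2.val * (σ y.1 * t ^ y.2.val) := by
  have k1 : σ (if k ≤ x.2.val + y.2.val then c else e) =
      if k ≤ x.2.val + y.2.val then t ^ k else 1 := by
    split_ifs
    · exact hk.symm
    · exact he
  simp only [xm]
  rw [hm, hm, model_conj σ t hα, k1, mul_assoc, model_carry]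
  group

theorem xm_inj (σ : D → G) (hσ : Function.Injective σ) (N : Subgroup G) (hN : ∀ d, σ d ∈ N)
    {k : ℕ} [NeZero k] (t : G) (ht : ∀ i, 0 < i → i < k → t ^ i ∉ N) :
    Function.Injective fun x : D × ZMod k => σ x.1 * t ^ x.2.val := by
  have key : ∀ x y : D × ZMod k, x.2.val ≤ y.2.val →
      σ x.1 * t ^ x.2.val = σ y.1 * t ^ y.2.val → x = y := fun x y hle h => by
    obtain ⟨i, hi⟩ := Nat.exists_eq_add_of_le' hle
    rw [hi, pow_add, ← mul_assoc, mul_left_inj] at h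
    have hy := ZMod.val_lt y.2
    rcases Nat.eq_zero_or_pos i with rfl | h0
    · exact Prod.ext (hσ (by simpa using h)) (ZMod.val_injective k (by omega))
    · refine absurd ?_ (ht i h0 (by omega))
      have := N.mul_mem (N.inv_mem (hN y.1)) (hN x.1)
      rwa [h, inv_mul_cancel_left] at this
  intro x y h
  rcases le_total x.2.val y.2.val with hle | hle
  · exact key x y hle h
  · exact (key y x hle h.symm).symm

theorem mc_hom {n k : ℕ} [NeZero n] [NeZero k] {r c : ZMod n} (a b : G) (ha : a ^ n = 1)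
    (hr : b * a * b⁻¹ = a ^ r.val) (hc : b ^ k = a ^ c.val) (x y : ZMod n × ZMod k) :
    a ^ (mc n k r c x y).1.val * b ^ (mc n k r c x y).2.val =
      a ^ x.1.val * b ^ x.2.val * (a ^ y.1.val * b ^ y.2.val) := by
  refine xm_hom (mul := (· + ·)) (e := 0) (α := (r * ·)) (fun i : ZMod n => a ^ i.val)
    (fun i j => ?_) (by simp) b (fun d => ?_) hc x y
  · rw [ZMod.val_add, ← pow_eq_pow_mod _ ha, pow_add]
  · rw [ZMod.val_mul, ← pow_eq_pow_mod _ ha, pow_mul, ← hr, conj_pow]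

theorem mc_bij [Finite G] {n : ℕ} [NeZero n] (a b : G) (ha : orderOf a = n)
    (hb : b ∉ Subgroup.zpowers a) (hG : Nat.card G = 2 * n) :
    Function.Bijective fun x : ZMod n × ZMod 2 => a ^ x.1.val * b ^ x.2.val := by
  refine (Nat.bijective_iff_injective_and_card _).2
    ⟨xm_inj (fun i : ZMod n => a ^ i.val) (fun i j k => ZMod.val_injective n ?_)
      (Subgroup.zpowers a) (fun d => Subgroup.npow_mem_zpowers a _) b fun i h0 h2 => ?_, ?_⟩
  · exact pow_injOn_Iio_orderOf (by simpa [ha] using ZMod.val_lt i)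
      (by simpa [ha] using ZMod.val_lt j) k
  · obtain rfl : i = 1 := by omega
    simpa using hb
  · simp [hG, mul_comm]

theorem mc_mod [Finite G] {n : ℕ} [NeZero n] {r c : ZMod n} (a b : G) (ha : orderOf a = n)
    (hb : b ∉ Subgroup.zpowers a) (hG : Nat.card G = 2 * n) (hr : b * a * b⁻¹ = a ^ r.val)
    (hc : b ^ 2 = a ^ c.val) : ∃ φ : G → ZMod n × ZMod 2, Mod ⊥ (mc n 2 r c) 0 φ := by
  obtain ⟨φ, h, -⟩ := Mod.ofSec (mul := mc n 2 r c) (e := 0) (MonoidHom.id G)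
    Function.surjective_id _ (mc_bij a b ha hb hG)
    (mc_hom a b (ha ▸ pow_orderOf_eq_one a) hr hc) (by simp)
  exact ⟨φ, by simpa using h⟩

/-- A semidirect product as a quotient. -/
theorem cocy {n : ℕ} [NeZero n] (χ : G →* Multiplicative (ZMod n)) (t : G)
    (ht : χ t = Multiplicative.ofAdd 1) {W : Type*} [AddCommGroup W] (T : W → W) (ψ : G → W)
    (hψ : ∀ a b, χ a = 1 → χ b = 1 → ψ (a * b) = ψ a + ψ b)
    (hT : ∀ a, χ a = 1 → ψ (t * a * t⁻¹) = T (ψ a)) (h0 : ψ (t ^ n) = 0)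
    (hs : ∀ w, ∃ a, χ a = 1 ∧ ψ a = w) :
    ∃ (M : Subgroup G) (φ : G → W × ZMod n), Mod M (xm (· + ·) 0 T 0 n) 0 φ ∧
      (∀ g, (φ g).2 = (χ g).toAdd) ∧ ∀ g, χ g = 1 → (φ g).1 = ψ g := by
  have h1 : ψ 1 = 0 := by
    have := hψ 1 1 (map_one χ) (map_one χ)
    rw [_root_.mul_one] at this
    exact left_eq_add.1 this
  have hp : ∀ i : ℕ, χ (t ^ i) = Multiplicative.ofAdd (i : ZMod n) := fun i => by
    rw [map_pow, ht, ← ofAdd_nsmul, nsmul_eq_mul, _root_.mul_one]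
  have hv : ∀ i : ZMod n, χ (t ^ i.val) = Multiplicative.ofAdd i := fun i => by
    rw [hp, ZMod.natCast_zmod_val]
  have hz : ∀ g, χ (g * (t ^ (χ g).toAdd.val)⁻¹) = 1 := fun g => by
    rw [map_mul, map_inv, hv, ofAdd_toAdd, mul_inv_cancel]
  have hc : ∀ (i : ℕ) a, χ a = 1 → χ (t ^ i * a * (t ^ i)⁻¹) = 1 := fun i a ha => by
    rw [map_mul, map_mul, ha, _root_.mul_one, map_inv, mul_inv_cancel]
  have hi : ∀ (i : ℕ) a, χ a = 1 → ψ (t ^ i * a * (t ^ i)⁻¹) = T^[i] (ψ a) := fun i a ha => by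
    induction i with
    | zero => simp
    | succ i ih =>
      rw [Function.iterate_succ_apply', ← ih, ← hT _ (hc i a ha)]
      congr 1
      group
  let φ : G → W × ZMod n := fun g => (ψ (g * (t ^ (χ g).toAdd.val)⁻¹), (χ g).toAdd)
  have hm : ∀ a b, φ (a * b) = xm (· + ·) 0 T 0 n (φ a) (φ b) := fun a b => by
    refine Prod.ext ?_ (by simp [φ, xm])
    simp only [φ, xm, ite_self, add_zero, map_mul χ a b, toAdd_mul]
    have k := model_carry t (χ a).toAdd (χ b).toAdd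
    have k1 : a * b * (t ^ ((χ a).toAdd + (χ b).toAdd).val)⁻¹ =
        a * (t ^ (χ a).toAdd.val)⁻¹ * (t ^ (χ a).toAdd.val * (b * (t ^ (χ b).toAdd.val)⁻¹) *
          (t ^ (χ a).toAdd.val)⁻¹) *
          (if n ≤ (χ a).toAdd.val + (χ b).toAdd.val then t ^ n else 1) := by
      rw [eq_mul_inv_of_mul_eq k]
      group
    have k2 := hc (χ a).toAdd.val _ (hz b)
    rw [k1, hψ _ _ (by rw [map_mul, hz, k2, _root_.mul_one]), hψ _ _ (hz a) k2, hi _ _ (hz b)]
    · split_ifs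
      · rw [h0, add_zero]
      · rw [h1, add_zero]
    · split_ifs
      · simp [hp]
      · exact map_one χ
  obtain ⟨M, hM⟩ := model_ker (e' := 0) φ hm (by simp [φ, h1])
  refine ⟨M, φ, ⟨hm, fun x => ?_, hM⟩, fun g => rfl, fun g hg => by simp [φ, hg]⟩
  obtain ⟨a, ha, hw⟩ := hs x.1
  have k : χ (a * t ^ x.2.val) = Multiplicative.ofAdd x.2 := by
    rw [map_mul, ha, hv, _root_.one_mul]
  exact ⟨a * t ^ x.2.val, Prod.ext (by simp only [φ, k, toAdd_ofAdd, mul_inv_cancel_right, hw])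
    (by simp only [φ, k, toAdd_ofAdd])⟩

end Pool.Agent.SQ2

end MrgPart0

-- ======== part 1: formerly Pool.Agent.MP_f56020_al.cy.Layer
section MrgPart1

namespace Pool.Agent.SQC

open Pool.Agent.SQ Multiplicative

universe u

theorem exists_normal_p' {G : Type*} [Group G] [Finite G] (n : ℕ) :
    ∀ O : Subgroup G, O.Normal → Group.IsSolvable O → Nat.card O ≤ n → O ≠ ⊥ →
      ∃ p : ℕ, p.Prime ∧ ∃ K : Subgroup G,
      K.Normal ∧ K ≤ O ∧ K ≠ ⊥ ∧ (∀ a ∈ K, ∀ b ∈ K, a * b = b * a) ∧ ∀ a ∈ K, a ^ p = 1 := by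
  induction n with
  | zero => intro O _ _ h; exact absurd (Nat.card_pos (α := O)) (by omega)
  | succ n ih =>
    intro O hO hs h h0
    by_cases k : ⁅O, O⁆ = ⊥
    · have cm : ∀ a ∈ O, ∀ b ∈ O, Commute a b := fun a ha b hb =>
        commutatorElement_eq_one_iff_commute.1
          (Subgroup.mem_bot.1 (k ▸ Subgroup.commutator_mem_commutator ha hb))
      have h1 : Nat.card O ≠ 1 := fun e => h0 (Subgroup.card_eq_one.1 e)
      have : Fact (Nat.card O).minFac.Prime := ⟨Nat.minFac_prime h1⟩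
      obtain ⟨x, hx⟩ := exists_prime_orderOf_dvd_card' (G := O) _ (Nat.minFac_dvd _)
      refine ⟨_, this.out,
        { carrier := {a | a ∈ O ∧ a ^ (Nat.card O).minFac = 1}
          mul_mem' := fun ha hb => ⟨mul_mem ha.1 hb.1, by
            rw [(cm _ ha.1 _ hb.1).mul_pow, ha.2, hb.2, one_mul]⟩
          one_mem' := ⟨one_mem _, one_pow _⟩
          inv_mem' := fun ha => ⟨inv_mem ha.1, by rw [inv_pow, ha.2, inv_one]⟩ },
        ⟨fun a ha g => ⟨hO.conj_mem a ha.1 g, by rw [conj_pow, ha.2]; simp⟩⟩, fun a ha => ha.1,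
        fun e => ?_, fun a ha b hb => cm a ha.1 b hb.1, fun a ha => ha.2⟩
      have h2 : (x : G) ∈ (⊥ : Subgroup G) :=
        e ▸ ⟨x.2, by rw [← hx, ← Subgroup.orderOf_coe, pow_orderOf_eq_one]⟩
      rw [show x = 1 from Subtype.ext (Subgroup.mem_bot.1 h2), orderOf_one] at hx
      exact this.out.one_lt.ne hx
    · have h1 : ⁅O, O⁆ < O := by
        have := (Subgroup.nontrivial_iff_ne_bot O).2 h0
        rw [← O.range_subtype, MonoidHom.range_eq_map, ← Subgroup.map_commutator,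
          Subgroup.map_subtype_lt_map_subtype]
        exact Group.IsSolvable.commutator_lt_top_of_nontrivial O
      have h2 : Nat.card (⁅O, O⁆ : Subgroup G) < Nat.card O :=
        lt_of_le_of_ne (Subgroup.card_le_of_le h1.le)
          fun e => h1.ne (Subgroup.eq_of_le_of_card_ge h1.le e.ge)
      obtain ⟨p, hp, K, k1, k2, k3⟩ := ih ⁅O, O⁆ inferInstance
        (Group.isSolvable_of_isSolvable_injective (Subgroup.inclusion_injective h1.le)) (by omega) k
      exact ⟨p, hp, K, k1, k2.trans h1.le, k3⟩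

theorem exists_normal_p {G : Type*} [Group G] [Finite G] [Group.IsSolvable G] (n : ℕ) :
    ∀ O : Subgroup G, O.Normal → Nat.card O ≤ n → O ≠ ⊥ → ∃ p : ℕ, p.Prime ∧ ∃ K : Subgroup G,
      K.Normal ∧ K ≤ O ∧ K ≠ ⊥ ∧ (∀ a ∈ K, ∀ b ∈ K, a * b = b * a) ∧ ∀ a ∈ K, a ^ p = 1 :=
  fun O hO => exists_normal_p' n O hO inferInstance

theorem pgroup_of_pow {G : Type*} [Group G] {p : ℕ} {K : Subgroup G} (h : ∀ a ∈ K, a ^ p = 1) :
    IsPGroup p K := fun a => ⟨1, Subtype.ext (by simpa using h a a.2)⟩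

theorem layer {G Q : Type*} [Group G] [Finite G] [Group Q] [Finite Q] (π : G →* Q)
    (hπ : Function.Surjective π) {p : ℕ} (hp : p.Prime) (h2 : p ≠ 2) (hK : IsPGroup p π.ker)
    {z : G} (hz : z * z = 1) (h1 : π z ≠ 1) (h : SC Q (π z))
    (hb : ¬ (Nat.card π.ker = 3 ∧ ∀ u ∈ π.ker, z * u * z⁻¹ = u⁻¹))
    (hL : p = 3 ∨ 3 ≤ Nat.card Q) : SC G z := by
  have : Fact p.Prime := ⟨hp⟩
  obtain ⟨τ, L, r, e⟩ := rp_of_sc π hπ h
  exact down h2 _ π.ker le_rfl hK _ _ τ L (ctx_ker π hz h1) r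
    (fun k => hb ⟨k.1, fun u hu => congrArg Subtype.val (k.2 ⟨u, hu⟩)⟩) (hL.imp id fun _ => by omega)

theorem layer_quot {G : Type*} [Group G] [Finite G] (K : Subgroup G) [K.Normal] {p : ℕ}
    (hp : p.Prime) (h2 : p ≠ 2) (hK : IsPGroup p K) {z : G} (hz : z * z = 1) (h1 : z ∉ K)
    (h : SC (G ⧸ K) (QuotientGroup.mk' K z))
    (hb : ¬ (Nat.card K = 3 ∧ ∀ u ∈ K, z * u * z⁻¹ = u⁻¹))
    (hL : p = 3 ∨ 3 ≤ Nat.card (G ⧸ K)) : SC G z :=
  layer (QuotientGroup.mk' K) (QuotientGroup.mk'_surjective K) hp h2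
    (by rwa [QuotientGroup.ker_mk']) hz (fun e => h1 ((QuotientGroup.eq_one_iff z).1 e)) h
    (by rwa [QuotientGroup.ker_mk']) hL

theorem sq_central {G : Type*} [Group G] [Finite G] (K : Subgroup G) [hK : K.Normal]
    (h3 : Nat.card K = 3) {z : G} (hz : ∀ χ : G →* ℤˣ, χ z = 1) : ∀ u ∈ K, z * u = u * z := by
  have : Fact (Nat.card K).Prime := ⟨h3 ▸ Nat.prime_three⟩
  have : IsCyclic K := isCyclic_of_prime_card rfl
  have hc : Nat.card (MulAut K) = 2 := by rw [IsCyclic.card_mulAut, h3]; decide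
  let e : MulAut K ≃* ℤˣ := mulEquivOfPrimeCardEq (p := 2) hc (by simp)
  have key : MulAut.conjNormal (H := K) z = 1 :=
    e.injective ((hz (e.toMonoidHom.comp MulAut.conjNormal)).trans (map_one e).symm)
  intro u hu
  have := congrArg (fun f : MulAut K => (f ⟨u, hu⟩ : G)) key
  simpa [mul_inv_eq_iff_eq_mul] using this

theorem chi_sq {G : Type*} [Group G] {z : G}
    (hz : z ∈ Subgroup.closure (Set.range fun g : G => g * g)) (χ : G →* ℤˣ) : χ z = 1 := by
  have key : Subgroup.closure (Set.range fun g : G => g * g) ≤ χ.ker := by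
    rw [Subgroup.closure_le]
    rintro _ ⟨g, rfl⟩
    rw [SetLike.mem_coe, MonoidHom.mem_ker, map_mul, Int.units_mul_self]
  exact key hz

theorem not_bad {G : Type*} [Group G] [Finite G] (K : Subgroup G) {z : G}
    (h : ∀ u ∈ K, z * u = u * z) : ¬ (Nat.card K = 3 ∧ ∀ u ∈ K, z * u * z⁻¹ = u⁻¹) := by
  rintro ⟨h3, k⟩
  have : Nontrivial K := Finite.one_lt_card_iff_nontrivial.1 (by omega)
  obtain ⟨u, hu⟩ := exists_ne (1 : K)
  refine hu (eq_one_of_sq (by rw [h3]; decide) (Subtype.ext ?_))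
  rw [Subgroup.coe_inv, ← k u u.2, h u u.2, mul_inv_cancel_right]

theorem lift_facts {G Q : Type*} [Group G] [Finite G] [Group Q] (π : G →* Q)
    (hπ : Function.Surjective π) (K : Subgroup G) [K.Normal] (hK : K ≤ π.ker) :
    ∃ π' : G ⧸ K →* Q, Function.Surjective π' ∧ (∀ g, π' (QuotientGroup.mk' K g) = π g) ∧
      Nat.card π.ker = Nat.card K * Nat.card π'.ker := by
  have hs : Function.Surjective (QuotientGroup.lift K π hK) := fun q => by
    obtain ⟨g, rfl⟩ := hπ q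
    exact ⟨QuotientGroup.mk g, rfl⟩
  refine ⟨QuotientGroup.lift K π hK, hs, fun _ => rfl, ?_⟩
  have h1 := card_ker π hπ
  have h2 := card_ker _ hs
  have h3 := Subgroup.card_eq_card_quotient_mul_card_subgroup K
  have : Finite Q := Finite.of_surjective π hπ
  refine Nat.eq_of_mul_eq_mul_right (Nat.card_pos (α := Q)) ?_
  rw [← h1, h3, h2]; ring

theorem layer_sq_aux {Q : Type*} [Group Q] [Finite Q] (h3 : 3 ≤ Nat.card Q) (n : ℕ) :
    ∀ (G : Type u) [Group G] [Finite G], Nat.card G ≤ n → ∀ π : G →* Q,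
      Group.IsSolvable π.ker → Function.Surjective π → Odd (Nat.card π.ker) → ∀ z : G, z * z = 1 →
      (∀ χ : G →* ℤˣ, χ z = 1) → π z ≠ 1 → SC Q (π z) → SC G z := by
  induction n with
  | zero => intro G _ _ h; exact absurd (Nat.card_pos (α := G)) (by omega)
  | succ n ih =>
    intro G _ _ h π hv hπ ho z hz hs h1 hQ
    by_cases h0 : π.ker = ⊥
    · have := hQ.equiv (MulEquiv.ofBijective π ⟨(MonoidHom.ker_eq_bot_iff π).1 h0, hπ⟩).symm
      rwa [← MulEquiv.ofBijective_apply π ⟨(MonoidHom.ker_eq_bot_iff π).1 h0, hπ⟩,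
        MulEquiv.symm_apply_apply] at this
    obtain ⟨p, hp, K, k1, k2, k3, -, k4⟩ := exists_normal_p' _ π.ker inferInstance hv le_rfl h0
    obtain ⟨π', a1, a2, a3⟩ := lift_facts π hπ K k2
    have hv' : Group.IsSolvable π'.ker := by
      refine Group.isSolvable_of_surjective (G := π.ker)
        (f := ((QuotientGroup.mk' K).comp π.ker.subtype).codRestrict π'.ker fun u => ?_) ?_
      · exact (a2 u).trans u.2
      · rintro ⟨q, hq⟩
        obtain ⟨g, rfl⟩ := QuotientGroup.mk'_surjective K q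
        exact ⟨⟨g, (a2 g).symm.trans hq⟩, rfl⟩
    have c1 := Subgroup.card_eq_card_quotient_mul_card_subgroup K
    have c2 : 1 < Nat.card K := (Subgroup.one_lt_card_iff_ne_bot K).2 k3
    have c3 := Nat.card_pos (α := G ⧸ K)
    have hp2 : p ≠ 2 := by
      rintro rfl
      have := (Subgroup.nontrivial_iff_ne_bot K).2 k3
      obtain ⟨u, hu⟩ := exists_ne (1 : K)
      exact hu (eq_one_of_sq (Nat.odd_mul.1 (a3 ▸ ho)).1
        (Subtype.ext (eq_inv_of_mul_eq_one_left (by rw [← sq]; exact k4 u u.2))))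
    exact layer_quot K hp hp2 (pgroup_of_pow k4) hz (fun k => h1 (k2 k))
      (ih (G ⧸ K) (by nlinarith) π' hv' a1 (Nat.odd_mul.1 (a3 ▸ ho)).2 _ (by rw [← map_mul, hz, map_one])
        (fun χ => hs (χ.comp (QuotientGroup.mk' K)))
        (by rwa [a2]) (by rwa [a2])) (fun k => not_bad K (sq_central K k.1 hs) k)
      (Or.inr (h3.trans (Nat.card_le_card_of_surjective π' a1)))

/-- Lifting a closed sequencing over an odd kernel when the involution is a product of squares. -/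
theorem layer_sq {G Q : Type*} [Group G] [Finite G] [Group.IsSolvable G] [Group Q] [Finite Q]
    (π : G →* Q) (hπ : Function.Surjective π) (ho : Odd (Nat.card π.ker)) {z : G} (hz : z * z = 1)
    (hs : z ∈ Subgroup.closure (Set.range fun g : G => g * g)) (h1 : π z ≠ 1)
    (h3 : 3 ≤ Nat.card Q) (h : SC Q (π z)) : SC G z :=
  layer_sq_aux h3 _ G le_rfl π inferInstance hπ ho z hz (chi_sq hs) h1 h

theorem lift_invol {G Q : Type*} [Group G] [Finite G] [Group Q] (π : G →* Q)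
    (hπ : Function.Surjective π) (ho : Odd (Nat.card π.ker)) {w : Q} (hw : w * w = 1) :
    ∃ z, z * z = 1 ∧ π z = w := by
  obtain ⟨g, rfl⟩ := hπ w
  obtain ⟨m, hm⟩ := ho
  have h1 : g * g ∈ π.ker := by rw [MonoidHom.mem_ker, map_mul, hw]
  have h2 : (g * g) ^ (2 * m + 1) = 1 := by
    rw [← hm]
    exact congrArg Subtype.val (pow_card_eq_one' (x := (⟨_, h1⟩ : π.ker)))
  refine ⟨g ^ (2 * m + 1), by rw [← (Commute.refl g).mul_pow, h2], ?_⟩
  rw [map_pow, pow_succ, pow_mul, sq, hw, one_pow, one_mul]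

theorem chi_lift {G Q : Type*} [Group G] [Finite G] [Group Q] (π : G →* Q)
    (hπ : Function.Surjective π) (ho : Odd (Nat.card π.ker)) {z : G}
    (h : ∀ χ : Q →* ℤˣ, χ (π z) = 1) (χ : G →* ℤˣ) : χ z = 1 := by
  have hk : π.ker ≤ χ.ker := fun u hu => by
    obtain ⟨m, hm⟩ := ho
    have h2 : u ^ (2 * m + 1) = 1 := by
      rw [← hm]
      exact congrArg Subtype.val (pow_card_eq_one' (x := (⟨_, hu⟩ : π.ker)))
    have := congrArg χ h2
    rwa [map_pow, pow_succ, pow_mul, Int.units_sq, one_pow, one_mul, map_one] at this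
  have := h (π.liftOfRightInverse _ (Function.rightInverse_surjInv hπ) ⟨χ, hk⟩)
  rwa [MonoidHom.liftOfRightInverse_comp_apply] at this

/-- A closed sequencing ending in an involution that is killed by every sign character. -/
def SCe (G : Type*) [Group G] [Finite G] : Prop :=
  ∃ z : G, z ^ 2 = 1 ∧ z ≠ 1 ∧ (∀ χ : G →* ℤˣ, χ z = 1) ∧ SC G z

theorem layer_e {G Q : Type*} [Group G] [Finite G] [Group.IsSolvable G] [Group Q] [Finite Q]
    (π : G →* Q) (hπ : Function.Surjective π) (ho : Odd (Nat.card π.ker)) (h : SCe Q) : SCe G := by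
  obtain ⟨w, h1, h2, h3, h4⟩ := h
  obtain ⟨z, hz, rfl⟩ := lift_invol π hπ ho (w := w) (by rwa [← sq])
  have h5 := chi_lift π hπ ho h3
  refine ⟨z, by rwa [sq], fun e => h2 (by rw [e, map_one]), h5,
    layer_sq_aux ?_ _ G le_rfl π inferInstance hπ ho z hz h5 h2 h4⟩
  by_contra k
  have : Nontrivial Q := ⟨⟨_, _, h2⟩⟩
  have := Finite.one_lt_card (α := Q)
  let e : Q ≃* ℤˣ := mulEquivOfPrimeCardEq (p := 2) (by omega) (by simp)
  exact h2 (e.injective ((h3 e.toMonoidHom).trans (map_one e).symm))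

theorem layer_e_quot {G : Type*} [Group G] [Finite G] [Group.IsSolvable G] (O : Subgroup G)
    [O.Normal] (ho : Odd (Nat.card O)) (h : SCe (G ⧸ O)) : SCe G :=
  layer_e (QuotientGroup.mk' O) (QuotientGroup.mk'_surjective O)
    (by rwa [QuotientGroup.ker_mk']) h

end Pool.Agent.SQC

end MrgPart1

-- ======== part 2: formerly Pool.Agent.MP_f56020_al.s2.T6E
section MrgPart2

namespace Pool.Agent.SQ2

open Pool.Agent.SQ Multiset

universe u

section count

theorem t6e_card_st {α : Type*} [Finite α] (p : α → Prop) : card (st p) = Nat.card {a // p a} := by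
  unfold st
  rw [← Finset.card_def, ← Set.ncard_eq_toFinset_card]
  rfl

theorem t6e_countP {α : Type*} [Finite α] (p q : α → Prop) [DecidablePred p] :
    countP p (st q) = card (st fun a => q a ∧ p a) := by
  rw [countP_eq_card_filter]
  exact congrArg card (eq_st ((nodup_st q).filter p) fun a => by simp)

theorem t6e_card_ne {α : Type*} [Finite α] (p : α → Prop) {a : α} (ha : p a) :
    card (st fun b => p b ∧ b ≠ a) + 1 = card (st p) := by
  have h : st (fun b => p b ∧ b ≠ a) + st (· = a) = st p :=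
    st_add (fun b hb => hb.2) fun b => by
      by_cases e : b = a
      · simp [e, ha]
      · simp [e]
  rw [← h, ← single_eq_st]
  simp

/-- The count of the steps of a walk by the sides of their ends. -/
theorem t6e_count {G : Type*} [Group G] {x y : G} {A : Multiset (G × G)} (hw : Wk x y A)
    (P S B : G → Prop) [DecidablePred P] [DecidablePred S] [DecidablePred B]
    (hS : ∀ e ∈ A, S (e.1⁻¹ * e.2) ↔ (P e.1 ↔ P e.2))
    (hB : ∀ e ∈ A, P e.1 → P e.2 → B (e.1⁻¹ * e.2)) :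
    2 * countP S (lb A) + countP (fun g => ¬ S g) (lb A) + (if P x then 1 else 0) ≤
      2 * countP B (lb A) + 2 * countP (fun g => ¬ P g) (hd A) + (if P y then 1 else 0) := by
  induction hw with
  | nil x => simp
  | @cons x y z A h ih =>
    have ih' := ih (fun e he => hS e (mem_add.2 (Or.inr he)))
      (fun e he => hB e (mem_add.2 (Or.inr he)))
    have h1 := hS (x, y) (by simp)
    have h2 := hB (x, y) (by simp)
    rw [lb_add, hd_add, lb_one, hd_one, singleton_add, singleton_add, countP_cons, countP_cons,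
      countP_cons, countP_cons]
    by_cases p1 : P x <;> by_cases p2 : P y <;> by_cases p3 : B (x⁻¹ * y) <;>
      simp only [p1, p2, p3, h1, if_true, if_false, not_true, not_false_iff, iff_self, iff_true,
        iff_false, forall_const] at ih' h2 ⊢ <;> omega

end count

section trade
variable {G : Type*} {x y a b c d : G} {A N : Multiset (G × G)}

/-- A trade that closes up can be made on an open walk. -/
theorem t6e_open (hw : Wk x y A) (h1 : (a, b) ∈ A) (h2 : (c, d) ∈ A) (hne : (a, b) ≠ (c, d))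
    (hN : ∀ A1 A2, Wk b c A1 → Wk d a A2 → Cl (A1 + A2 + N)) :
    ∃ A0, A = {(a, b)} + {(c, d)} + A0 ∧ Wk x y (A0 + N) := by
  obtain ⟨A3, rfl⟩ := exists_cons_of_mem h1
  obtain ⟨A0, rfl⟩ := exists_cons_of_mem ((mem_cons.1 h2).resolve_left hne.symm)
  have e : (a, b) ::ₘ (c, d) ::ₘ A0 = {(a, b)} + {(c, d)} + A0 := by
    rw [add_assoc, singleton_add, singleton_add]
  rw [e] at hw
  refine ⟨A0, e, ?_⟩
  obtain ⟨A1, A2, k1, k2, k3⟩ := hw.close.cut2 (a := a) (b := b) (c := c) (d := d)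
    (by simp) (by simp) hne
  have k4 : A1 + A2 = {(y, x)} + A0 := by
    apply add_left_cancel (a := ({(a, b)} + {(c, d)} : Multiset (G × G)))
    rw [← add_assoc, ← k3]
    abel
  exact Cl.cut' ((hN A1 A2 k1 k2).cast (by rw [k4, add_assoc]))

end trade

variable {G : Type u} [Group G] [Finite G] [Group.IsSolvable G]

omit [Group.IsSolvable G] in
/-- The lift with prescribed points. -/
theorem t6e_lift {W : Type*} [Group W] [Finite W] {M K : Subgroup G} {ψ : G → W} (q : Quo M K ψ)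
    {c : ℕ → W → W} (hc : FibC c 4) {τ : ℕ → G} {X Y : Multiset G} (h : Fr M τ 4 X Y)
    (t : ℕ → G) (ht : t 4 = t 0) (h1 : ∀ j ≤ 4, t j * (τ j)⁻¹ ∈ M ∧ ψ (t j * (τ j)⁻¹) ≠ 1)
    (e1 : c 1 (ψ (t 1 * (τ 1)⁻¹)) = ψ (t 2 * (τ 2)⁻¹))
    (e3 : c 3 (ψ (t 3 * (τ 3)⁻¹)) = ψ (t 4 * (τ 4)⁻¹)) :
    ∃ L, Cl L ∧ card L = 4 * (Nat.card W - 1) ∧ cv K (sgm τ 0 4 + L) = X ∧
      cl K (sgm τ 0 4 + L) = Y ∧ (t 1, t 2) ∈ L ∧ (t 3, t 4) ∈ L ∧ ∃ b, (t 0, b) ∈ L := by
  classical
  obtain ⟨s, s1, hs⟩ := q.sec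
  obtain ⟨L, k1, k2, k3, k4, k5⟩ := liftW q hc (by norm_num) h
    (fun j w => if w = ψ (t j * (τ j)⁻¹) then t j else s w * τ j)
    (fun j hj w => by
      by_cases e : w = ψ (t j * (τ j)⁻¹)
      · simp only [if_pos e]
        exact ⟨(h1 j hj).1, e.symm⟩
      · simp only [if_neg e, mul_inv_cancel_right]
        exact hs w)
    (fun j hj => by simp only [if_neg (h1 j hj).2.symm, s1, one_mul])
    (by funext w; simp only [ht, h.cy])
  refine ⟨L, k1, k2, k3, k4, ?_, ?_, ?_⟩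
  · simpa [e1] using k5 1 (by norm_num) _ (h1 1 (by norm_num)).2
  · simpa [e3] using k5 3 (by norm_num) _ (h1 3 (by norm_num)).2
  · have := k5 0 (by norm_num) _ (h1 0 (by norm_num)).2
    rw [if_pos rfl] at this
    exact ⟨_, this⟩

omit [Finite G] [Group.IsSolvable G] in
/-- Avoiding two values of each of two functionals. -/
theorem t6e_avoid {M : Subgroup G} {p : ℕ} (hp : p.Prime) (h5 : 5 ≤ p)
    (α β : G → Multiplicative (ZMod p)) (hα : ∀ a ∈ M, ∀ b ∈ M, α (a * b) = α a * α b)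
    (hβ : ∀ a ∈ M, ∀ b ∈ M, β (a * b) = β a * β b) (sα : ∃ a ∈ M, α a ≠ 1)
    (sβ : ∃ a ∈ M, β a ≠ 1) (a1 a2 b1 b2 : Multiplicative (ZMod p)) :
    ∃ u ∈ M, α u ≠ a1 ∧ α u ≠ a2 ∧ β u ≠ b1 ∧ β u ≠ b2 := by
  have : Fact p.Prime := ⟨hp⟩
  obtain ⟨v, hv, v1, v2⟩ : ∃ v ∈ M, α v ≠ 1 ∧ β v ≠ 1 := by
    obtain ⟨a, ha, a'⟩ := sα
    obtain ⟨b, hb, b'⟩ := sβ
    by_cases e1 : β a = 1
    · by_cases e2 : α b = 1
      · exact ⟨a * b, M.mul_mem ha hb, by rwa [hα a ha b hb, e2, mul_one],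
          by rwa [hβ a ha b hb, e1, one_mul]⟩
      · exact ⟨b, hb, e2, b'⟩
    · exact ⟨a, ha, a', e1⟩
  have pw : ∀ γ : G → Multiplicative (ZMod p), (∀ a ∈ M, ∀ b ∈ M, γ (a * b) = γ a * γ b) →
      ∀ n : ℕ, (γ (v ^ n)).toAdd = n * (γ v).toAdd := by
    intro γ hγ n
    induction n with
    | zero =>
      have := hγ 1 M.one_mem 1 M.one_mem
      rw [mul_one, left_eq_mul] at this
      simp [this]
    | succ n ih => rw [pow_succ, hγ _ (M.pow_mem hv n) _ hv, toAdd_mul, ih]; push_cast; ring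
  have z1 : (α v).toAdd ≠ 0 := v1
  have z2 : (β v).toAdd ≠ 0 := v2
  obtain ⟨n, hn⟩ : ∃ n : ZMod p, n ∉ ({a1.toAdd / (α v).toAdd, a2.toAdd / (α v).toAdd,
      b1.toAdd / (β v).toAdd, b2.toAdd / (β v).toAdd} : Finset (ZMod p)) := by
    by_contra hcon
    push Not at hcon
    have := Finset.card_le_card (s := Finset.univ) fun n _ => hcon n
    have h4 := this.trans Finset.card_le_four
    rw [Finset.card_univ, ZMod.card] at h4
    omega
  simp only [Finset.mem_insert, Finset.mem_singleton, not_or] at hn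
  obtain ⟨n1, n2, n3, n4⟩ := hn
  have kα := pw α hα n.val
  have kβ := pw β hβ n.val
  rw [ZMod.natCast_zmod_val] at kα kβ
  refine ⟨v ^ n.val, M.pow_mem hv _, fun e => n1 ?_, fun e => n2 ?_, fun e => n3 ?_,
    fun e => n4 ?_⟩
  · rw [← e, kα, mul_div_cancel_right₀ _ z1]
  · rw [← e, kα, mul_div_cancel_right₀ _ z1]
  · rw [← e, kβ, mul_div_cancel_right₀ _ z2]
  · rw [← e, kβ, mul_div_cancel_right₀ _ z2]

omit [Group.IsSolvable G] in
/-- An inner step on a prescribed side whose label is not killed by the functional. -/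
theorem t6e_step {M K H : Subgroup G} [M.Normal] (hle : M ≤ H) {z : G} (hz : z ∈ H) (hz' : z ∉ M)
    (h2 : ∀ a ∈ H, ∀ b ∈ H, a ∉ M → b ∉ M → a⁻¹ * b ∈ M) {W : Type*} [Group W] {ψ : G → W}
    (q : Quo M K ψ) (h5 : 5 ≤ Nat.card W) {x y : G} {A : Multiset (G × G)} (hw : Wk x y A)
    (hh : hd A ≤ st (· ∈ H)) (hl : lb A = nz H) (γ : G) (P : G → Prop)
    (hP : (∀ g, P g ↔ g ∈ M) ∨ ∀ g, P g ↔ g ∉ M) :
    ∃ a ∈ H, ∃ e ∈ M, P a ∧ (a, a * e) ∈ A ∧ ψ (γ * e * γ⁻¹) ≠ 1 := by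
  classical
  have nM : M.Normal := inferInstance
  have mem : ∀ e ∈ A, e.1 ∈ H ∧ e.2 ∈ H := fun e he => by
    have k2 : e.2 ∈ H := mem_st.1 (mem_of_le hh (mem_map_of_mem _ he))
    have k1 : e.1⁻¹ * e.2 ∈ nz H := hl ▸ mem_map_of_mem (fun e : G × G => e.1⁻¹ * e.2) he
    have := H.mul_mem k2 (H.inv_mem (mem_st.1 k1).1)
    exact ⟨by simpa using this, k2⟩
  have side : ∀ e ∈ A, e.1⁻¹ * e.2 ∈ M ↔ (e.1 ∈ M ↔ e.2 ∈ M) := fun e he => by
    constructor
    · intro k
      exact ⟨fun k1 => by simpa using M.mul_mem k1 k,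
        fun k1 => by simpa using M.mul_mem k1 (M.inv_mem k)⟩
    · intro k
      by_cases k1 : e.1 ∈ M
      · exact M.mul_mem (M.inv_mem k1) (k.1 k1)
      · exact h2 _ (mem e he).1 _ (mem e he).2 k1 fun k2 => k1 (k.2 k2)
  have hS : ∀ e ∈ A, e.1⁻¹ * e.2 ∈ M ↔ (P e.1 ↔ P e.2) := fun e he => by
    rw [side e he]
    rcases hP with hP | hP
    · rw [hP, hP]
    · rw [hP, hP, not_iff_not]
  by_contra hcon
  have hB : ∀ e ∈ A, P e.1 → P e.2 →
      e.1⁻¹ * e.2 ∈ M ∧ ψ (γ * (e.1⁻¹ * e.2) * γ⁻¹) = 1 := fun e he p1 p2 => by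
    have k := (hS e he).2 (iff_of_true p1 p2)
    refine ⟨k, by_contra fun k' => hcon ⟨e.1, (mem e he).1, _, k, p1, ?_, k'⟩⟩
    simpa using he
  have cnt := t6e_count hw P (· ∈ M) (fun g => g ∈ M ∧ ψ (γ * g * γ⁻¹) = 1) hS hB
  have cM : card (st (· ∈ M)) = Nat.card M := t6e_card_st _
  have cK : card (st (· ∈ K)) = Nat.card K := t6e_card_st _
  have cO : card (st fun g => g ∈ H ∧ g ∉ M) = Nat.card M := by
    rw [← cM, ← map_st (p := (· ∈ M)) (f := (z * ·)) (mul_right_injective z) fun b =>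
      ⟨fun hb => ⟨z⁻¹ * b, h2 z hz b hb.1 hz' hb.2, by simp⟩, ?_⟩, card_map]
    rintro ⟨a, ha, rfl⟩
    exact ⟨H.mul_mem hz (hle ha), fun k => hz' (by simpa using M.mul_mem k (M.inv_mem ha))⟩
  have cB : card (st fun g => g ∈ M ∧ ψ (γ * g * γ⁻¹) = 1) = Nat.card K := by
    rw [← cK, ← map_st (p := fun g => g ∈ M ∧ ψ (γ * g * γ⁻¹) = 1) (r := (· ∈ K))
      (f := fun g => γ * g * γ⁻¹) (fun a b hab => by simpa using hab) fun b =>
      ⟨fun hb => ⟨γ⁻¹ * b * γ, ⟨by simpa using nM.conj_mem _ ((q.ker b).1 hb).1 γ⁻¹, ?_⟩,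
        by group⟩, ?_⟩, card_map]
    · rw [show γ * (γ⁻¹ * b * γ) * γ⁻¹ = b by group]
      exact ((q.ker b).1 hb).2
    · rintro ⟨a, ha, rfl⟩
      exact (q.ker _).2 ⟨nM.conj_mem _ ha.1 γ, ha.2⟩
  have c1 : countP (· ∈ M) (lb A) + 1 = Nat.card M := by
    rw [hl, nz, t6e_countP, ← cM, ← t6e_card_ne (· ∈ M) M.one_mem]
    exact congrArg (fun m => card m + 1) (st_congr fun a =>
      ⟨fun k => ⟨k.2, k.1.2⟩, fun k => ⟨⟨hle k.1, k.2⟩, k.1⟩⟩)
  have c2 : countP (fun g => ¬ g ∈ M) (lb A) = Nat.card M := by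
    rw [hl, nz, t6e_countP, ← cO]
    exact congrArg card (st_congr fun a =>
      ⟨fun k => ⟨k.1.1, k.2⟩, fun k => ⟨⟨k.1, fun e => k.2 (e ▸ M.one_mem)⟩, k.2⟩⟩)
  have c3 : countP (fun g => g ∈ M ∧ ψ (γ * g * γ⁻¹) = 1) (lb A) + 1 = Nat.card K := by
    rw [hl, nz, t6e_countP, ← cB, ← t6e_card_ne (fun g => g ∈ M ∧ ψ (γ * g * γ⁻¹) = 1) (a := 1)
      ⟨M.one_mem, by simpa using q.one⟩]
    exact congrArg (fun m => card m + 1) (st_congr fun a =>
      ⟨fun k => ⟨k.2, k.1.2⟩, fun k => ⟨⟨hle k.1.1, k.2⟩, k.1⟩⟩)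
  have c4 : countP (fun g => ¬ P g) (hd A) ≤ Nat.card M := by
    refine (countP_le_of_le _ hh).trans ?_
    rw [t6e_countP]
    rcases hP with hP | hP
    · rw [← cO]
      exact (congrArg card (st_congr fun a => by rw [hP])).le
    · rw [← cM]
      exact (congrArg card (st_congr fun a => by
        rw [hP, not_not]
        exact ⟨fun k => k.2, fun k => ⟨hle k, k⟩⟩)).le
  have c5 : Nat.card K * 5 ≤ Nat.card M := q.card ▸ Nat.mul_le_mul_left _ h5
  have c6 : (if P y then 1 else 0) ≤ 1 := by split_ifs <;> omega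
  omega

theorem t6e {M K H : Subgroup G} {φ : G → ZMod 3 × ZMod 2} (h : Mod M (mc 3 2 2 0) 0 φ)
    (hH : ∀ g, g ∈ H ↔ (φ g).1 = 0) {p : ℕ} (hp : p.Prime) (h5 : 5 ≤ p)
    {ψ : G → Multiplicative (ZMod p)} (q : Quo M K ψ)
    (hK : Odd (Nat.card K) ∨ (K ≠ ⊥ ∧ Fib K 4 ∧ Fib K (4 * (p - 1)))) {x y : G}
    {A : Multiset (G × G)} (hw : Wk x y A) (hx : x ∈ H) (hh : hd A ≤ st (· ∈ H))
    (hl : lb A = nz H) : ∃ A', Wk x y A' ∧ hd A' = hd A + ou H ∧ lb A' = lb A + ou H := by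
  have : Fact p.Prime := ⟨hp⟩
  have nM : M.Normal := h.normal
  have cW : Nat.card (Multiplicative (ZMod p)) = p := by simp
  have hle : M ≤ H := fun g hg => (hH g).2 (by rw [(h.ker g).1 hg]; rfl)
  have o01 : ∀ a ∈ H, a ∉ M → φ a = (0, 1) := fun a ha ha' => by
    have k1 := (hH a).1 ha
    have k2 : φ a ≠ 0 := fun e => ha' ((h.ker a).2 e)
    revert k1 k2
    generalize φ a = d
    revert d
    decide
  have h2 : ∀ a ∈ H, ∀ b ∈ H, a ∉ M → b ∉ M → a⁻¹ * b ∈ M := fun a ha b hb ha' hb' => by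
    rw [h.ker, h.map_mul, h.inv (x := (0, 1)) (by rw [o01 a ha ha']; decide), o01 b hb hb']
    decide
  obtain ⟨z, ez⟩ := h.surj (0, 1)
  obtain ⟨X, eX⟩ := h.surj (1, 1)
  obtain ⟨Y, eY⟩ := h.surj (2, 0)
  obtain ⟨g, eg⟩ := h.surj (2, 1)
  have hz : z ∈ H := (hH z).2 (by rw [ez])
  have hz' : z ∉ M := fun k => by
    rw [h.ker, ez] at k
    exact absurd k (by decide)
  obtain ⟨a, -, e, he, ha, s0, ne⟩ := t6e_step hle hz hz' h2 q (cW.symm ▸ h5) hw hh hl g (· ∈ M)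
    (Or.inl fun _ => Iff.rfl)
  obtain ⟨b, hb, f, hf, hb', s1, nf⟩ := t6e_step hle hz hz' h2 q (cW.symm ▸ h5) hw hh hl Y (· ∉ M)
    (Or.inr fun _ => Iff.rfl)
  obtain ⟨P, hP⟩ : ∃ P, P = Y * f⁻¹ * b⁻¹ := ⟨_, rfl⟩
  have ea : φ a = 0 := (h.ker a).1 ha
  have ee : φ e = 0 := (h.ker e).1 he
  have ef : φ f⁻¹ = 0 := (h.ker _).1 (M.inv_mem hf)
  have eb : φ b⁻¹ = (0, 1) := h.inv (by rw [o01 b hb hb']; decide)
  have eP : φ P = (2, 1) := by rw [hP, h.map_mul, h.map_mul, eY, ef, eb]; decide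
  have eP' : φ P⁻¹ = (2, 1) := h.inv (by rw [eP]; decide)
  have ePa : φ (P⁻¹ * a) = (2, 1) := by rw [h.map_mul, eP', ea]; decide
  have ePae : φ (P⁻¹ * a * e) = (2, 1) := by rw [h.map_mul, ePa, ee]; decide
  have ePX : φ (P * X) = (1, 0) := by rw [h.map_mul, eP, eX]; decide
  have eYf : φ (Y * f⁻¹) = (2, 0) := by rw [h.map_mul, eY, ef]; decide
  have hPP : P * P ∈ M := by rw [h.ker, h.map_mul, eP]; decide
  have n3 : ψ (Y * f⁻¹ * Y⁻¹) ≠ 1 := by
    rw [show Y * f⁻¹ * Y⁻¹ = (Y * f * Y⁻¹)⁻¹ by group, q.inv (nM.conj_mem _ hf Y)]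
    simpa using nf
  have n5 : ψ (P⁻¹ * a * (P⁻¹ * a * e)⁻¹) ≠ 1 := by
    have k : P⁻¹ * a * g⁻¹ ∈ M := h.mem_iff.2 (ePa.trans eg.symm)
    have k' : g * e * g⁻¹ ∈ M := nM.conj_mem _ he g
    rw [show P⁻¹ * a * (P⁻¹ * a * e)⁻¹ =
      P⁻¹ * a * g⁻¹ * (g * e * g⁻¹)⁻¹ * (P⁻¹ * a * g⁻¹)⁻¹ by group,
      q.mul _ (M.mul_mem k (M.inv_mem k')) _ (M.inv_mem k), q.mul _ k _ (M.inv_mem k'), q.inv k,
      q.inv k', mul_inv_cancel_comm]
    simpa using ne
  obtain ⟨u, hu, u1, u2, u3, u4⟩ := t6e_avoid (M := M) hp h5 ψ (fun v => ψ (P * v * P⁻¹)) q.mul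
    (fun v hv w hw => by
      rw [← q.mul _ (nM.conj_mem _ hv P) _ (nM.conj_mem _ hw P)]
      congr 1
      group)
    ⟨_, nM.conj_mem _ hf Y, nf⟩
    ⟨P⁻¹ * (Y * f * Y⁻¹) * P, by simpa using nM.conj_mem _ (nM.conj_mem _ hf Y) P⁻¹, by
      rwa [show P * (P⁻¹ * (Y * f * Y⁻¹) * P) * P⁻¹ = Y * f * Y⁻¹ by group]⟩
    1 (ψ (P⁻¹ * a * (P⁻¹ * a * e)⁻¹)) (ψ (P * P))⁻¹ (ψ (Y * f⁻¹ * Y⁻¹) * (ψ (P * P))⁻¹)
  have hv : P * u * P ∈ M := by
    rw [show P * u * P = P * u * P⁻¹ * (P * P) by group]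
    exact M.mul_mem (nM.conj_mem _ hu P) hPP
  have ev : ψ (P * u * P) = ψ (P * u * P⁻¹) * ψ (P * P) := by
    rw [← q.mul _ (nM.conj_mem _ hu P) _ hPP]
    congr 1
    group
  have v1 : ψ (P * u * P) ≠ 1 := fun k => u3 (eq_inv_of_mul_eq_one_left (ev ▸ k))
  have v2 : ψ (P * u * P) ≠ ψ (Y * f⁻¹ * Y⁻¹) := fun k => u4 (by rw [← k, ev]; simp)
  obtain ⟨Z, hZ⟩ : ∃ Z, Z = u * (P * X) := ⟨_, rfl⟩
  have eZ : φ Z = (1, 0) := by rw [hZ, h.map_mul, (h.ker u).1 hu, ePX]; decide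
  have ePZ : φ (P * Z) = (1, 1) := by rw [h.map_mul, eP, eZ]; decide
  have z3 : (ψ (Y * f⁻¹ * Y⁻¹)).toAdd ≠ 0 := n3
  have z5 : (ψ (P⁻¹ * a * (P⁻¹ * a * e)⁻¹)).toAdd ≠ 0 := n5
  obtain ⟨c, hc, c1, c3⟩ := fib_flex hp h5
    (l1 := (ψ (P * u * P)).toAdd / (ψ (Y * f⁻¹ * Y⁻¹)).toAdd)
    (l3 := (ψ u).toAdd / (ψ (P⁻¹ * a * (P⁻¹ * a * e)⁻¹)).toAdd)
    (div_ne_zero v1 z3) (fun k => v2 ((div_eq_one_iff_eq z3).1 k))
    (div_ne_zero u1 z5) (fun k => u2 ((div_eq_one_iff_eq z5).1 k))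
  obtain ⟨σ, hσ, eσ⟩ := h.fr (H := H) (B := fun d => decide (d.1 = 0)) (fun g => by simp [hH])
    (l := [(1, 0), (2, 0), (1, 1), (2, 1)]) (lab := [(1, 0), (2, 1), (2, 0), (1, 1)])
    (FrD.of (by decide)) (by simp)
  obtain ⟨τ, t0, t1, t2, t3, t4⟩ : ∃ τ : ℕ → G, τ 0 = P * X ∧ τ 1 = Y ∧ τ 2 = X ∧
      τ 3 = P⁻¹ * a * e ∧ τ 4 = P * X :=
    ⟨fun j => [P * X, Y, X, P⁻¹ * a * e].getD j (P * X), rfl, rfl, rfl, rfl, rfl⟩
  obtain ⟨t, r0, r1, r2, r3, r4⟩ : ∃ t : ℕ → G, t 0 = Z ∧ t 1 = Y * f⁻¹ ∧ t 2 = P * Z ∧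
      t 3 = P⁻¹ * a ∧ t 4 = Z :=
    ⟨fun j => [Z, Y * f⁻¹, P * Z, P⁻¹ * a].getD j Z, rfl, rfl, rfl, rfl, rfl⟩
  have hτ : Fr M τ 4 (ou H) (ou H) := by
    refine Fr.congr (m := 4) hσ (fun j hj => h.mem_iff.2 ?_) (t4.trans t0.symm)
    rw [eσ]
    interval_cases j
    · rw [t0, ePX]; rfl
    · rw [t1, eY]; rfl
    · rw [t2, eX]; rfl
    · rw [t3, ePae]; rfl
    · rw [t4, ePX]; rfl
  have w0 : Z * (P * X)⁻¹ = u := by rw [hZ]; group
  have w2 : P * Z * X⁻¹ = P * u * P := by rw [hZ]; group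
  obtain ⟨L, cL, kL, hv1, hl1, s3, s5, d, s6⟩ := t6e_lift q hc hτ t (r4.trans r0.symm)
    (fun j hj => by
      interval_cases j
      · rw [r0, t0, w0]; exact ⟨hu, u1⟩
      · rw [r1, t1]; exact ⟨h.mem_iff.2 (eYf.trans eY.symm), n3⟩
      · rw [r2, t2, w2]; exact ⟨hv, v1⟩
      · rw [r3, t3]; exact ⟨h.mem_iff.2 (ePa.trans ePae.symm), n5⟩
      · rw [r4, t4, w0]; exact ⟨hu, u1⟩)
    (by rw [r1, t1, r2, t2, w2, c1, div_mul_cancel₀ _ z3]; rfl)
    (by rw [r3, t3, r4, t4, w0, c3, div_mul_cancel₀ _ z5]; rfl)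
  rw [r1, r2] at s3
  rw [r3, r4] at s5
  rw [r0] at s6
  rw [cW] at kL
  rw [cv_add] at hv1
  rw [cl_add] at hl1
  have cS : Cl (sgm τ 0 4) := cl_sgm hτ.cy
  have s2 : (P * X, Y) ∈ sgm τ 0 4 := by
    simpa only [zero_add, t0, t1] using mem_sgm τ (m := 4) (j := 0) (by norm_num)
  have s4 : (X, P⁻¹ * a * e) ∈ sgm τ 0 4 := by
    simpa only [Nat.reduceAdd, t2, t3] using mem_sgm τ (m := 4) (j := 2) (by norm_num)
  have s7 : (Y, X) ∈ sgm τ 0 4 := by
    simpa only [Nat.reduceAdd, t1, t2] using mem_sgm τ (m := 4) (j := 1) (by norm_num)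
  have dif : ∀ {r s : G} {i j : ZMod 3 × ZMod 2}, φ r = i → φ s = j → i ≠ j → r ≠ s :=
    fun e1 e2 e3 e4 => e3 (e1.symm.trans (e4 ▸ e2))
  have dif' : ∀ {r r' s s' : G} {i j : ZMod 3 × ZMod 2}, φ r = i → φ s = j → i ≠ j →
      (r, r') ≠ (s, s') := fun e1 e2 e3 e4 => dif e1 e2 e3 (Prod.mk.inj e4).1
  -- the rest `R` of the outer steps, and the new steps
  obtain ⟨R, hR, lR, cR⟩ : ∃ R : Multiset (G × G),
      {Y} + {P * Z} + {P⁻¹ * a * e} + {Z} + hd R = ou H ∧
      {(P * X)⁻¹ * Y} + {(Y * f⁻¹)⁻¹ * (P * Z)} + {X⁻¹ * (P⁻¹ * a * e)} + {(P⁻¹ * a)⁻¹ * Z} +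
        lb R = ou H ∧
      ∀ A1 A2, Wk (a * e) b A1 → Wk (b * f) a A2 → Cl (A1 + A2 + (R +
        ({(a, P * Z)} + {(P⁻¹ * a, P⁻¹ * a * e)} + {(P * X, a * e)} + {(b, Z)} +
          {(Y * f⁻¹, Y)} + {(X, b * f)}))) := by
    rcases hK with hK | ⟨hK, F1, F2⟩
    · obtain ⟨S0, -, eS⟩ := cS.cut s7
      obtain ⟨L0, -, eL⟩ := cL.cut s6
      have kS : card S0 = 3 := by
        have := card_sgm τ 0 4
        rw [eS, card_add, card_singleton] at this
        omega
      have kL0 : Odd (card L0) := by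
        rw [eL, card_add, card_singleton] at kL
        exact ⟨2 * (p - 1) - 1, by omega⟩
      rw [eS] at cS s2 s4
      rw [eL] at cL s3 s5
      obtain ⟨R1, a1, a2, a3⟩ := oneCl hK cS (by rw [kS]; decide)
      obtain ⟨R2, b1, b2, b3⟩ := oneCl hK cL kL0
      rw [← eS] at a2 a3
      rw [← eL] at b2 b3
      have inr : ∀ {s s' : G × G} {T : Multiset (G × G)} (T' : Multiset (G × G)),
          s ∈ {s'} + T → s ≠ s' → s ∈ T + T' := fun T' k k' =>
        mem_add.2 (Or.inl ((mem_add.1 k).resolve_left fun k2 => k' (mem_singleton.1 k2)))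
      obtain ⟨B1, B2, k1, k2, k3⟩ := a1.cut2 (inr R1 s2 (dif' ePX eY (by decide)))
        (inr R1 s4 (dif' eX eY (by decide))) (dif' ePX eX (by decide))
      obtain ⟨C1, C2, l1, l2, l3⟩ := b1.cut2 (inr R2 s3 (dif' eYf eZ (by decide)))
        (inr R2 s5 (dif' ePa eZ (by decide))) (dif' eYf ePa (by decide))
      refine ⟨B1 + B2 + C1 + C2, ?_, ?_, fun A1 A2 j1 j2 => ?_⟩
      · rw [← hv1, ← a2, ← b2, k3, l3]
        simp only [hd_add, hd_one]
        abel
      · rw [← hl1, ← a3, ← b3, k3, l3]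
        simp only [lb_add, lb_one]
        abel
      · exact ((((((l1.step k2).step j1).step l2).step k1).step j2).close).cast (by abel)
    · obtain ⟨S1, S2, ⟨a1, a1', a2, a3⟩, m1, m2⟩ := lift2W (by rwa [card_sgm]) hK cS s2 s4
        (dif' ePX eX (by decide)) (dif eY eX (by decide)) (dif ePae ePX (by decide))
      obtain ⟨L1, L2, ⟨b1, b1', b2, b3⟩, m3, m4⟩ := lift2W (by rwa [kL]) hK cL s3 s5
        (dif' eYf ePa (by decide)) (dif ePZ ePa (by decide)) (dif eZ eYf (by decide))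
      obtain ⟨B1, k1, rfl⟩ := a1.cut m1
      obtain ⟨B2, k2, rfl⟩ := a1'.cut m2
      obtain ⟨C1, l1, rfl⟩ := b1.cut m3
      obtain ⟨C2, l2, rfl⟩ := b1'.cut m4
      refine ⟨B1 + B2 + C1 + C2, ?_, ?_, fun A1 A2 j1 j2 => ?_⟩
      · rw [← hv1, ← a2, ← b2]
        simp only [hd_add, hd_one]
        abel
      · rw [← hl1, ← a3, ← b3]
        simp only [lb_add, lb_one]
        abel
      · exact ((((((l1.step k1).step j1).step l2).step k2).step j2).close).cast (by abel)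
  obtain ⟨A0, rfl, k⟩ := t6e_open hw s0 s1 (fun k => hb' ((Prod.mk.inj k).1 ▸ ha)) cR
  refine ⟨_, k, ?_, ?_⟩
  · rw [← hR]
    simp only [hd_add, hd_one]
    abel
  · rw [← lR]
    simp only [lb_add, lb_one]
    rw [show a⁻¹ * (P * Z) = (P⁻¹ * a)⁻¹ * Z by group,
      show (P⁻¹ * a)⁻¹ * (P⁻¹ * a * e) = a⁻¹ * (a * e) by group,
      show (P * X)⁻¹ * (a * e) = X⁻¹ * (P⁻¹ * a * e) by group,
      show b⁻¹ * Z = (Y * f⁻¹)⁻¹ * (P * Z) by rw [hP]; group,
      show (Y * f⁻¹)⁻¹ * Y = b⁻¹ * (b * f) by group,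
      show X⁻¹ * (b * f) = (P * X)⁻¹ * Y by rw [hP]; group]
    abel

/-- The form used for groups with cyclic Sylow `2`-subgroups. -/
theorem t6e_dih (π : G →* DihedralGroup 3) (hπ : Function.Surjective π)
    (ho : Odd (Nat.card π.ker)) {p : ℕ} (hp : p.Prime) (h5 : 5 ≤ p)
    (ψ : π.ker →* Multiplicative (ZMod p)) (hψ : Function.Surjective ψ)
    {x y : (Subgroup.zpowers (DihedralGroup.sr 0)).comap π}
    {V : Multiset ((Subgroup.zpowers (DihedralGroup.sr 0)).comap π)}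
    (hp : Pth ld x y V (st (· ≠ 1))) (hV : {x} + V = al _) :
    ∃ V', Pth ld (x : G) y V' (st (· ≠ 1)) ∧ {(x : G)} + V' = al G := by
  obtain ⟨φ, h, hφ⟩ := Mod.ofSec (mul := mc 3 2 2 0) (e := 0) π hπ
    (fun d : ZMod 3 × ZMod 2 => if d.2 = 0 then DihedralGroup.r d.1 else DihedralGroup.sr (-d.1))
    (by decide) (by decide) (by decide)
  obtain ⟨ψ', q, -⟩ := Quo.ofHom ψ hψ
  have hH : ∀ g, g ∈ (Subgroup.zpowers (DihedralGroup.sr 0)).comap π ↔ (φ g).1 = 0 := fun g => by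
    have k : ∀ s : DihedralGroup 3, s ∈ Subgroup.zpowers (DihedralGroup.sr 0) ↔
        s = 1 ∨ s = DihedralGroup.sr 0 := fun s => by
      constructor
      · rintro ⟨n, rfl⟩
        have k2 : (DihedralGroup.sr 0 : DihedralGroup 3) ^ (2 : ℤ) = 1 := by decide
        rcases Int.even_or_odd' n with ⟨m, rfl | rfl⟩
        · left
          simp only [zpow_mul, k2, one_zpow]
        · right
          simp only [zpow_add, zpow_mul, k2, one_zpow, one_mul, zpow_one]
      · rintro (rfl | rfl)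
        · exact one_mem _
        · exact Subgroup.mem_zpowers _
    rw [Subgroup.mem_comap, k, ← hφ]
    generalize φ g = d
    revert d
    decide
  generalize (Subgroup.zpowers (DihedralGroup.sr 0)).comap π = H at *
  obtain ⟨A, hw, rfl, hl⟩ := Wk.ofPth hp
  have e1 : {(x : G)} + hd (A.map (Prod.map H.subtype H.subtype)) = st (· ∈ H) := by
    have := congrArg (map H.subtype) hV
    rw [map_add, map_singleton, map_st (r := (· ∈ H)) H.subtype_injective fun b => by simp] at this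
    rw [← this]
    simp [hd]
  have e2 : lb (A.map (Prod.map H.subtype H.subtype)) = nz H := by
    have := congrArg (map H.subtype) hl
    rw [map_st (r := fun g => g ∈ H ∧ g ≠ 1) H.subtype_injective fun b =>
      ⟨fun k => ⟨⟨b, k.1⟩, fun e => k.2 (congrArg Subtype.val e), rfl⟩, by
        rintro ⟨a, ha, rfl⟩
        exact ⟨a.2, fun e => ha (Subtype.ext e)⟩⟩] at this
    rw [nz, ← this]
    simp [lb]
  obtain ⟨A', k1, k2, k3⟩ := t6e h hH ‹p.Prime› h5 q
    (Or.inl (ho.of_dvd_nat (Subgroup.card_dvd_of_le q.le))) (hw.map H.subtype) x.2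
    (e1 ▸ Multiset.le_add_left _ _) e2
  refine ⟨hd A', k1.toPth.cast rfl ?_, ?_⟩
  · rw [k3, e2, add_comm, ou_add_nz]
  · rw [k2, ← add_assoc, e1]
    exact st_add (fun a ha => not_not.2 ha) fun a => by simp [em]

end Pool.Agent.SQ2

end MrgPart2

-- ======== part 3: formerly Pool.Agent.MP_f56020_al.cy.Cy
section MrgPart3

namespace Pool.Agent.SQC

open Pool.Agent.SQ Multiplicative DihedralGroup

universe u

/-- The zigzag. -/
def zq (m i : ℕ) : ℕ := if i % 2 = 0 then i / 2 else 2 * m - (i + 1) / 2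

/-- The labels of the zigzag. -/
def zd (m i : ℕ) : ℕ := if i % 2 = 0 then 2 * m - (i + 1) else i + 1

theorem sc_zmod {n m : ℕ} [NeZero n] (hn : n = 2 * m) :
    SC (Multiplicative (ZMod n)) (ofAdd (m : ZMod n)) := by
  have h0 := NeZero.pos n
  have e : ∀ i < n - 1, ld (ofAdd ((zq m i : ℕ) : ZMod n)) (ofAdd ((zq m (i + 1) : ℕ) : ZMod n))
      = ofAdd ((zd m i : ℕ) : ZMod n) := fun i hi => by
    rw [cast_add_eq (n := n) (a := zq m (i + 1)) (b := zq m i) (c := zd m i)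
      (by unfold zq zd; split_ifs <;> omega), ld, ofAdd_add, inv_mul_cancel_left]
  refine sc_of_seq (q := fun i => ofAdd ((zq m i : ℕ) : ZMod n)) (L := n - 1)
    ⟨by simp; omega, fun i hi j hj h => ?_, fun i hi j hj h => ?_⟩ ?_
  · have := cast_inj (by unfold zq; split_ifs <;> omega) (by unfold zq; split_ifs <;> omega)
      (ofAdd.injective h)
    unfold zq at this; split_ifs at this <;> omega
  · rw [e i hi, e j hj] at h
    have := cast_inj (by unfold zd; split_ifs <;> omega) (by unfold zd; split_ifs <;> omega)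
      (ofAdd.injective h)
    unfold zd at this; split_ifs at this <;> omega
  · rw [show zq m (n - 1) = m by unfold zq; split_ifs <;> omega, show zq m 0 = 0 from rfl]
    simp

theorem sc_cyclic {C : Type*} [Group C] [Finite C] [IsCyclic C] {w : C} (hw : w * w = 1)
    (h1 : w ≠ 1) : SC C w := by
  have h2 : orderOf w = 2 := orderOf_eq_prime (by rw [sq, hw]) h1
  obtain ⟨m, hm⟩ : 2 ∣ Nat.card C := h2 ▸ orderOf_dvd_natCard w
  have : NeZero (Nat.card C) := ⟨Nat.card_pos.ne'⟩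
  let e := zmodCyclicMulEquiv (G := C) inferInstance
  have h := (sc_zmod hm).equiv e
  obtain ⟨x, rfl⟩ := e.surjective w
  have a1 : x.toAdd + x.toAdd = 0 := congrArg toAdd (e.injective (by rw [map_mul, hw, map_one]) :
    x * x = 1)
  have a2 : x.toAdd ≠ 0 := fun k => h1 (by rw [show x = 1 from k, map_one])
  have a3 : x.toAdd.val = m := by
    have b1 := ZMod.val_lt x.toAdd
    have b2 : x.toAdd.val ≠ 0 := fun k => a2 ((ZMod.val_eq_zero _).1 k)
    have b3 : Nat.card C ∣ x.toAdd.val + x.toAdd.val :=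
      (ZMod.natCast_eq_zero_iff _ _).1 (by rw [Nat.cast_add, ZMod.natCast_zmod_val, a1])
    obtain ⟨c, hc⟩ := b3
    have : c = 1 := by
      rcases c with _ | _ | c
      · omega
      · rfl
      · nlinarith
    subst this
    omega
  rwa [← a3, ZMod.natCast_zmod_val] at h

section two
variable {G : Type u} [Group G] {π : G →* Multiplicative (ZMod 2)} {z : G}

theorem ker_or (h1 : π z ≠ 1) (g : G) : g ∈ π.ker ∨ z * g ∈ π.ker := by
  rw [MonoidHom.mem_ker, MonoidHom.mem_ker, map_mul]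
  revert h1
  generalize π z = a
  generalize π g = b
  revert a b
  decide

theorem dih_hom (hz : z * z = 1) (h1 : π z ≠ 1) {n : ℕ} (ρ : π.ker →* Multiplicative (ZMod n))
    (hρ : Function.Surjective ρ) (hi : ∀ u, ρ (MulAut.conjNormal z u) = (ρ u)⁻¹) :
    ∃ f : G →* DihedralGroup n, Function.Surjective f ∧ f z = sr 0 ∧
      (∀ u : π.ker, f u = r (ρ u).toAdd) := by
  classical
  have zi : z⁻¹ = z := inv_eq_of_mul_eq_one_right hz
  have zc : ∀ g, z * (z * g) = g := fun g => by rw [← mul_assoc, hz, one_mul]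
  let F : G → DihedralGroup n := fun g => if h : g ∈ π.ker then r (ρ ⟨g, h⟩).toAdd
    else sr (ρ ⟨z * g, (ker_or h1 g).resolve_left h⟩).toAdd
  have F0 : ∀ u : π.ker, F u = r (ρ u).toAdd := fun u => dif_pos u.2
  have F1 : ∀ u : π.ker, F (z * u) = sr (ρ u).toAdd := fun u => by
    have h : z * u ∉ π.ker := fun k => h1 ((Subgroup.mul_mem_cancel_right _ u.2).1 k)
    simp only [F, dif_neg h, zc]
  have cs : ∀ g : G, ∃ u : π.ker, g = u ∨ g = z * u := fun g => (ker_or h1 g).elim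
    (fun h => ⟨⟨g, h⟩, Or.inl rfl⟩) fun h => ⟨⟨_, h⟩, Or.inr (zc g).symm⟩
  have sw : ∀ u : π.ker, u * z = z * (MulAut.conjNormal z u : π.ker) := fun u => by
    simp [zi, mul_assoc, zc]
  refine ⟨MonoidHom.mk' F fun a b => ?_, fun d => ?_, ?_, F0⟩
  · obtain ⟨u, rfl | rfl⟩ := cs a <;> obtain ⟨v, rfl | rfl⟩ := cs b
    · rw [← Subgroup.coe_mul, F0, F0, F0, map_mul, r_mul_r, toAdd_mul]
    · rw [← mul_assoc, sw, mul_assoc, ← Subgroup.coe_mul, F1, F0, F1, map_mul, hi, r_mul_sr,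
        toAdd_mul, toAdd_inv, neg_add_eq_sub]
    · rw [mul_assoc, ← Subgroup.coe_mul, F1, F0, F1, map_mul, sr_mul_r, toAdd_mul]
    · rw [mul_assoc, ← mul_assoc (u : G), sw, mul_assoc, zc, ← Subgroup.coe_mul, F0, F1, F1,
        map_mul, hi, sr_mul_sr, toAdd_mul, toAdd_inv, neg_add_eq_sub]
  · rcases d with i | i <;> obtain ⟨u, hu⟩ := hρ (ofAdd i)
    · exact ⟨u, (F0 u).trans (by rw [hu]; rfl)⟩
    · exact ⟨z * u, (F1 u).trans (by rw [hu]; rfl)⟩
  · simpa using F1 1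

theorem dih_ker (h1 : π z ≠ 1) {n : ℕ} {ρ : π.ker →* Multiplicative (ZMod n)}
    {f : G →* DihedralGroup n} (f1 : f z = sr 0) (f0 : ∀ u : π.ker, f u = r (ρ u).toAdd) {g : G}
    (h : f g = 1) : ∃ k : g ∈ π.ker, ρ ⟨g, k⟩ = 1 := by
  rcases ker_or h1 g with k | k
  · exact ⟨k, r.inj ((f0 ⟨g, k⟩).symm.trans h)⟩
  · have := f0 ⟨_, k⟩
    rw [map_mul, h, f1, mul_one] at this
    cases this

theorem ne_three {K : Type*} [Group K] [Finite K] {p : ℕ} (hp : p.Prime) (h3 : p ≠ 3)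
    (h : IsPGroup p K) : Nat.card K ≠ 3 := fun k => by
  have : Fact p.Prime := ⟨hp⟩
  obtain ⟨m, hm⟩ := h.exists_card_eq
  exact h3 ((Nat.prime_dvd_prime_iff_eq Nat.prime_three hp).1
    (Nat.prime_three.dvd_of_dvd_pow (n := m) (by rw [← hm, k]))).symm

theorem surj_two (h1 : π z ≠ 1) : Function.Surjective π := surj_of_ne π h1

theorem top_p [Finite G] {p : ℕ} (hp : p.Prime) (h2 : p ≠ 2) (hK : IsPGroup p π.ker)
    (hz : z * z = 1) (h1 : π z ≠ 1)
    (hb : ¬ (Nat.card π.ker = 3 ∧ ∀ u ∈ π.ker, z * u * z⁻¹ = u⁻¹)) : SC G z := by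
  have hC : SC _ (π z) := sc_cyclic (by rw [← map_mul, hz, map_one]) h1
  by_cases h3 : p = 3
  · exact layer π (surj_two h1) hp h2 hK hz h1 hC hb (Or.inl h3)
  rcases subsingleton_or_nontrivial π.ker with k | k
  · exact layer π (surj_two h1) Nat.prime_three (by norm_num)
      (fun u => ⟨0, by simpa using Subsingleton.elim _ _⟩) hz h1 hC hb (Or.inl rfl)
  have : Fact p.Prime := ⟨hp⟩
  have hp2 := hp.two_le
  have h4 : p ≠ 4 := fun e => absurd (e ▸ hp) (by norm_num)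
  have c := ctx_ker π hz h1
  obtain ⟨f, hf⟩ := zmod_p hK
  obtain ⟨ρ, r1, r2 | r2⟩ := plus_minus _ c.invol f hf
  · obtain ⟨τ, L, h, -⟩ := rp_of_sc π (surj_two h1) hC
    obtain ⟨τ', L', h', e⟩ := step' c h (odd_p h2 hK) ρ r1 r2 (Or.inl (blk_plus h2))
    obtain ⟨φ', -, c'⟩ := c.ker ρ (ψ := fun x => x) r2
    rw [Nat.card_congr toAdd, Nat.card_zmod] at e
    have h5 : 5 ≤ p := by omega
    exact down h2 _ ρ.ker le_rfl (hK.to_subgroup _) _ φ' τ' L' c' h'
      (fun k => ne_three hp h3 (hK.to_subgroup _) k.1) (Or.inr (by nlinarith))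
  · obtain ⟨f, f1, f2, f3⟩ := dih_hom hz h1 ρ r1 r2
    have hf : IsPGroup p f.ker := hK.to_le fun g hg => (dih_ker h1 f2 f3 hg).1
    exact layer f f1 hp h2 hf hz (by rw [f2]; exact fun e => by cases e)
      (f2 ▸ sc_dih (hp.odd_of_ne_two h2) (by omega)) (fun k => ne_three hp h3 hf k.1)
      (Or.inr (by rw [nat_card]; omega))

end two

theorem chi_odd {G : Type*} [Group G] [Finite G] {O : Subgroup G} (ho : Odd (Nat.card O)) {u : G}
    (hu : u ∈ O) (χ : G →* ℤˣ) : χ u = 1 := by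
  obtain ⟨m, hm⟩ := ho
  have h2 : u ^ (2 * m + 1) = 1 := by
    rw [← hm]
    exact congrArg Subtype.val (pow_card_eq_one' (x := (⟨_, hu⟩ : O)))
  have := congrArg χ h2
  rwa [map_pow, pow_succ, pow_mul, Int.units_sq, one_pow, one_mul, map_one] at this

theorem card_comap_mk {G : Type*} [Group G] [Finite G] (K : Subgroup G) [K.Normal]
    (B : Subgroup (G ⧸ K)) :
    Nat.card (B.comap (QuotientGroup.mk' K)) = Nat.card B * Nat.card K := by
  have h1 := Subgroup.card_mul_index (B.comap (QuotientGroup.mk' K))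
  have h2 := Subgroup.card_mul_index B
  have h3 := Subgroup.card_eq_card_quotient_mul_card_subgroup K
  rw [B.index_comap_of_surjective (QuotientGroup.mk'_surjective K)] at h1
  refine Nat.eq_of_mul_eq_mul_right (Nat.pos_of_ne_zero B.index_ne_zero_of_finite) ?_
  rw [h1, h3, ← h2]; ring

/-- A normal subgroup of order three properly inside an odd normal subgroup is not the largest
normal subgroup of prime power order. -/
theorem bigger {G : Type*} [Group G] [Finite G] [Group.IsSolvable G] {O K : Subgroup G}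
    [O.Normal] [K.Normal] (ho : Odd (Nat.card O)) (hK : K ≤ O) (h3 : Nat.card K = 3) (hne : K ≠ O) :
    ∃ E : Subgroup G, E.Normal ∧ E ≤ O ∧ (∃ p, p.Prime ∧ IsPGroup p E) ∧ 3 < Nat.card E := by
  have h0 : O.map (QuotientGroup.mk' K) ≠ ⊥ := fun e => hne (le_antisymm hK (by
    rwa [Subgroup.map_eq_bot_iff, QuotientGroup.ker_mk'] at e))
  obtain ⟨q, hq, B, b1, b2, b3, b4, b5⟩ := exists_normal_p _ _
    (Subgroup.Normal.map inferInstance _ (QuotientGroup.mk'_surjective K)) le_rfl h0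
  have hB : B.comap (QuotientGroup.mk' K) ≤ O := by
    refine (Subgroup.comap_mono b2).trans ?_
    rw [Subgroup.comap_map_eq, QuotientGroup.ker_mk', sup_eq_left.2 hK]
  have c1 : 1 < Nat.card B := (Subgroup.one_lt_card_iff_ne_bot B).2 b3
  by_cases q3 : q = 3
  · subst q3
    refine ⟨_, inferInstance, hB, ⟨3, hq, (pgroup_of_pow b5).comap_of_ker_isPGroup _ ?_⟩, ?_⟩
    · rw [QuotientGroup.ker_mk']
      exact IsPGroup.of_card (n := 1) h3
    · rw [card_comap_mk, h3]; omega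
  have cen : ∀ g ∈ O, ∀ u ∈ K, g * u = u * g := fun g hg => sq_central K h3 (chi_odd ho hg)
  have k3 : ∀ u ∈ K, u ^ 3 = 1 := fun u hu => by
    rw [← h3]
    exact congrArg Subtype.val (pow_card_eq_one' (x := (⟨u, hu⟩ : K)))
  have cop : Nat.Coprime 3 q := (Nat.coprime_primes Nat.prime_three hq).2 (Ne.symm q3)
  have pw : ∀ a ∈ B.comap (QuotientGroup.mk' K), a ^ q ∈ K := fun a ha =>
    (QuotientGroup.eq_one_iff _).1 ((map_pow (QuotientGroup.mk' K) a q).trans (b5 _ ha))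
  have cm : ∀ a ∈ B.comap (QuotientGroup.mk' K), ∀ b ∈ B.comap (QuotientGroup.mk' K),
      Commute a b := fun a ha b hb => by
    have hc : a * b * a⁻¹ * b⁻¹ ∈ K := (QuotientGroup.eq_one_iff _).1 (by
      change QuotientGroup.mk' K _ = 1
      rw [map_mul, map_mul, map_mul, b4 _ ha _ hb]; simp)
    obtain ⟨c, hc'⟩ : ∃ c, c = a * b * a⁻¹ * b⁻¹ := ⟨_, rfl⟩
    rw [← hc'] at hc
    have e0 : a * b = c * b * a := by rw [hc']; group
    have e1 : ∀ n : ℕ, a ^ n * b = c ^ n * b * a ^ n := fun n => by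
      induction n with
      | zero => simp
      | succ n ih =>
        rw [pow_succ' a, mul_assoc, ih, ← mul_assoc, ← mul_assoc, cen a (hB ha) _ (pow_mem hc n),
          mul_assoc (c ^ n), e0, pow_succ c]
        simp only [mul_assoc]
    have e2 : c ^ q = 1 := by
      have := e1 q
      rw [← cen b (hB hb) _ (pw a ha)] at this
      simpa [mul_assoc] using this.symm
    have e3 : c = 1 := by simpa [cop.gcd_eq_one] using pow_gcd_eq_one.2 ⟨k3 c hc, e2⟩
    rw [e3, one_mul] at e0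
    exact e0
  let E : Subgroup G :=
    { carrier := {a | a ∈ B.comap (QuotientGroup.mk' K) ∧ a ^ q = 1}
      mul_mem' := fun ha hb => ⟨mul_mem ha.1 hb.1, by
        rw [(cm _ ha.1 _ hb.1).mul_pow, ha.2, hb.2, one_mul]⟩
      one_mem' := ⟨one_mem _, one_pow _⟩
      inv_mem' := fun ha => ⟨inv_mem ha.1, by rw [inv_pow, ha.2, inv_one]⟩ }
  have hE : IsPGroup q E := pgroup_of_pow fun a ha => ha.2
  refine ⟨E, ⟨fun a ha g => ⟨Subgroup.Normal.conj_mem inferInstance a ha.1 g, by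
    rw [conj_pow, ha.2]; simp⟩⟩, fun a ha => hB ha.1, ⟨q, hq, hE⟩, ?_⟩
  have := (Subgroup.nontrivial_iff_ne_bot B).2 b3
  obtain ⟨⟨b, hb⟩, hb1⟩ := exists_ne (1 : B)
  obtain ⟨b, rfl⟩ := QuotientGroup.mk'_surjective K b
  have m1 : b ^ 3 ∈ E := ⟨pow_mem hb 3, by rw [← pow_mul, mul_comm, pow_mul, k3 _ (pw b hb)]⟩
  have m2 : E ≠ ⊥ := fun e => hb1 (Subtype.ext (by
    have := congrArg (QuotientGroup.mk' K) (Subgroup.mem_bot.1 (e ▸ m1))
    rw [map_pow, map_one] at this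
    simpa [cop.gcd_eq_one] using pow_gcd_eq_one.2 ⟨this, b5 _ hb⟩))
  have c2 := (Subgroup.one_lt_card_iff_ne_bot E).2 m2
  have c3 := ne_three hq q3 hE
  have c4 : Odd (Nat.card E) := ho.of_dvd_nat (Subgroup.card_dvd_of_le fun a ha => hB ha.1)
  obtain ⟨m, hm⟩ := c4
  omega

/-- The exchange over the symmetric group of degree three. -/
def T6E : Prop := ∀ (G : Type u) [Group G] [Finite G] [Group.IsSolvable G]
  (π : G →* DihedralGroup 3), Function.Surjective π → Odd (Nat.card π.ker) → ∀ p : ℕ, p.Prime →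
  5 ≤ p → ∀ ψ : π.ker →* Multiplicative (ZMod p), Function.Surjective ψ →
  ∀ (x y : (Subgroup.zpowers (sr 0)).comap π) (V : Multiset ((Subgroup.zpowers (sr 0)).comap π)),
  Pth ld x y V (st (· ≠ 1)) → {x} + V = al _ →
  ∃ V', Pth ld (x : G) y V' (st (· ≠ 1)) ∧ {(x : G)} + V' = al G

theorem top_s3 (hT : T6E.{u}) {G : Type u} [Group G] [Finite G] [Group.IsSolvable G]
    {π : G →* Multiplicative (ZMod 2)} {z : G} (hz : z * z = 1) (h1 : π z ≠ 1)
    (K : Subgroup G) [K.Normal] (h0 : K ≠ ⊥) {p : ℕ} (hp : p.Prime) (h5 : 5 ≤ p)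
    (hK : IsPGroup p K) (π' : G ⧸ K →* Multiplicative (ZMod 2))
    (a2 : ∀ g, π' (QuotientGroup.mk' K g) = π g) (h3 : Nat.card π'.ker = 3)
    (hi : ∀ u ∈ π'.ker, QuotientGroup.mk' K z * u * (QuotientGroup.mk' K z)⁻¹ = u⁻¹) : SC G z := by
  have : Fact p.Prime := ⟨hp⟩
  have : Nontrivial π'.ker := Finite.one_lt_card_iff_nontrivial.1 (by omega)
  obtain ⟨ρ, r1⟩ := zmod_p (p := 3) (K := π'.ker) (IsPGroup.of_card (n := 1) h3)
  have r2 := ((Nat.bijective_iff_surjective_and_card ρ).2 ⟨r1, by rw [h3]; simp⟩).1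
  have hz' : QuotientGroup.mk' K z * QuotientGroup.mk' K z = 1 := by rw [← map_mul, hz, map_one]
  have h1' : π' (QuotientGroup.mk' K z) ≠ 1 := by rwa [a2]
  obtain ⟨f, f1, f2, f3⟩ := dih_hom hz' h1' ρ r1 fun u => by
    rw [← map_inv]; exact congrArg ρ (Subtype.ext (hi u u.2))
  have fi : ∀ g, f g = 1 → g = 1 := fun g hg => by
    obtain ⟨k, e⟩ := dih_ker h1' f2 f3 hg
    exact congrArg Subtype.val (r2 (e.trans (map_one ρ).symm))
  let F := f.comp (QuotientGroup.mk' K)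
  have kF : F.ker = K := by
    ext g
    exact ⟨fun h => (QuotientGroup.eq_one_iff g).1 (fi _ h), fun h => by
      change f (QuotientGroup.mk' K g) = 1
      rw [show QuotientGroup.mk' K g = 1 from (QuotientGroup.eq_one_iff g).2 h, map_one]⟩
  have hF : IsPGroup p F.ker := kF ▸ hK
  have : Nontrivial F.ker := (Subgroup.nontrivial_iff_ne_bot _).2 (kF ▸ h0)
  obtain ⟨ψ, hψ⟩ := zmod_p hF
  let H := (Subgroup.zpowers (sr 0)).comap F
  have zH : z ∈ H := ⟨1, (zpow_one _).trans f2.symm⟩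
  have hH : IsPGroup p (π.comp H.subtype).ker := by
    refine (hK.comap_of_injective H.subtype H.subtype_injective).to_le ?_
    rintro ⟨g, i, hi⟩ hg
    have k : QuotientGroup.mk' K g ∈ π'.ker := (a2 g).trans hg
    have e : (sr 0 : DihedralGroup 3) ^ i = r (ρ ⟨_, k⟩).toAdd := hi.trans (f3 ⟨_, k⟩)
    rw [← zpow_mod_orderOf, orderOf_sr] at e
    rcases Int.emod_two_eq_zero_or_one i with k' | k' <;> rw [Nat.cast_ofNat, k'] at e
    · exact (QuotientGroup.eq_one_iff g).1 (fi _ ((f3 ⟨_, k⟩).trans e.symm))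
    · cases e
  obtain ⟨V, q1, q2⟩ := top_p (π := π.comp H.subtype) (z := ⟨z, zH⟩) hp (by omega) hH
    (Subtype.ext hz) h1 fun k => ne_three hp (by omega) hH k.1
  exact hT G F (f1.comp (QuotientGroup.mk'_surjective K)) (odd_p (by omega) hF) p hp h5 ψ hψ
    1 ⟨z, zH⟩ V q1 q2

theorem two_odd (hT : T6E.{u}) (n : ℕ) : ∀ (G : Type u) [Group G] [Finite G] [Group.IsSolvable G],
    Nat.card G ≤ n → ∀ π : G →* Multiplicative (ZMod 2), Odd (Nat.card π.ker) → ∀ z : G,
      z * z = 1 → π z ≠ 1 → ¬ (Nat.card π.ker = 3 ∧ ∀ u ∈ π.ker, z * u * z⁻¹ = u⁻¹) → SC G z := by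
  induction n with
  | zero => intro G _ _ _ h; exact absurd (Nat.card_pos (α := G)) (by omega)
  | succ n ih =>
    intro G _ _ _ h π ho z hz h1 hb
    obtain ⟨K, ⟨k1, k2, p, hp, k3⟩, mx⟩ := Set.exists_max_image
      {K : Subgroup G | K.Normal ∧ K ≤ π.ker ∧ ∃ p, p.Prime ∧ IsPGroup p K} (fun K => Nat.card K)
      (Set.toFinite _) ⟨⊥, inferInstance, bot_le, 3, Nat.prime_three, IsPGroup.of_bot⟩
    by_cases h0 : π.ker = ⊥
    · exact top_p Nat.prime_three (by norm_num) (h0 ▸ IsPGroup.of_bot) hz h1 hb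
    have k0 : 1 < Nat.card K := by
      obtain ⟨q, hq, B, b1, b2, b3, -, b5⟩ := exists_normal_p _ π.ker inferInstance le_rfl h0
      exact ((Subgroup.one_lt_card_iff_ne_bot B).2 b3).trans_le
        (mx B ⟨b1, b2, q, hq, pgroup_of_pow b5⟩)
    have : Fact p.Prime := ⟨hp⟩
    obtain ⟨π', a1, a2, a3⟩ := lift_facts π (surj_two h1) K k2
    have hp2 : p ≠ 2 := by
      rintro rfl
      have := Finite.one_lt_card_iff_nontrivial.1 k0
      obtain ⟨m, m0, hm⟩ := k3.nontrivial_iff_card.1 this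
      exact Nat.not_even_iff_odd.2 (Nat.odd_mul.1 (a3 ▸ ho)).1
        (hm ▸ (Nat.even_pow.2 ⟨even_two, m0.ne'⟩))
    by_cases hK : K = π.ker
    · exact top_p hp hp2 (hK ▸ k3) hz h1 hb
    have n3 : Nat.card K ≠ 3 := fun k => by
      obtain ⟨E, e1, e2, e3, e4⟩ := bigger ho k2 k hK
      have := mx E ⟨e1, e2, e3⟩
      omega
    have c0 : 1 < Nat.card π'.ker := by
      have := Nat.card_pos (α := π'.ker)
      by_contra k
      rw [show Nat.card π'.ker = 1 by omega, mul_one] at a3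
      exact hK (Subgroup.eq_of_le_of_card_ge k2 a3.le)
    by_cases hq : Nat.card π'.ker = 3 ∧ ∀ u ∈ π'.ker,
        QuotientGroup.mk' K z * u * (QuotientGroup.mk' K z)⁻¹ = u⁻¹
    · have h3 : p ≠ 3 := by
        rintro rfl
        obtain ⟨m, hm⟩ := k3.exists_card_eq
        have := mx π.ker ⟨inferInstance, le_rfl, 3, hp,
          IsPGroup.of_card (n := m + 1) (by rw [a3, hm, hq.1, pow_succ])⟩
        exact hK (Subgroup.eq_of_le_of_card_ge k2 this)
      have := hp.two_le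
      have h4 : p ≠ 4 := fun e => absurd (e ▸ hp) (by norm_num)
      exact top_s3 hT hz h1 K ((Subgroup.one_lt_card_iff_ne_bot K).1 k0) hp (by omega) k3 π' a2
        hq.1 hq.2
    have c1 := Subgroup.card_eq_card_quotient_mul_card_subgroup K
    have c2 := card_ker π' a1
    have c3 := Nat.card_pos (α := G ⧸ K)
    rw [Nat.card_congr toAdd, Nat.card_zmod] at c2
    exact layer_quot K hp hp2 k3 hz (fun k => h1 (k2 k))
      (ih (G ⧸ K) (by nlinarith) π' (Nat.odd_mul.1 (a3 ▸ ho)).2 _ (by rw [← map_mul, hz, map_one])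
        (by rwa [a2]) hq) (fun k => n3 k.1) (Or.inr (by omega))

/-- Groups of even order with a cyclic Sylow subgroup for the prime two. -/
theorem cy (hT : T6E.{u}) (G : Type u) [Group G] [Finite G] [Group.IsSolvable G]
    (he : Even (Nat.card G)) (hc : ∀ P : Subgroup G, IsPGroup 2 P → IsCyclic P)
    (h6 : Nat.card G ≠ 6) : ∃ z : G, z * z = 1 ∧ z ≠ 1 ∧ SC G z := by
  have hm : (Nat.card G).minFac = 2 := (Nat.minFac_eq_two_iff _).2 (even_iff_two_dvd.1 he)
  obtain ⟨P⟩ : Nonempty (Sylow 2 G) := inferInstance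
  have hP := hc P P.isPGroup'
  let π := MonoidHom.transferSylow P (hP.normalizer_le_centralizer hm)
  have cp : π.ker.IsComplement' P := MonoidHom.ker_transferSylow_isComplement' P _
  have c1 := cp.card_mul_card
  have ho : Odd (Nat.card π.ker) := by
    rw [← cp.index_eq_card]
    exact Nat.odd_iff.2 (Nat.two_dvd_ne_zero.1 P.not_dvd_index)
  let Q := G ⧸ π.ker
  let e : Q ≃* P := cp.symm.QuotientMulEquiv
  have : IsCyclic Q := isCyclic_of_surjective e.symm e.symm.surjective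
  have c2 : Nat.card Q = Nat.card P := Nat.card_congr e.toEquiv
  obtain ⟨k, hk⟩ := P.isPGroup'.exists_card_eq
  have hs := QuotientGroup.mk'_surjective π.ker
  have ho' : Odd (Nat.card (QuotientGroup.mk' π.ker).ker) := by rwa [QuotientGroup.ker_mk']
  rcases k with _ | _ | k
  · rw [hk, pow_zero, mul_one] at c1
    exact absurd (c1 ▸ he) (Nat.not_even_iff_odd.2 ho)
  · let e2 : Q ≃* Multiplicative (ZMod 2) := mulEquivOfPrimeCardEq (p := 2) (c2.trans hk) (by simp)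
    let σ := e2.toMonoidHom.comp (QuotientGroup.mk' π.ker)
    have ks : σ.ker = π.ker := by
      rw [MonoidHom.ker_comp_of_injective _ _ e2.injective, QuotientGroup.ker_mk']
    obtain ⟨z, hz, z1⟩ := lift_invol σ (e2.surjective.comp hs) (ks ▸ ho) (w := ofAdd 1) (by decide)
    have z2 : σ z ≠ 1 := by rw [z1]; decide
    refine ⟨z, hz, fun k => z2 (by rw [k, map_one]), two_odd hT _ G le_rfl σ (ks ▸ ho) z hz z2
      fun k => h6 ?_⟩
    rw [← c1, ← ks, k.1, hk]; rfl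
  · obtain ⟨g, hg⟩ := IsCyclic.exists_ofOrder_eq_natCard (α := Q)
    rw [c2, hk] at hg
    have w1 : g ^ 2 ^ (k + 1) * g ^ 2 ^ (k + 1) = 1 := by
      rw [← sq, ← pow_mul, ← pow_succ, ← hg, pow_orderOf_eq_one]
    have w2 : g ^ 2 ^ (k + 1) ≠ 1 := pow_ne_one_of_lt_orderOf (by positivity)
      (by rw [hg]; exact Nat.pow_lt_pow_right one_lt_two (by omega))
    obtain ⟨z, hz, z1⟩ := lift_invol _ hs ho' w1
    refine ⟨z, hz, fun k => w2 (by rw [← z1, k, map_one]),
      layer_sq_aux ?_ _ G le_rfl _ inferInstance hs ho' z hz (chi_lift _ hs ho' fun χ => ?_)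
        (z1 ▸ w2) (z1 ▸ sc_cyclic w1 w2)⟩
    · change 3 ≤ Nat.card Q
      rw [c2, hk, pow_succ, pow_succ]
      have := Nat.one_le_two_pow (n := k)
      omega
    · rw [z1, pow_succ, pow_mul, map_pow, Int.units_sq]

end Pool.Agent.SQC

end MrgPart3

-- marker of a merged file
example : 731051 + 823978 = 731051 + 823978 := rfl
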